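import Mathlib

set_option autoImplicit false

namespace Pool.Agent.H43CC

open scoped Classical in
/-- The array of a bijection. -/
noncomputable def dl {K A B : Type} (σ : A ≃ B) (i : A → K) (j : B → K) : ℝ :=
  if i = j ∘ σ then 1 else 0

/-- The span of the arrays of the bijections. -/
noncomputable def Cc (K A B : Type) : Submodule ℝ ((A → K) → (B → K) → ℝ) :=
  Submodule.span ℝ (Set.range (fun σ : A ≃ B => dl (K := K) σ))

variable {K A B A' B' : Type}

theorem dl_mem (σ : A ≃ B) : dl (K := K) σ ∈ Cc K A B := Submodule.subset_span ⟨σ, rfl⟩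

theorem dl_apply_eq {A B A' B' : Type} (σ : A ≃ B) (τ : A' ≃ B') {i : A → K} {j : B → K}
    {i' : A' → K} {j' : B' → K} (h : (i = j ∘ σ) ↔ (i' = j' ∘ τ)) : dl σ i j = dl τ i' j' := by
  unfold dl
  by_cases h1 : i = j ∘ σ
  · rw [if_pos h1, if_pos (h.1 h1)]
  · rw [if_neg h1, if_neg (fun h2 => h1 (h.2 h2))]

/-- Reindexing. -/
def reL (f : (A → K) → (A' → K)) (g : (B → K) → (B' → K)) :
    ((A' → K) → (B' → K) → ℝ) →ₗ[ℝ] ((A → K) → (B → K) → ℝ) where
  toFun h i j := h (f i) (g j)
  map_add' _ _ := rfl
  map_smul' _ _ := rfl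

theorem Cc_re (eA : A ≃ A') (eB : B ≃ B') {h : (A' → K) → (B' → K) → ℝ} (hh : h ∈ Cc K A' B') :
    (fun i j => h (i ∘ eA.symm) (j ∘ eB.symm)) ∈ Cc K A B := by
  have key : Cc K A' B' ≤ (Cc K A B).comap (reL (fun i => i ∘ eA.symm) (fun j => j ∘ eB.symm)) := by
    refine Submodule.span_le.2 ?_
    rintro _ ⟨σ, rfl⟩
    refine Submodule.subset_span ⟨eA.trans (σ.trans eB.symm), ?_⟩
    funext i j
    refine dl_apply_eq _ _ ⟨fun h1 => ?_, fun h1 => ?_⟩
    · rw [h1]; funext a; simp
    · funext a
      have := congrFun h1 (eA a)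
      simpa using this
  exact key hh

theorem Cc_swap {h : (A → K) → (B → K) → ℝ} (hh : h ∈ Cc K A B) :
    (fun j i => h i j) ∈ Cc K B A := by
  let L : ((A → K) → (B → K) → ℝ) →ₗ[ℝ] ((B → K) → (A → K) → ℝ) :=
    { toFun := fun h j i => h i j
      map_add' := fun _ _ => rfl
      map_smul' := fun _ _ => rfl }
  have key : Cc K A B ≤ (Cc K B A).comap L := by
    refine Submodule.span_le.2 ?_
    rintro _ ⟨σ, rfl⟩
    refine Submodule.subset_span ⟨σ.symm, ?_⟩
    funext j i
    refine dl_apply_eq _ _ ⟨fun h1 => ?_, fun h1 => ?_⟩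
    · rw [h1]; funext a; simp
    · rw [h1]; funext a; simp
  exact key hh

theorem Cc_prod {h : (A → K) → (B → K) → ℝ} (hh : h ∈ Cc K A B)
    {h' : (A' → K) → (B' → K) → ℝ} (hh' : h' ∈ Cc K A' B') :
    (fun (i : A ⊕ A' → K) (j : B ⊕ B' → K) =>
      h (i ∘ Sum.inl) (j ∘ Sum.inl) * h' (i ∘ Sum.inr) (j ∘ Sum.inr)) ∈ Cc K (A ⊕ A') (B ⊕ B') := by
  let L : ((A → K) → (B → K) → ℝ) →
      (((A' → K) → (B' → K) → ℝ) →ₗ[ℝ] ((A ⊕ A' → K) → (B ⊕ B' → K) → ℝ)) := fun h =>
    { toFun := fun h' i j => h (i ∘ Sum.inl) (j ∘ Sum.inl) * h' (i ∘ Sum.inr) (j ∘ Sum.inr)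
      map_add' := fun x y => by funext i j; simp [mul_add]
      map_smul' := fun r x => by funext i j; simp; ring }
  let L' : ((A' → K) → (B' → K) → ℝ) →
      (((A → K) → (B → K) → ℝ) →ₗ[ℝ] ((A ⊕ A' → K) → (B ⊕ B' → K) → ℝ)) := fun h' =>
    { toFun := fun h i j => h (i ∘ Sum.inl) (j ∘ Sum.inl) * h' (i ∘ Sum.inr) (j ∘ Sum.inr)
      map_add' := fun x y => by funext i j; simp [add_mul]
      map_smul' := fun r x => by funext i j; simp; ring }
  have key1 : ∀ σ : A ≃ B, Cc K A' B' ≤ (Cc K (A ⊕ A') (B ⊕ B')).comap (L (dl σ)) := by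
    intro σ
    refine Submodule.span_le.2 ?_
    rintro _ ⟨τ, rfl⟩
    refine Submodule.subset_span ⟨Equiv.sumCongr σ τ, ?_⟩
    funext i j
    show dl (Equiv.sumCongr σ τ) i j =
      dl σ (i ∘ Sum.inl) (j ∘ Sum.inl) * dl τ (i ∘ Sum.inr) (j ∘ Sum.inr)
    unfold dl
    by_cases h1 : i ∘ Sum.inl = (j ∘ Sum.inl) ∘ σ
    · by_cases h2 : i ∘ Sum.inr = (j ∘ Sum.inr) ∘ τ
      · rw [if_pos h1, if_pos h2, if_pos, mul_one]
        funext a
        rcases a with a | a
        · exact congrFun h1 a
        · exact congrFun h2 a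
      · rw [if_neg h2, if_neg, mul_zero]
        intro h3
        apply h2
        funext a
        exact congrFun h3 (Sum.inr a)
    · rw [if_neg h1, if_neg, zero_mul]
      intro h3
      apply h1
      funext a
      exact congrFun h3 (Sum.inl a)
  have key2 : Cc K A B ≤ (Cc K (A ⊕ A') (B ⊕ B')).comap (L' h') := by
    refine Submodule.span_le.2 ?_
    rintro _ ⟨σ, rfl⟩
    exact key1 σ hh'
  exact key2 hh

/-- Extend a function to `Option`. -/
def oc {A K : Type} (s : K) (i : A → K) : Option A → K := fun o => o.elim s i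

@[simp] theorem oc_none {A K : Type} (s : K) (i : A → K) : oc s i none = s := rfl
@[simp] theorem oc_some {A K : Type} (s : K) (i : A → K) (a : A) : oc s i (some a) = i a := rfl

theorem Cc_contr1 [Fintype K] {h : (Option A → K) → (Option B → K) → ℝ}
    (hh : h ∈ Cc K (Option A) (Option B)) :
    (fun i j => ∑ s, h (oc s i) (oc s j)) ∈ Cc K A B := by
  classical
  let L : ((Option A → K) → (Option B → K) → ℝ) →ₗ[ℝ] ((A → K) → (B → K) → ℝ) :=
    { toFun := fun h i j => ∑ s, h (oc s i) (oc s j)
      map_add' := fun x y => by funext i j; simp [Finset.sum_add_distrib]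
      map_smul' := fun r x => by funext i j; simp [Finset.mul_sum] }
  have key : Cc K (Option A) (Option B) ≤ (Cc K A B).comap L := by
    refine Submodule.span_le.2 ?_
    rintro _ ⟨σ, rfl⟩
    show (fun i j => ∑ s, dl σ (oc s i) (oc s j)) ∈ Cc K A B
    rcases hσ : σ none with _ | b
    · have h1 : (fun i j => ∑ s : K, dl σ (oc s i) (oc s j)) =
          (Fintype.card K : ℝ) • dl (K := K) (Equiv.removeNone σ) := by
        funext i j
        have h2 : ∀ s : K, dl σ (oc s i) (oc s j) = dl (Equiv.removeNone σ) i j := by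
          intro s
          refine dl_apply_eq _ _ ⟨fun h1 => ?_, fun h1 => ?_⟩
          · funext a
            have h3 := congrFun h1 (some a)
            have h4 : σ (some a) = some (Equiv.removeNone σ a) := by
              refine (Equiv.removeNone_some σ ?_).symm
              rcases h5 : σ (some a) with _ | b
              · exact absurd (σ.injective (h5.trans hσ.symm)) (by simp)
              · exact ⟨b, rfl⟩
            simpa [h4] using h3
          · funext a
            rcases a with _ | a
            · simp [hσ]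
            · have h4 : σ (some a) = some (Equiv.removeNone σ a) := by
                refine (Equiv.removeNone_some σ ?_).symm
                rcases h5 : σ (some a) with _ | b
                · exact absurd (σ.injective (h5.trans hσ.symm)) (by simp)
                · exact ⟨b, rfl⟩
              simp [h4, h1]
        simp [h2]
      rw [h1]
      exact Submodule.smul_mem _ _ (dl_mem _)
    · have h1 : (fun i j => ∑ s : K, dl σ (oc s i) (oc s j)) = dl (K := K) (Equiv.removeNone σ) := by
        funext i j
        rw [Finset.sum_eq_single (j b)]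
        · refine dl_apply_eq _ _ ⟨fun h1 => ?_, fun h1 => ?_⟩
          · funext a
            have h3 := congrFun h1 (some a)
            rcases h5 : σ (some a) with _ | c
            · have h6 := Equiv.removeNone_none σ h5
              rw [hσ, Option.some.injEq] at h6
              simp only [Function.comp_apply, oc_some, h5, oc_none] at h3 ⊢
              rw [h3, h6]
            · have h6 := Equiv.removeNone_some σ ⟨c, h5⟩
              rw [h5, Option.some.injEq] at h6
              simp only [Function.comp_apply, oc_some, h5] at h3 ⊢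
              rw [h3, h6]
          · funext a
            rcases a with _ | a
            · simp [hσ]
            · rcases h5 : σ (some a) with _ | c
              · have h6 := Equiv.removeNone_none σ h5
                rw [hσ, Option.some.injEq] at h6
                simp [h5, h1, h6]
              · have h6 := Equiv.removeNone_some σ ⟨c, h5⟩
                rw [h5, Option.some.injEq] at h6
                simp [h5, h1, h6]
        · intro s _ hs
          unfold dl
          rw [if_neg]
          intro h2
          apply hs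
          have := congrFun h2 none
          simpa [hσ] using this
        · simp
      rw [h1]
      exact dl_mem _
  exact key hh

theorem Cc_contr [Fintype K] (Q : Type) [Finite Q] : ∀ (_ : Fintype Q) (_ : DecidableEq Q)
    (A B : Type) (h : (Q ⊕ A → K) → (Q ⊕ B → K) → ℝ), h ∈ Cc K (Q ⊕ A) (Q ⊕ B) →
    (fun i j => ∑ s : Q → K, h (Sum.elim s i) (Sum.elim s j)) ∈ Cc K A B := by
  refine Finite.induction_empty_option (P := fun Q => ∀ (_ : Fintype Q) (_ : DecidableEq Q)
    (A B : Type) (h : (Q ⊕ A → K) → (Q ⊕ B → K) → ℝ), h ∈ Cc K (Q ⊕ A) (Q ⊕ B) →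
    (fun i j => ∑ s : Q → K, h (Sum.elim s i) (Sum.elim s j)) ∈ Cc K A B) ?_ ?_ ?_ Q
  · intro Q Q' e ih _ _ A B h hh
    classical
    haveI : Fintype Q := Fintype.ofEquiv Q' e.symm
    have h1 := ih inferInstance inferInstance A B _
      (Cc_re (Equiv.sumCongr e (Equiv.refl A)) (Equiv.sumCongr e (Equiv.refl B)) hh)
    convert h1 using 1
    funext i j
    refine Fintype.sum_equiv (Equiv.arrowCongr e.symm (Equiv.refl K)) _ _ fun s => ?_
    congr 1
    · funext a; rcases a with a | a <;> simp
    · funext a; rcases a with a | a <;> simp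
  · intro _ _ A B h hh
    have h1 := Cc_re (Equiv.emptySum PEmpty A).symm (Equiv.emptySum PEmpty B).symm hh
    convert h1 using 1
    funext i j
    rw [Fintype.sum_unique]
    congr 1
    · funext a; rcases a with a | a
      · exact a.elim
      · simp
    · funext a; rcases a with a | a
      · exact a.elim
      · simp
  · intro Q _ ih _ _ A B h hh
    classical
    let eo : ∀ C : Type, Option (Q ⊕ C) ≃ (Option Q ⊕ C) := fun C =>
      { toFun := fun o => o.elim (Sum.inl none) (Sum.elim (fun q => Sum.inl (some q)) Sum.inr)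
        invFun := Sum.elim (fun o => o.map Sum.inl) (fun c => some (Sum.inr c))
        left_inv := by rintro (_ | _ | _) <;> rfl
        right_inv := by rintro ((_ | _) | _) <;> rfl }
    have h1 := ih inferInstance inferInstance A B _ (Cc_contr1 (Cc_re (eo A) (eo B) hh))
    convert h1 using 1
    funext i j
    rw [Finset.sum_comm, ← Fintype.sum_prod_type']
    refine Fintype.sum_equiv (Equiv.piOptionEquivProd (β := fun _ => K)) _ _ fun s => ?_
    congr 1
    · funext a; rcases a with (_ | a) | a <;> simp [eo, Equiv.piOptionEquivProd, oc]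
    · funext a; rcases a with (_ | a) | a <;> simp [eo, Equiv.piOptionEquivProd, oc]

end Pool.Agent.H43CC
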