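import Mathlib

set_option autoImplicit false

namespace Pool.Agent.H43CC

open Module

variable {ι : Type} [Fintype ι] [DecidableEq ι]

/-- The functions on words of length `n` which are killed by all contractions with `q`. -/
def Ann (m n : ℕ) (q : (Fin m → ι) → ℝ) : Submodule ℝ ((Fin n → ι) → ℝ) where
  carrier := {φ | ∀ g : Fin m → Fin n, Function.Injective g → ∀ y : Fin n → ι,
    ∑ x, q x * φ (Function.extend g x y) = 0}
  add_mem' {a b} ha hb g hg y := by
    have h1 := ha g hg y
    have h2 := hb g hg y
    simp only [Pi.add_apply, mul_add, Finset.sum_add_distrib, h1, h2, add_zero]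
  zero_mem' g hg y := by simp
  smul_mem' r a ha g hg y := by
    have h1 := ha g hg y
    simp only [Pi.smul_apply, smul_eq_mul]
    rw [show (∑ x, q x * (r * a (Function.extend g x y))) =
      r * ∑ x, q x * a (Function.extend g x y) by
        rw [Finset.mul_sum]; exact Finset.sum_congr rfl fun x _ => by ring, h1, mul_zero]

/-- `cons` for words. -/
def cw {n : ℕ} (i : ι) (y : Fin n → ι) : Fin (n + 1) → ι := Fin.cons (α := fun _ => ι) i y

omit [Fintype ι] [DecidableEq ι] in
@[simp] theorem cw_zero {n : ℕ} (i : ι) (y : Fin n → ι) : cw i y 0 = i := rfl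
omit [Fintype ι] [DecidableEq ι] in
@[simp] theorem cw_succ {n : ℕ} (i : ι) (y : Fin n → ι) (j : Fin n) : cw i y j.succ = y j := rfl

omit [DecidableEq ι] in
theorem sum_cw {m : ℕ} {M : Type} [AddCommMonoid M] (f : (Fin (m + 1) → ι) → M) :
    ∑ x, f x = ∑ i : ι, ∑ x : Fin m → ι, f (cw i x) := by
  rw [← Fintype.sum_prod_type']
  refine (Fintype.sum_equiv (Fin.consEquiv (fun _ : Fin (m + 1) => ι)) _ _ fun s => ?_).symm
  rfl

omit [Fintype ι] [DecidableEq ι] in
theorem extend_cw1 {m n : ℕ} (g : Fin m → Fin n) (hg : Function.Injective g) (x : Fin m → ι)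
    (i : ι) (y : Fin n → ι) :
    Function.extend (fun t => (g t).succ) x (cw i y) = cw i (Function.extend g x y) := by
  have hg' : Function.Injective (fun t => (g t).succ) :=
    fun a b h => hg (Fin.succ_injective _ h)
  funext j
  refine Fin.cases ?_ (fun j => ?_) j
  · rw [Function.extend_apply']
    · rfl
    · rintro ⟨a, ha⟩
      exact Fin.succ_ne_zero _ ha
  · rw [cw_succ]
    by_cases h : ∃ t, g t = j
    · obtain ⟨t, rfl⟩ := h
      rw [hg.extend_apply]
      exact hg'.extend_apply x _ t
    · rw [Function.extend_apply' _ _ _ h, Function.extend_apply']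
      · rfl
      · rintro ⟨a, ha⟩
        exact h ⟨a, Fin.succ_injective _ ha⟩

omit [Fintype ι] [DecidableEq ι] in
theorem extend_cw2 {m n : ℕ} (g : Fin m → Fin n) (hg : Function.Injective g) (x : Fin m → ι)
    (i i' : ι) (y : Fin n → ι) :
    Function.extend (Fin.cons (α := fun _ => Fin (n + 1)) 0 (fun t => (g t).succ)) (cw i x)
      (cw i' y) = cw i (Function.extend g x y) := by
  have hg' : Function.Injective (Fin.cons (α := fun _ => Fin (n + 1)) 0 (fun t => (g t).succ)) := by
    rw [Fin.cons_injective_iff]
    refine ⟨?_, fun a b h => hg (Fin.succ_injective _ h)⟩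
    rintro ⟨a, ha⟩
    exact Fin.succ_ne_zero _ ha
  funext j
  refine Fin.cases ?_ (fun j => ?_) j
  · have h1 := hg'.extend_apply (cw i x) (cw i' y) 0
    exact h1
  · rw [cw_succ]
    by_cases h : ∃ t, g t = j
    · obtain ⟨t, rfl⟩ := h
      rw [hg.extend_apply]
      exact hg'.extend_apply (cw i x) (cw i' y) t.succ
    · rw [Function.extend_apply' _ _ _ h, Function.extend_apply']
      · rfl
      · rintro ⟨a, ha⟩
        revert ha
        refine Fin.cases ?_ (fun a => ?_) a
        · intro ha
          exact Fin.succ_ne_zero _ ha.symm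
        · intro ha
          exact h ⟨a, Fin.succ_injective _ ha⟩

theorem Ann_bound (hN : 2 ≤ Fintype.card ι) (m : ℕ) : ∀ (n : ℕ) (q : (Fin m → ι) → ℝ), q ≠ 0 →
    finrank ℝ (Ann m n q) ≤ (n + 1) ^ m * (Fintype.card ι - 1) ^ n := by
  induction m with
  | zero =>
    intro n q hq
    have h0 : Ann 0 n q = ⊥ := by
      rw [eq_bot_iff]
      intro φ hφ
      rw [Submodule.mem_bot]
      funext y
      have h1 := hφ (fun t => t.elim0) (fun a => a.elim0) y
      rw [Fintype.sum_unique] at h1
      have h2 : q default ≠ 0 := by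
        intro h3
        apply hq
        funext x
        rw [Subsingleton.elim x default, h3]
        rfl
      have h3 : Function.extend (fun t : Fin 0 => (t.elim0 : Fin n)) default y = y := by
        funext j
        rw [Function.extend_apply']
        rintro ⟨a, _⟩
        exact a.elim0
      rw [h3] at h1
      exact (mul_eq_zero.1 h1).resolve_left h2
    rw [h0, finrank_bot]
    exact Nat.zero_le _
  | succ m ihm =>
    intro n
    induction n with
    | zero =>
      intro q hq
      have h1 : finrank ℝ ((Fin 0 → ι) → ℝ) = 1 := by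
        rw [finrank_fintype_fun_eq_card]
        simp
      have h2 := Submodule.finrank_le (Ann (m + 1) 0 q)
      rw [h1] at h2
      simpa using h2
    | succ n ihn =>
      intro q hq
      obtain ⟨i0, hi0⟩ : ∃ i0, (fun x => q (cw i0 x)) ≠ 0 := by
        by_contra hcon
        push Not at hcon
        apply hq
        funext x
        have h1 := congrFun (hcon (x 0)) (fun j => x j.succ)
        have h2 : cw (x 0) (fun j => x j.succ) = x := by
          funext j
          refine Fin.cases rfl (fun j => rfl) j
        rw [h2] at h1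
        exact h1
      have hsl : ∀ φ ∈ Ann (m + 1) (n + 1) q, ∀ i, (fun y => φ (cw i y)) ∈ Ann (m + 1) n q := by
        intro φ hφ i g hg y
        have h1 := hφ (fun t => (g t).succ) (fun a b h => hg (Fin.succ_injective _ h)) (cw i y)
        rw [← h1]
        refine Finset.sum_congr rfl fun x _ => ?_
        rw [extend_cw1 g hg]
      let ρ : Ann (m + 1) (n + 1) q →ₗ[ℝ] ({i // i ≠ i0} → Ann (m + 1) n q) :=
        { toFun := fun φ i => ⟨fun y => φ.1 (cw i y), hsl φ.1 φ.2 i⟩
          map_add' := fun _ _ => rfl
          map_smul' := fun _ _ => rfl }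
      have hker : ∀ φ : LinearMap.ker ρ, (fun y => φ.1.1 (cw i0 y)) ∈
          Ann m n (fun x => q (cw i0 x)) := by
        intro φ g hg y
        have hz : ∀ i, i ≠ i0 → ∀ y, φ.1.1 (cw i y) = 0 := by
          intro i hi y
          have h1 : ρ φ.1 = 0 := φ.2
          exact congrFun (congrArg Subtype.val (congrFun h1 ⟨i, hi⟩)) y
        have h1 := φ.1.2 (Fin.cons (α := fun _ => Fin (n + 1)) 0 (fun t => (g t).succ)) (by
          rw [Fin.cons_injective_iff]
          refine ⟨?_, fun a b h => hg (Fin.succ_injective _ h)⟩
          rintro ⟨a, ha⟩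
          exact Fin.succ_ne_zero _ ha) (cw i0 y)
        rw [sum_cw, Finset.sum_eq_single i0] at h1
        · rw [← h1]
          refine Finset.sum_congr rfl fun x _ => ?_
          rw [extend_cw2 g hg]
        · intro i _ hi
          refine Finset.sum_eq_zero fun x _ => ?_
          rw [extend_cw2 g hg, hz i hi, mul_zero]
        · simp
      let κ : LinearMap.ker ρ →ₗ[ℝ] Ann m n (fun x => q (cw i0 x)) :=
        { toFun := fun φ => ⟨fun y => φ.1.1 (cw i0 y), hker φ⟩
          map_add' := fun _ _ => rfl
          map_smul' := fun _ _ => rfl }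
      have hκ : Function.Injective κ := by
        rw [injective_iff_map_eq_zero]
        intro φ hφ
        apply Subtype.ext
        apply Subtype.ext
        funext y
        have h2 : cw (y 0) (fun j => y j.succ) = y := by
          funext j
          refine Fin.cases rfl (fun j => rfl) j
        rw [← h2]
        by_cases h3 : y 0 = i0
        · rw [h3]
          exact congrFun (congrArg Subtype.val hφ) _
        · have h1 : ρ φ.1 = 0 := φ.2
          exact congrFun (congrArg Subtype.val (congrFun h1 ⟨y 0, h3⟩)) _
      have h1 := LinearMap.finrank_range_add_finrank_ker ρ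
      have h2 : finrank ℝ (LinearMap.range ρ) ≤ finrank ℝ ({i // i ≠ i0} → Ann (m + 1) n q) :=
        Submodule.finrank_le _
      rw [finrank_pi_fintype, Finset.sum_const, Finset.card_univ] at h2
      have h3 : Fintype.card {i // i ≠ i0} = Fintype.card ι - 1 := by
        rw [Fintype.card_subtype_compl, Fintype.card_subtype_eq]
      rw [h3, smul_eq_mul] at h2
      have h4 : finrank ℝ (LinearMap.ker ρ) ≤ _ :=
        (LinearMap.finrank_le_finrank_of_injective hκ).trans (ihm n _ hi0)
      have h5 := ihn q hq
      have hN1 : 1 ≤ Fintype.card ι - 1 := by omega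
      set N1 := Fintype.card ι - 1 with hN1'
      calc finrank ℝ (Ann (m + 1) (n + 1) q) ≤ N1 * finrank ℝ (Ann (m + 1) n q) +
            (n + 1) ^ m * N1 ^ n := by omega
        _ ≤ N1 * ((n + 1) ^ (m + 1) * N1 ^ n) + N1 * ((n + 1) ^ m * N1 ^ n) := by
            have h6 : (n + 1) ^ m * N1 ^ n ≤ N1 * ((n + 1) ^ m * N1 ^ n) :=
              Nat.le_mul_of_pos_left _ hN1
            have h7 := Nat.mul_le_mul_left N1 h5
            omega
        _ = ((n + 1) ^ m * (n + 2)) * N1 ^ (n + 1) := by ring
        _ ≤ (n + 1 + 1) ^ (m + 1) * N1 ^ (n + 1) := by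
            apply Nat.mul_le_mul_right
            rw [pow_succ]
            exact Nat.mul_le_mul_right _ (Nat.pow_le_pow_left (by omega) m)

end Pool.Agent.H43CC
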