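import Mathlib

set_option autoImplicit false

namespace Pool.Agent.H43CC

open Module

section
variable {A : Type} [Ring A] [Algebra ℝ A]
variable {X X' Y Y' : Type} [AddCommGroup X] [Module A X] [Module ℝ X] [IsScalarTower ℝ A X]
  [AddCommGroup X'] [Module A X'] [Module ℝ X'] [IsScalarTower ℝ A X']
  [AddCommGroup Y] [Module A Y] [Module ℝ Y] [IsScalarTower ℝ A Y]
  [AddCommGroup Y'] [Module A Y'] [Module ℝ Y'] [IsScalarTower ℝ A Y']

/-- Homs are transported along isomorphisms. -/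
noncomputable def homCongr (e : X ≃ₗ[A] X') (f : Y ≃ₗ[A] Y') :
    (X →ₗ[A] Y) ≃ₗ[ℝ] (X' →ₗ[A] Y') where
  toFun φ := f.toLinearMap ∘ₗ φ ∘ₗ e.symm.toLinearMap
  invFun φ := f.symm.toLinearMap ∘ₗ φ ∘ₗ e.toLinearMap
  map_add' φ ψ := by ext x; simp
  map_smul' r φ := by
    ext x
    simp only [LinearMap.comp_apply, LinearMap.smul_apply, RingHom.id_apply, LinearEquiv.coe_coe]
    exact f.toLinearMap.map_smul_of_tower r _
  left_inv φ := by ext x; simp
  right_inv φ := by ext x; simp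

/-- Homs out of a finite direct sum into a finite direct sum. -/
noncomputable def homPi {p q : ℕ} (S : Fin p → Type) (T : Fin q → Type)
    [∀ i, AddCommGroup (S i)] [∀ i, Module A (S i)] [∀ i, Module ℝ (S i)]
    [∀ i, IsScalarTower ℝ A (S i)]
    [∀ i, AddCommGroup (T i)] [∀ i, Module A (T i)] [∀ i, Module ℝ (T i)]
    [∀ i, IsScalarTower ℝ A (T i)] :
    ((Π₀ i, S i) →ₗ[A] (Π₀ j, T j)) ≃ₗ[ℝ] (∀ i j, S i →ₗ[A] T j) where
  toFun φ i j := (DFinsupp.lapply j) ∘ₗ φ ∘ₗ (DFinsupp.lsingle i)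
  invFun ψ := ∑ i, ∑ j, (DFinsupp.lsingle j) ∘ₗ ψ i j ∘ₗ (DFinsupp.lapply i)
  map_add' φ ψ := by ext i j x; simp
  map_smul' r φ := by ext i j x; simp
  left_inv φ := by
    ext i x j
    simp only [LinearMap.sum_apply, LinearMap.comp_apply, DFinsupp.lsingle_apply,
      DFinsupp.lapply_apply, DFinsupp.finsetSum_apply, DFinsupp.single_apply]
    rw [Finset.sum_eq_single i]
    · simp
    · intro b _ hb
      simp [Ne.symm hb]
    · simp
  right_inv ψ := by
    ext i j x
    simp only [LinearMap.sum_apply, LinearMap.comp_apply, DFinsupp.lsingle_apply,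
      DFinsupp.lapply_apply, DFinsupp.finsetSum_apply, DFinsupp.single_apply]
    rw [Finset.sum_eq_single i]
    · simp
    · intro b _ hb
      simp [Ne.symm hb]
    · simp

/-- The dimensions of the spaces of homomorphisms between simple modules form a Gram matrix. -/
theorem schur_gram {U : Type} [Fintype U] (Z : U → Type) [∀ u, AddCommGroup (Z u)]
    [∀ u, Module A (Z u)] [∀ u, Module ℝ (Z u)] [∀ u, IsScalarTower ℝ A (Z u)]
    [∀ u, IsSimpleModule A (Z u)] :
    ∃ (V : Type) (_ : NormedAddCommGroup V) (_ : InnerProductSpace ℝ V) (e : U → V),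
      ∀ u v, (finrank ℝ (Z u →ₗ[A] Z v) : ℝ) = inner ℝ (e u) (e v) := by
  classical
  let r : Setoid U :=
    { r := fun u v => Nonempty (Z u ≃ₗ[A] Z v)
      iseqv := ⟨fun u => ⟨LinearEquiv.refl _ _⟩, fun ⟨e⟩ => ⟨e.symm⟩, fun ⟨e⟩ ⟨f⟩ => ⟨e.trans f⟩⟩ }
  refine ⟨EuclideanSpace ℝ (Quotient r), inferInstance, inferInstance,
    fun u => EuclideanSpace.single (Quotient.mk r u)
      (Real.sqrt (finrank ℝ (Z u →ₗ[A] Z u) : ℝ)), fun u v => ?_⟩
  by_cases h : Nonempty (Z u ≃ₗ[A] Z v)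
  · have hq : Quotient.mk r u = Quotient.mk r v := Quotient.sound h
    obtain ⟨e⟩ := h
    have h1 : finrank ℝ (Z u →ₗ[A] Z v) = finrank ℝ (Z u →ₗ[A] Z u) :=
      (homCongr (LinearEquiv.refl A (Z u)) e.symm).finrank_eq
    have h2 : finrank ℝ (Z v →ₗ[A] Z v) = finrank ℝ (Z u →ₗ[A] Z u) :=
      (homCongr e.symm e.symm).finrank_eq
    simp only [hq, h1, h2]
    simp [EuclideanSpace.inner_single_left]
  · have hq : Quotient.mk r u ≠ Quotient.mk r v := fun h' => h (Quotient.exact h')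
    have h0 : Subsingleton (Z u →ₗ[A] Z v) := by
      refine ⟨fun φ ψ => ?_⟩
      have : ∀ χ : Z u →ₗ[A] Z v, χ = 0 := fun χ => by
        rcases χ.bijective_or_eq_zero with hb | hb
        · exact absurd ⟨LinearEquiv.ofBijective χ hb⟩ h
        · exact hb
      rw [this φ, this ψ]
    rw [finrank_zero_of_subsingleton]
    simp [EuclideanSpace.inner_single_left, hq]

theorem gram_ineq {p q : ℕ} {V : Type} [NormedAddCommGroup V] [InnerProductSpace ℝ V]
    (e : Fin p → V) (f : Fin q → V) :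
    (∑ i, ∑ j, inner ℝ (e i) (f j)) ^ 2 ≤
      (∑ i, ∑ i', inner ℝ (e i) (e i')) * (∑ j, ∑ j', inner ℝ (f j) (f j')) := by
  have h1 : ∑ i, ∑ j, inner ℝ (e i) (f j) = inner ℝ (∑ i, e i) (∑ j, f j) := by
    simp [sum_inner, inner_sum]
    rw [Finset.sum_comm]
  have h2 : ∑ i, ∑ i', inner ℝ (e i) (e i') = inner ℝ (∑ i, e i) (∑ j, e j) := by
    simp only [sum_inner, inner_sum]
    rw [Finset.sum_comm]
  have h3 : ∑ i, ∑ i', inner ℝ (f i) (f i') = inner ℝ (∑ i, f i) (∑ j, f j) := by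
    simp only [sum_inner, inner_sum]
    rw [Finset.sum_comm]
  rw [h1, h2, h3, sq]
  exact real_inner_mul_inner_self_le _ _

/-- The disjoint union of two families. -/
abbrev ZZ {p q : ℕ} (S : Fin p → Type) (T : Fin q → Type) (u : Fin p ⊕ Fin q) : Type :=
  Sum.elim S T u

instance ZZ1 {p q : ℕ} (S : Fin p → Type) (T : Fin q → Type) [hS : ∀ i, AddCommGroup (S i)]
    [hT : ∀ i, AddCommGroup (T i)] : ∀ u, AddCommGroup (ZZ S T u)
  | Sum.inl i => hS i
  | Sum.inr i => hT i

instance ZZ2 {B : Type} [Semiring B] {p q : ℕ} (S : Fin p → Type) (T : Fin q → Type)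
    [∀ i, AddCommGroup (S i)]
    [∀ i, AddCommGroup (T i)] [hS : ∀ i, Module B (S i)] [hT : ∀ i, Module B (T i)] :
    ∀ u, Module B (ZZ S T u)
  | Sum.inl i => hS i
  | Sum.inr i => hT i

instance ZZ3 {p q : ℕ} (S : Fin p → Type) (T : Fin q → Type) [∀ i, AddCommGroup (S i)]
    [∀ i, AddCommGroup (T i)] [∀ i, Module A (S i)] [∀ i, Module A (T i)]
    [∀ i, Module ℝ (S i)] [∀ i, Module ℝ (T i)]
    [hS : ∀ i, IsScalarTower ℝ A (S i)] [hT : ∀ i, IsScalarTower ℝ A (T i)] :
    ∀ u, IsScalarTower ℝ A (ZZ S T u)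
  | Sum.inl i => hS i
  | Sum.inr i => hT i

instance ZZ4 {p q : ℕ} (S : Fin p → Type) (T : Fin q → Type) [∀ i, AddCommGroup (S i)]
    [∀ i, AddCommGroup (T i)] [∀ i, Module A (S i)] [∀ i, Module A (T i)]
    [hS : ∀ i, IsSimpleModule A (S i)] [hT : ∀ i, IsSimpleModule A (T i)] :
    ∀ u, IsSimpleModule A (ZZ S T u)
  | Sum.inl i => hS i
  | Sum.inr i => hT i

/-- The basic inequality: for finite-dimensional semisimple modules,
`(dim Hom(X, Y))² ≤ dim End(X) * dim End(Y)`. -/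
theorem hom_sq_le [FiniteDimensional ℝ A] (X Y : Type) [AddCommGroup X] [Module A X] [Module ℝ X]
    [IsScalarTower ℝ A X] [Module.Finite A X] [AddCommGroup Y] [Module A Y] [Module ℝ Y]
    [IsScalarTower ℝ A Y] [Module.Finite A Y] [IsSemisimpleModule A X] [IsSemisimpleModule A Y] :
    finrank ℝ (X →ₗ[A] Y) ^ 2 ≤ finrank ℝ (X →ₗ[A] X) * finrank ℝ (Y →ₗ[A] Y) := by
  classical
  obtain ⟨p, S, eS, hS⟩ := IsSemisimpleModule.exists_linearEquiv_fin_dfinsupp A X
  obtain ⟨q, T, eT, hT⟩ := IsSemisimpleModule.exists_linearEquiv_fin_dfinsupp A Y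
  obtain ⟨V, _, _, e, he⟩ := schur_gram (A := A) (ZZ (fun i => S i) (fun j => T j))
  have fin1 : ∀ (M N : Type) [AddCommGroup M] [Module A M] [Module ℝ M] [IsScalarTower ℝ A M]
      [AddCommGroup N] [Module A N] [Module ℝ N] [IsScalarTower ℝ A N] [FiniteDimensional ℝ M]
      [FiniteDimensional ℝ N], FiniteDimensional ℝ (M →ₗ[A] N) := by
    intro M N _ _ _ _ _ _ _ _ _ _
    let ρ : (M →ₗ[A] N) →ₗ[ℝ] (M →ₗ[ℝ] N) :=
      { toFun := fun φ => φ.restrictScalars ℝ
        map_add' := fun _ _ => rfl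
        map_smul' := fun _ _ => rfl }
    exact FiniteDimensional.of_injective ρ (LinearMap.restrictScalars_injective ℝ)
  have fX : FiniteDimensional ℝ X := Module.Finite.trans A X
  have fY : FiniteDimensional ℝ Y := Module.Finite.trans A Y
  have fS : ∀ i, FiniteDimensional ℝ (S i) := fun i =>
    FiniteDimensional.finiteDimensional_submodule ((S i).restrictScalars ℝ)
  have fT : ∀ i, FiniteDimensional ℝ (T i) := fun i =>
    FiniteDimensional.finiteDimensional_submodule ((T i).restrictScalars ℝ)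
  have := fun i i' => fin1 (S i) (S i')
  have := fun i i' => fin1 (T i) (T i')
  have := fun i i' => fin1 (S i) (T i')
  have hXY : finrank ℝ (X →ₗ[A] Y) = ∑ i, ∑ j, finrank ℝ (S i →ₗ[A] T j) := by
    rw [(homCongr eS eT).finrank_eq, (homPi (fun i => S i) (fun j => T j)).finrank_eq,
      finrank_pi_fintype]
    refine Finset.sum_congr rfl fun i _ => ?_
    rw [finrank_pi_fintype]
  have hXX : finrank ℝ (X →ₗ[A] X) = ∑ i, ∑ j, finrank ℝ (S i →ₗ[A] S j) := by
    rw [(homCongr eS eS).finrank_eq, (homPi (fun i => S i) (fun j => S j)).finrank_eq,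
      finrank_pi_fintype]
    refine Finset.sum_congr rfl fun i _ => ?_
    rw [finrank_pi_fintype]
  have hYY : finrank ℝ (Y →ₗ[A] Y) = ∑ i, ∑ j, finrank ℝ (T i →ₗ[A] T j) := by
    rw [(homCongr eT eT).finrank_eq, (homPi (fun i => T i) (fun j => T j)).finrank_eq,
      finrank_pi_fintype]
    refine Finset.sum_congr rfl fun i _ => ?_
    rw [finrank_pi_fintype]
  have key := gram_ineq (fun i => e (Sum.inl i)) (fun j => e (Sum.inr j))
  have h1 : ∀ i j, (finrank ℝ (S i →ₗ[A] T j) : ℝ) = inner ℝ (e (Sum.inl i)) (e (Sum.inr j)) :=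
    fun i j => he (Sum.inl i) (Sum.inr j)
  have h2 : ∀ i j, (finrank ℝ (S i →ₗ[A] S j) : ℝ) = inner ℝ (e (Sum.inl i)) (e (Sum.inl j)) :=
    fun i j => he (Sum.inl i) (Sum.inl j)
  have h3 : ∀ i j, (finrank ℝ (T i →ₗ[A] T j) : ℝ) = inner ℝ (e (Sum.inr i)) (e (Sum.inr j)) :=
    fun i j => he (Sum.inr i) (Sum.inr j)
  simp only [← h1, ← h2, ← h3] at key
  rw [hXY, hXX, hYY]
  exact_mod_cast key

/-- `(dim X)² ≤ dim A * dim End_A(X)` for a finite module over a semisimple algebra. -/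
theorem dim_sq_le [FiniteDimensional ℝ A] [IsSemisimpleRing A] (X : Type) [AddCommGroup X]
    [Module A X] [Module ℝ X] [IsScalarTower ℝ A X] [Module.Finite A X] :
    finrank ℝ X ^ 2 ≤ finrank ℝ A * finrank ℝ (X →ₗ[A] X) := by
  have h := hom_sq_le (A := A) A X
  let e1 : (A →ₗ[A] X) ≃ₗ[ℝ] X :=
    { toFun := fun φ => φ 1
      invFun := fun x => LinearMap.toSpanSingleton A X x
      map_add' := fun _ _ => rfl
      map_smul' := fun _ _ => rfl
      left_inv := fun φ => by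
        apply LinearMap.ext_ring
        simp
      right_inv := fun x => by simp }
  let e2 : (A →ₗ[A] A) ≃ₗ[ℝ] A :=
    { toFun := fun φ => φ 1
      invFun := fun x => LinearMap.toSpanSingleton A A x
      map_add' := fun _ _ => rfl
      map_smul' := fun _ _ => rfl
      left_inv := fun φ => by
        apply LinearMap.ext_ring
        simp
      right_inv := fun x => by simp }
  rwa [e1.finrank_eq, e2.finrank_eq] at h

end

end Pool.Agent.H43CC
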