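import Mathlib
import Pool.Agent.H43CC.Arr
import Pool.Agent.H43CC.HomSq

set_option autoImplicit false

namespace Pool.Agent.H43CC

open Module

/-- A real matrix algebra which is closed under transposition is semisimple. -/
theorem star_semisimple {J : Type} [Fintype J] [DecidableEq J]
    (S : Subalgebra ℝ (Matrix J J ℝ)) (hS : ∀ x ∈ S, Matrix.transpose x ∈ S) :
    IsSemisimpleRing S := by
  classical
  let B : LinearMap.BilinForm ℝ (Matrix J J ℝ) :=
    LinearMap.mk₂ ℝ (fun x y => Matrix.trace (Matrix.transpose x * y))
      (fun x x' y => by simp [add_mul]) (fun r x y => by simp)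
      (fun x y y' => by simp [mul_add]) (fun r x y => by simp)
  have hB : ∀ x y, B x y = Matrix.trace (Matrix.transpose x * y) := fun _ _ => rfl
  have hsymm : ∀ x y, B x y = B y x := by
    intro x y
    rw [hB, hB, ← Matrix.trace_transpose, Matrix.transpose_mul, Matrix.transpose_transpose]
  have hrefl : B.IsRefl := by
    intro x y h
    rw [hsymm]; exact h
  have hpos : ∀ x, B x x = 0 → x = 0 := by
    intro x hx
    rw [hB] at hx
    have h1 : Matrix.transpose x = Matrix.conjTranspose x := by
      ext i j; simp
    rw [h1] at hx
    exact Matrix.trace_conjTranspose_mul_self_eq_zero_iff.1 hx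
  have main : IsSemisimpleModule S (Matrix J J ℝ) := by
    refine { exists_isCompl := fun p => ?_ }
    let p0 : Submodule ℝ (Matrix J J ℝ) := p.restrictScalars ℝ
    let p' : Submodule S (Matrix J J ℝ) :=
      { carrier := {x | ∀ y ∈ p, B y x = 0}
        add_mem' := fun {a b} ha hb y hy => by rw [map_add, ha y hy, hb y hy, add_zero]
        zero_mem' := fun y hy => by rw [map_zero]
        smul_mem' := fun s x hx y hy => by
          have h1 : (⟨Matrix.transpose (s : Matrix J J ℝ), hS _ s.2⟩ : S) • y ∈ p :=
            p.smul_mem _ hy
          have h2 := hx _ h1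
          rw [hB] at h2 ⊢
          have h3 : (⟨Matrix.transpose (s : Matrix J J ℝ), hS _ s.2⟩ : S) • y =
              Matrix.transpose (s : Matrix J J ℝ) * y := rfl
          have h4 : s • x = (s : Matrix J J ℝ) * x := rfl
          rw [h3, Matrix.transpose_mul, Matrix.transpose_transpose, mul_assoc] at h2
          rw [h4]
          exact h2 }
    have hdisj : Disjoint p0 (B.orthogonal p0) := by
      rw [Submodule.disjoint_def]
      intro x hx hx'
      exact hpos x (hx' x hx)
    have hcompl : IsCompl p0 (B.orthogonal p0) := by
      refine (LinearMap.BilinForm.isCompl_orthogonal_iff_disjoint hrefl).2 hdisj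
    refine ⟨p', ?_⟩
    constructor
    · rw [Submodule.disjoint_def]
      intro x hx hx'
      exact hpos x (hx' x hx)
    · rw [Submodule.codisjoint_iff_exists_add_eq]
      intro z
      obtain ⟨a, b, ha, hb, hab⟩ := (Submodule.codisjoint_iff_exists_add_eq.1 hcompl.2) z
      exact ⟨a, b, ha, fun y hy => hb y hy, hab⟩
  let incl : S →ₗ[S] Matrix J J ℝ :=
    { toFun := fun s => (s : Matrix J J ℝ)
      map_add' := fun _ _ => rfl
      map_smul' := fun _ _ => rfl }
  exact IsSemisimpleModule.of_injective incl Subtype.val_injective

end Pool.Agent.H43CC
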