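import Mathlib
import Pool.Agent.H43CC.Star

set_option autoImplicit false

namespace Pool.Agent.H43CC

open Module

variable {K A B A1 A2 B1 B2 : Type}

theorem Cc_comp [Fintype K] (Q : Type) [Fintype Q] [DecidableEq Q] (eA : Q ⊕ A ≃ A1 ⊕ A2)
    (eB : Q ⊕ B ≃ B1 ⊕ B2) {h : (A1 → K) → (B1 → K) → ℝ} (hh : h ∈ Cc K A1 B1)
    {h' : (A2 → K) → (B2 → K) → ℝ} (hh' : h' ∈ Cc K A2 B2) :
    (fun i j => ∑ s : Q → K,
      h (fun a => Sum.elim s i (eA.symm (Sum.inl a))) (fun b => Sum.elim s j (eB.symm (Sum.inl b))) *
      h' (fun a => Sum.elim s i (eA.symm (Sum.inr a)))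
        (fun b => Sum.elim s j (eB.symm (Sum.inr b)))) ∈ Cc K A B :=
  Cc_contr Q inferInstance inferInstance A B _ (Cc_re eA eB (Cc_prod hh hh'))

/-- The dimension of the span of the arrays of the permutations of `P`. -/
noncomputable def T (K P : Type) : ℕ := finrank ℝ (Cc K P P)

theorem finrank_comap_equiv {V W : Type} [AddCommGroup V] [Module ℝ V] [AddCommGroup W]
    [Module ℝ W] (e : V ≃ₗ[ℝ] W) (S : Submodule ℝ W) :
    finrank ℝ (S.comap e.toLinearMap) = finrank ℝ S := by
  rw [← LinearEquiv.finrank_map_eq e (S.comap e.toLinearMap)]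
  have h : (S.comap e.toLinearMap).map (e : V →ₗ[ℝ] W) = S :=
    Submodule.map_comap_eq_of_surjective e.surjective S
  rw [h]

theorem T_congr {P P' : Type} (e : P ≃ P') : T K P = T K P' := by
  let E : ((P → K) → (P → K) → ℝ) ≃ₗ[ℝ] ((P' → K) → (P' → K) → ℝ) :=
    { toFun := fun h i j => h (i ∘ e) (j ∘ e)
      invFun := fun h i j => h (i ∘ e.symm) (j ∘ e.symm)
      map_add' := fun _ _ => rfl
      map_smul' := fun _ _ => rfl
      left_inv := fun h => by
        funext i j
        show h ((i ∘ e.symm) ∘ e) ((j ∘ e.symm) ∘ e) = h i j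
        simp [Function.comp_assoc]
      right_inv := fun h => by
        funext i j
        show h ((i ∘ e) ∘ e.symm) ((j ∘ e) ∘ e.symm) = h i j
        simp [Function.comp_assoc] }
  have h1 : (Cc K P P).map E.toLinearMap = Cc K P' P' := by
    apply le_antisymm
    · rintro _ ⟨h, hh, rfl⟩
      exact Cc_re e.symm e.symm hh
    · intro h hh
      refine ⟨E.symm h, Cc_re e e hh, ?_⟩
      exact E.apply_symm_apply h
  rw [T, T, ← h1]
  exact (LinearEquiv.finrank_map_eq E (Cc K P P)).symm

section
variable [Fintype K] [DecidableEq K]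

/-- Arrays of the matrices on `V^(P+1) ⊗ V*`. -/
def phiB (K P : Type) : Matrix ((Option P → K) × K) ((Option P → K) × K) ℝ ≃ₗ[ℝ]
    ((Option (Option P) → K) → (Option (Option P) → K) → ℝ) where
  toFun M a b := M (a ∘ some, b none) (b ∘ some, a none)
  invFun h y z := h (oc z.2 y.1) (oc y.2 z.1)
  map_add' _ _ := rfl
  map_smul' _ _ := rfl
  left_inv M := by
    funext y z
    rfl
  right_inv h := by
    funext a b
    show h (oc (a none) (a ∘ some)) (oc (b none) (b ∘ some)) = h a b
    congr 1
    · funext o; cases o <;> rfl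
    · funext o; cases o <;> rfl

/-- Arrays of the matrices from `V^P` to `V^(P+1) ⊗ V*`. -/
def phiX (K P : Type) : (((Option P → K) × K) → (P → K) → ℝ) ≃ₗ[ℝ]
    ((Option P → K) → (Option P → K) → ℝ) where
  toFun x a b := x (a, b none) (b ∘ some)
  invFun h y z := h y.1 (oc y.2 z)
  map_add' _ _ := rfl
  map_smul' _ _ := rfl
  left_inv M := by
    funext y z
    rfl
  right_inv h := by
    funext a b
    show h a (oc (b none) (b ∘ some)) = h a b
    congr 1
    funext o; cases o <;> rfl

variable {P : Type} [Fintype P] [DecidableEq P]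

/-- Sums over functions on an option type. -/
theorem sum_option_fun {M : Type} [AddCommMonoid M] (f : (Option P → K) → M) :
    ∑ s : Option P → K, f s = ∑ w : K, ∑ q : P → K, f (oc w q) := by
  rw [← Fintype.sum_prod_type']
  refine Fintype.sum_equiv (Equiv.piOptionEquivProd (β := fun _ => K)) _ _ fun s => ?_
  congr 1
  funext o
  cases o <;> rfl

theorem phiB_mul {M M' : Matrix ((Option P → K) × K) ((Option P → K) × K) ℝ}
    (hM : phiB K P M ∈ Cc K (Option (Option P)) (Option (Option P)))
    (hM' : phiB K P M' ∈ Cc K (Option (Option P)) (Option (Option P))) :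
    phiB K P (M * M') ∈ Cc K (Option (Option P)) (Option (Option P)) := by
  let eA : Option (Option P) ⊕ Option (Option P) ≃ Option (Option P) ⊕ Option (Option P) :=
    { toFun := Sum.elim (fun o => o.elim (Sum.inl none) (fun x => Sum.inr (some x)))
        (fun o => o.elim (Sum.inr none) (fun x => Sum.inl (some x)))
      invFun := Sum.elim (fun o => o.elim (Sum.inl none) (fun x => Sum.inr (some x)))
        (fun o => o.elim (Sum.inr none) (fun x => Sum.inl (some x)))
      left_inv := by rintro ((_ | _) | (_ | _)) <;> rfl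
      right_inv := by rintro ((_ | _) | (_ | _)) <;> rfl }
  let eB : Option (Option P) ⊕ Option (Option P) ≃ Option (Option P) ⊕ Option (Option P) :=
    { toFun := Sum.elim (fun o => o.elim (Sum.inr none) (fun x => Sum.inl (some x)))
        (fun o => o.elim (Sum.inl none) (fun x => Sum.inr (some x)))
      invFun := Sum.elim (fun o => o.elim (Sum.inr none) (fun x => Sum.inl (some x)))
        (fun o => o.elim (Sum.inl none) (fun x => Sum.inr (some x)))
      left_inv := by rintro ((_ | _) | (_ | _)) <;> rfl
      right_inv := by rintro ((_ | _) | (_ | _)) <;> rfl }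
  have h1 := Cc_comp (Option (Option P)) eA eB hM hM'
  convert h1 using 1
  funext a b
  rw [sum_option_fun]
  show ∑ y : (Option P → K) × K, M (a ∘ some, b none) y * M' y (b ∘ some, a none) = _
  rw [Fintype.sum_prod_type_right]
  rfl

theorem phiX_mul {M : Matrix ((Option P → K) × K) ((Option P → K) × K) ℝ}
    {x : ((Option P → K) × K) → (P → K) → ℝ}
    (hM : phiB K P M ∈ Cc K (Option (Option P)) (Option (Option P)))
    (hx : phiX K P x ∈ Cc K (Option P) (Option P)) :
    phiX K P (fun y q => ∑ z, M y z * x z q) ∈ Cc K (Option P) (Option P) := by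
  let eA : Option (Option P) ⊕ Option P ≃ Option (Option P) ⊕ Option P :=
    { toFun := Sum.elim (fun o => o.elim (Sum.inl none) (fun x => Sum.inr x))
        (fun x => Sum.inl (some x))
      invFun := Sum.elim (fun o => o.elim (Sum.inl none) (fun x => Sum.inr x))
        (fun x => Sum.inl (some x))
      left_inv := by rintro ((_ | _) | _) <;> rfl
      right_inv := by rintro ((_ | _) | _) <;> rfl }
  let eB : Option (Option P) ⊕ Option P ≃ Option (Option P) ⊕ Option P :=
    { toFun := Sum.elim (fun o => o.elim (Sum.inr none) (fun x => Sum.inl (some x)))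
        (fun o => o.elim (Sum.inl none) (fun x => Sum.inr (some x)))
      invFun := Sum.elim (fun o => o.elim (Sum.inr none) (fun x => Sum.inl (some x)))
        (fun o => o.elim (Sum.inl none) (fun x => Sum.inr (some x)))
      left_inv := by rintro ((_ | _) | (_ | _)) <;> rfl
      right_inv := by rintro ((_ | _) | (_ | _)) <;> rfl }
  have h1 := Cc_comp (Option (Option P)) eA eB hM hx
  convert h1 using 1
  funext a b
  rw [sum_option_fun]
  show ∑ y : (Option P → K) × K, M (a, b none) y * x y (b ∘ some) = _
  rw [Fintype.sum_prod_type_right]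
  rfl

theorem phiC_mul {x y : ((Option P → K) × K) → (P → K) → ℝ}
    (hx : phiX K P x ∈ Cc K (Option P) (Option P))
    (hy : phiX K P y ∈ Cc K (Option P) (Option P)) :
    (fun q' q => ∑ z, x z q' * y z q) ∈ Cc K P P := by
  let eA : Option (Option P) ⊕ P ≃ Option P ⊕ Option P :=
    { toFun := Sum.elim (fun o => o.elim (Sum.inl none) (fun x => Sum.inr x))
        (fun x => Sum.inl (some x))
      invFun := Sum.elim (fun o => o.elim (Sum.inl none) (fun x => Sum.inr x))
        (fun x => Sum.inl (some x))
      left_inv := by rintro ((_ | _) | _) <;> rfl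
      right_inv := by rintro ((_ | _) | _) <;> rfl }
  let eB : Option (Option P) ⊕ P ≃ Option P ⊕ Option P :=
    { toFun := Sum.elim (fun o => o.elim (Sum.inr none) (fun x => Sum.inl x))
        (fun x => Sum.inr (some x))
      invFun := Sum.elim (fun o => Sum.inl (some o))
        (fun o => o.elim (Sum.inl none) (fun x => Sum.inr x))
      left_inv := by rintro ((_ | _) | _) <;> rfl
      right_inv := by rintro (_ | (_ | _)) <;> rfl }
  have h1 := Cc_comp (Option (Option P)) eA eB (Cc_swap hx) hy
  convert h1 using 1
  funext a b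
  rw [sum_option_fun]
  show ∑ z : (Option P → K) × K, x z a * y z b = _
  rw [Fintype.sum_prod_type_right]
  rfl

theorem phiB_mulT {x y : ((Option P → K) × K) → (P → K) → ℝ}
    (hx : phiX K P x ∈ Cc K (Option P) (Option P))
    (hy : phiX K P y ∈ Cc K (Option P) (Option P)) :
    phiB K P (fun z z' => ∑ q, x z q * y z' q) ∈ Cc K (Option (Option P)) (Option (Option P)) := by
  let eA : P ⊕ Option (Option P) ≃ Option P ⊕ Option P :=
    { toFun := Sum.elim (fun x => Sum.inr (some x))
        (fun o => o.elim (Sum.inr none) (fun x => Sum.inl x))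
      invFun := Sum.elim (fun o => Sum.inr (some o))
        (fun o => o.elim (Sum.inr none) (fun x => Sum.inl x))
      left_inv := by rintro (_ | (_ | _)) <;> rfl
      right_inv := by rintro (_ | (_ | _)) <;> rfl }
  let eB : P ⊕ Option (Option P) ≃ Option P ⊕ Option P :=
    { toFun := Sum.elim (fun x => Sum.inl (some x))
        (fun o => o.elim (Sum.inl none) (fun x => Sum.inr x))
      invFun := Sum.elim (fun o => o.elim (Sum.inr none) (fun x => Sum.inl x))
        (fun o => Sum.inr (some o))
      left_inv := by rintro (_ | (_ | _)) <;> rfl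
      right_inv := by rintro ((_ | _) | _) <;> rfl }
  have h1 := Cc_comp P eA eB hx (Cc_swap hy)
  convert h1 using 1
  rfl

/-- The algebra of `G`-endomorphisms of `V^(P+1) ⊗ V*`. -/
def algB (K P : Type) [Fintype K] [DecidableEq K] [Fintype P] [DecidableEq P] :
    Subalgebra ℝ (Matrix ((Option P → K) × K) ((Option P → K) × K) ℝ) where
  carrier := {M | phiB K P M ∈ Cc K (Option (Option P)) (Option (Option P))}
  mul_mem' {M M'} hM hM' := phiB_mul hM hM'
  add_mem' {M M'} hM hM' := by
    rw [Set.mem_ofPred_eq] at hM hM' ⊢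
    rw [map_add]
    exact Submodule.add_mem _ hM hM'
  algebraMap_mem' r := by
    rw [Set.mem_ofPred_eq, Algebra.algebraMap_eq_smul_one, map_smul]
    refine Submodule.smul_mem _ _ ?_
    have h : phiB K P 1 = dl (K := K) (Equiv.refl (Option (Option P))) := by
      funext a b
      show (1 : Matrix _ _ ℝ) (a ∘ some, b none) (b ∘ some, a none) = _
      rw [Matrix.one_apply, dl]
      by_cases hab : a = b
      · rw [if_pos (by rw [hab]), if_pos (by rw [hab]; rfl)]
      · rw [if_neg, if_neg]
        · intro h; exact hab h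
        · intro h
          apply hab
          rw [Prod.mk.injEq] at h
          funext o
          rcases o with _ | o
          · exact h.2.symm
          · exact congrFun h.1 o
    rw [h]
    exact dl_mem _

theorem algB_star (M : Matrix ((Option P → K) × K) ((Option P → K) × K) ℝ) (hM : M ∈ algB K P) :
    Matrix.transpose M ∈ algB K P := by
  exact Cc_swap hM

open scoped Matrix.Module in
/-- The space of `G`-homomorphisms from `V^P` to `V^(P+1) ⊗ V*`. -/
def modX (K P : Type) [Fintype K] [DecidableEq K] [Fintype P] [DecidableEq P] :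
    Submodule (algB K P) (((Option P → K) × K) → (P → K) → ℝ) where
  carrier := {x | phiX K P x ∈ Cc K (Option P) (Option P)}
  add_mem' {x y} hx hy := by
    rw [Set.mem_ofPred_eq] at hx hy ⊢
    rw [map_add]
    exact Submodule.add_mem _ hx hy
  zero_mem' := by
    rw [Set.mem_ofPred_eq, map_zero]
    exact Submodule.zero_mem _
  smul_mem' M x hx := by
    have h := phiX_mul (x := x) M.2 hx
    rw [Set.mem_ofPred_eq]
    convert h using 2
    funext y q
    show (∑ z, (M : Matrix _ _ ℝ) y z • x z) q = _
    rw [Finset.sum_apply]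
    rfl

/-- The distinguished homomorphism. -/
def io (K P : Type) [DecidableEq K] [Fintype P] [DecidableEq P] : ((Option P → K) × K) → (P → K) → ℝ :=
  fun y q => if y.1 ∘ some = q ∧ y.1 none = y.2 then 1 else 0

omit [Fintype K] in
theorem io_mem : phiX K P (io K P) ∈ Cc K (Option P) (Option P) := by
  have h : phiX K P (io K P) = dl (K := K) (Equiv.refl (Option P)) := by
    funext a b
    show (if a ∘ some = b ∘ some ∧ a none = b none then (1 : ℝ) else 0) = _
    rw [dl]
    by_cases hab : a = b
    · rw [if_pos (by rw [hab]; exact ⟨rfl, rfl⟩), if_pos (by rw [hab]; rfl)]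
    · rw [if_neg, if_neg]
      · intro h; exact hab h
      · intro h
        apply hab
        funext o
        rcases o with _ | o
        · exact h.2
        · exact congrFun h.1 o
  rw [h]
  exact dl_mem _

theorem io_io (q q' : P → K) :
    ∑ z, io K P z q * io K P z q' = if q = q' then (Fintype.card K : ℝ) else 0 := by
  rw [Fintype.sum_prod_type, sum_option_fun]
  simp only [io]
  have h1 : ∀ (w v : K) (p : P → K), (oc w p) ∘ some = p := fun w v p => rfl
  have h2 : ∀ (w : K) (p : P → K), ∑ v : K,
      ((if (oc w p) ∘ some = q ∧ (oc w p) none = v then (1 : ℝ) else 0) *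
        (if (oc w p) ∘ some = q' ∧ (oc w p) none = v then (1 : ℝ) else 0)) =
      if p = q ∧ p = q' then 1 else 0 := by
    intro w p
    rw [Finset.sum_eq_single w]
    · show (if p = q ∧ w = w then (1 : ℝ) else 0) * (if p = q' ∧ w = w then (1 : ℝ) else 0) = _
      by_cases h3 : p = q <;> by_cases h4 : p = q' <;> simp [h3, h4]
    · intro v _ hv
      have hv' : ¬ (w = v) := fun h => hv h.symm
      simp [hv']
    · simp
  simp only [h2]
  rw [Finset.sum_const, Finset.card_univ, nsmul_eq_mul]
  by_cases h : q = q'
  · subst h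
    simp
  · rw [if_neg h, Finset.sum_eq_zero, mul_zero]
    intro p _
    rw [if_neg]
    rintro ⟨rfl, h'⟩
    exact h h'

open scoped Matrix.Module in
theorem logconv (K P : Type) [Fintype K] [DecidableEq K] [Nonempty K] [Fintype P] [DecidableEq P] :
    T K (Option P) ^ 2 ≤ T K (Option (Option P)) * T K P := by
  have : IsSemisimpleRing (algB K P) := star_semisimple _ algB_star
  have : FiniteDimensional ℝ (modX K P) :=
    FiniteDimensional.finiteDimensional_submodule ((modX K P).restrictScalars ℝ)
  have : Module.Finite (algB K P) (modX K P) :=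
    Module.Finite.of_restrictScalars_finite ℝ (algB K P) (modX K P)
  have h := dim_sq_le (A := algB K P) (modX K P)
  have h1 : finrank ℝ (modX K P) = T K (Option P) := by
    have e : ((modX K P).restrictScalars ℝ) =
        (Cc K (Option P) (Option P)).comap (phiX K P).toLinearMap := rfl
    have h2 : finrank ℝ ((modX K P).restrictScalars ℝ) = T K (Option P) := by
      rw [e, T, finrank_comap_equiv]
    exact h2
  have h2 : finrank ℝ (algB K P) = T K (Option (Option P)) := by
    have e : Subalgebra.toSubmodule (algB K P) =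
        (Cc K (Option (Option P)) (Option (Option P))).comap (phiB K P).toLinearMap := rfl
    have h2 : finrank ℝ (Subalgebra.toSubmodule (algB K P)) = T K (Option (Option P)) := by
      rw [e, T, finrank_comap_equiv]
    exact h2
  let ιX : modX K P := ⟨io K P, io_mem⟩
  let Ψ : (modX K P →ₗ[algB K P] modX K P) →ₗ[ℝ] Cc K P P :=
    { toFun := fun φ => ⟨fun q' q => ∑ z, io K P z q' * (φ ιX).1 z q, phiC_mul io_mem (φ ιX).2⟩
      map_add' := fun φ ψ => by
        apply Subtype.ext
        funext q' q
        simp [mul_add, Finset.sum_add_distrib]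
      map_smul' := fun r φ => by
        apply Subtype.ext
        funext q' q
        simp [Finset.mul_sum]
        refine Finset.sum_congr rfl fun z _ => ?_
        ring }
  have key : ∀ (φ : modX K P →ₗ[algB K P] modX K P) (x : modX K P) (y : (Option P → K) × K)
      (q : P → K), (Fintype.card K : ℝ) * (φ x).1 y q =
        ∑ q', x.1 y q' * ∑ z, io K P z q' * (φ ιX).1 z q := by
    intro φ x y q
    let M : algB K P := ⟨fun z z' => ∑ q, x.1 z q * io K P z' q, phiB_mulT x.2 io_mem⟩
    have hM : M • ιX = (Fintype.card K : ℝ) • x := by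
      apply Subtype.ext
      funext y q
      show (∑ z, (∑ q, x.1 y q * io K P z q) • io K P z) q = (Fintype.card K : ℝ) * x.1 y q
      rw [Finset.sum_apply]
      simp only [Pi.smul_apply, smul_eq_mul, Finset.sum_mul]
      rw [Finset.sum_comm]
      have h3 : ∀ q', ∑ z, x.1 y q' * io K P z q' * io K P z q =
          x.1 y q' * (if q' = q then (Fintype.card K : ℝ) else 0) := by
        intro q'
        rw [← io_io, Finset.mul_sum]
        refine Finset.sum_congr rfl fun z _ => ?_
        ring
      simp only [h3]
      rw [Finset.sum_eq_single q]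
      · rw [if_pos rfl]; ring
      · intro q' _ hq'
        rw [if_neg hq', mul_zero]
      · simp
    have h5 : φ ((Fintype.card K : ℝ) • x) = (Fintype.card K : ℝ) • φ x :=
      φ.map_smul_of_tower _ _
    rw [← hM, map_smul] at h5
    have h6 : (M • φ ιX).1 y q = (Fintype.card K : ℝ) * (φ x).1 y q := by
      rw [h5]; rfl
    rw [← h6]
    show (∑ z, (∑ q, x.1 y q * io K P z q) • (φ ιX).1 z) q = _
    rw [Finset.sum_apply]
    simp only [Pi.smul_apply, smul_eq_mul, Finset.sum_mul]
    rw [Finset.sum_comm]
    refine Finset.sum_congr rfl fun q' _ => ?_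
    rw [Finset.mul_sum]
    refine Finset.sum_congr rfl fun z _ => ?_
    ring
  have hc : (Fintype.card K : ℝ) ≠ 0 := by
    exact_mod_cast Fintype.card_ne_zero
  have hΨ : Function.Injective Ψ := by
    intro φ ψ hφ
    have hφ' : ∀ q' q, ∑ z, io K P z q' * (φ ιX).1 z q = ∑ z, io K P z q' * (ψ ιX).1 z q :=
      fun q' q => congrFun (congrFun (congrArg Subtype.val hφ) q') q
    apply LinearMap.ext
    intro x
    apply Subtype.ext
    funext y q
    apply mul_left_cancel₀ hc
    rw [key φ x y q, key ψ x y q]
    refine Finset.sum_congr rfl fun q' _ => ?_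
    rw [hφ']
  have h3 : finrank ℝ (modX K P →ₗ[algB K P] modX K P) ≤ T K P :=
    LinearMap.finrank_le_finrank_of_injective hΨ
  rw [h1, h2] at h
  exact h.trans (Nat.mul_le_mul_left _ h3)

end

end Pool.Agent.H43CC
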