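import Mathlib
import Pool.Agent.H43CC.LogConv

set_option autoImplicit false

namespace Pool.Agent.H43CC

open Module

/-- Two words with the same content differ by a permutation of the positions. -/
theorem exists_perm_of_content {P L : Type} [Fintype P] [DecidableEq L] (w w' : P → L)
    (h : ∀ l, (Finset.univ.filter (fun x => w x = l)).card =
      (Finset.univ.filter (fun x => w' x = l)).card) :
    ∃ σ : Equiv.Perm P, w' = w ∘ σ := by
  classical
  have e : ∀ l, Nonempty ({x // w' x = l} ≃ {x // w x = l}) := by
    intro l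
    refine ⟨Fintype.equivOfCardEq ?_⟩
    rw [Fintype.card_subtype, Fintype.card_subtype, h l]
  let e' : ∀ l, {x // w' x = l} ≃ {x // w x = l} := fun l => (e l).some
  refine ⟨(Equiv.sigmaFiberEquiv w').symm.trans
    ((Equiv.sigmaCongrRight e').trans (Equiv.sigmaFiberEquiv w)), ?_⟩
  funext x
  exact ((e' (w' x)) ⟨x, rfl⟩).2.symm

variable {K : Type} [Fintype K] [DecidableEq K]

/-- The span of the permutation matrices. -/
def algA (K P : Type) [Fintype K] [DecidableEq K] [Fintype P] [DecidableEq P] :
    Subalgebra ℝ (Matrix (P → K) (P → K) ℝ) where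
  carrier := {M | (M : (P → K) → (P → K) → ℝ) ∈ Cc K P P}
  mul_mem' {M M'} hM hM' := by
    have h1 := Cc_comp P (Equiv.sumComm P P) (Equiv.refl (P ⊕ P)) hM hM'
    exact h1
  add_mem' {M M'} hM hM' := Submodule.add_mem (Cc K P P) hM hM'
  algebraMap_mem' r := by
    rw [Set.mem_ofPred_eq, Algebra.algebraMap_eq_smul_one]
    refine Submodule.smul_mem (Cc K P P) r ?_
    have h : (1 : Matrix (P → K) (P → K) ℝ) = dl (K := K) (Equiv.refl P) := by
      funext a b
      rw [Matrix.one_apply, dl]
      by_cases hab : a = b
      · rw [if_pos hab, if_pos]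
        rw [hab]; rfl
      · rw [if_neg hab, if_neg]
        intro h; exact hab h
    rw [h]
    exact dl_mem _

theorem growth (K P : Type) [Fintype K] [DecidableEq K] [Nonempty K] [Fintype P]
    [DecidableEq P] :
    (Fintype.card K ^ Fintype.card P) ^ 2 ≤
      T K P * (Fintype.card P + 1) ^ (Fintype.card K * Fintype.card K) := by
  classical
  have : IsSemisimpleRing (algA K P) := star_semisimple _ (fun x hx => Cc_swap hx)
  have : Module.Finite (algA K P) ((P → K) → ℝ) :=
    Module.Finite.of_restrictScalars_finite ℝ (algA K P) ((P → K) → ℝ)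
  have h := dim_sq_le (A := algA K P) ((P → K) → ℝ)
  have h1 : finrank ℝ ((P → K) → ℝ) = Fintype.card K ^ Fintype.card P := by
    rw [finrank_fintype_fun_eq_card, Fintype.card_fun]
  have h2 : finrank ℝ (algA K P) = T K P := rfl
  have h3 : finrank ℝ (((P → K) → ℝ) →ₗ[algA K P] ((P → K) → ℝ)) ≤
      (Fintype.card P + 1) ^ (Fintype.card K * Fintype.card K) := by
    let ct : (P → K) × (P → K) → (K × K → Fin (Fintype.card P + 1)) := fun ij ab =>
      ⟨(Finset.univ.filter (fun x => (ij.1 x, ij.2 x) = ab)).card,
        Nat.lt_succ_of_le (Finset.card_le_univ _)⟩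
    let ch : (K × K → Fin (Fintype.card P + 1)) → (P → K) × (P → K) := Function.invFun ct
    let Φ : (((P → K) → ℝ) →ₗ[algA K P] ((P → K) → ℝ)) →ₗ[ℝ]
        ((K × K → Fin (Fintype.card P + 1)) → ℝ) :=
      { toFun := fun φ c => φ (Pi.single (ch c).2 1) (ch c).1
        map_add' := fun φ ψ => by
          funext c
          simp
        map_smul' := fun r φ => by
          funext c
          simp }
    have inv : ∀ (φ : ((P → K) → ℝ) →ₗ[algA K P] ((P → K) → ℝ)) (σ : Equiv.Perm P) (i j : P → K),
        φ (Pi.single (j ∘ σ) 1) (i ∘ σ) = φ (Pi.single j 1) i := by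
      intro φ σ i j
      let M : algA K P := ⟨(dl (K := K) σ : (P → K) → (P → K) → ℝ), dl_mem σ⟩
      have hact : ∀ (v : (P → K) → ℝ) (l : P → K), (M • v) (l ∘ σ) = v l := by
        intro v l
        show Matrix.mulVec (dl (K := K) σ : (P → K) → (P → K) → ℝ) v (l ∘ σ) = v l
        rw [Matrix.mulVec, dotProduct, Finset.sum_eq_single l]
        · rw [dl, if_pos rfl, one_mul]
        · intro l' _ hl'
          rw [dl, if_neg, zero_mul]
          intro h4
          apply hl'
          funext x
          have := congrFun h4 (σ.symm x)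
          simpa using this.symm
        · simp
      have h5 : M • (Pi.single j (1 : ℝ) : (P → K) → ℝ) = Pi.single (j ∘ σ) 1 := by
        funext l
        obtain ⟨l', rfl⟩ : ∃ l', l = l' ∘ σ := ⟨l ∘ σ.symm, by funext x; simp⟩
        rw [hact]
        by_cases hl : l' = j
        · subst hl; simp
        · rw [Pi.single_eq_of_ne hl, Pi.single_eq_of_ne]
          intro h6
          apply hl
          funext x
          have := congrFun h6 (σ.symm x)
          simpa using this
      rw [← h5, map_smul, hact]
    have hΦ : Function.Injective Φ := by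
      intro φ ψ hφ
      have key : ∀ i j, φ (Pi.single j 1) i = ψ (Pi.single j 1) i := by
        intro i j
        have h7 : ct (ch (ct (i, j))) = ct (i, j) := Function.invFun_eq ⟨(i, j), rfl⟩
        obtain ⟨i', j', hij⟩ : ∃ i' j', ch (ct (i, j)) = (i', j') := ⟨_, _, rfl⟩
        have h6 : φ (Pi.single j' 1) i' = ψ (Pi.single j' 1) i' := by
          have e1 : Φ φ (ct (i, j)) = φ (Pi.single (ch (ct (i, j))).2 1) (ch (ct (i, j))).1 := rfl
          have e2 : Φ ψ (ct (i, j)) = ψ (Pi.single (ch (ct (i, j))).2 1) (ch (ct (i, j))).1 := rfl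
          rw [hij] at e1 e2
          rw [← e1, ← e2, hφ]
        rw [hij] at h7
        obtain ⟨σ, hσ⟩ := exists_perm_of_content (fun x => (i' x, j' x))
          (fun x => (i x, j x)) (fun ab => by
            have := congrArg Fin.val (congrFun h7 ab)
            exact this)
        have hi : i = i' ∘ σ := by
          funext x
          exact congrArg Prod.fst (congrFun hσ x)
        have hj : j = j' ∘ σ := by
          funext x
          exact congrArg Prod.snd (congrFun hσ x)
        rw [hi, hj, inv, inv, h6]
      have hb : ∀ (φ : ((P → K) → ℝ) →ₗ[algA K P] ((P → K) → ℝ)) (v : (P → K) → ℝ),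
          φ v = ∑ j, v j • φ (Pi.single j 1) := by
        intro φ v
        have h8 : v = ∑ j, v j • (Pi.single j (1 : ℝ) : (P → K) → ℝ) := by
          funext l
          simp [Finset.sum_apply, Pi.single_apply]
        conv_lhs => rw [h8]
        rw [map_sum]
        refine Finset.sum_congr rfl fun j _ => ?_
        exact φ.map_smul_of_tower _ _
      apply LinearMap.ext
      intro v
      rw [hb φ v, hb ψ v]
      refine Finset.sum_congr rfl fun j _ => ?_
      congr 1
      funext i
      exact key i j
    have h4 := LinearMap.finrank_le_finrank_of_injective hΦ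
    refine h4.trans (le_of_eq ?_)
    rw [finrank_fintype_fun_eq_card, Fintype.card_fun, Fintype.card_fin, Fintype.card_prod]
  rw [h1, h2] at h
  exact h.trans (Nat.mul_le_mul_left _ h3)

end Pool.Agent.H43CC
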