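import Mathlib

set_option autoImplicit false

namespace Pool.Agent.H43CC

open Module

/-- Matrices. -/
abbrev MK (K : Type) : Type := Matrix K K ℝ

/-- The monomial function of a word. -/
def Wd {K α : Type} [Fintype K] [DecidableEq K] (l : List α) (x : α → MK K) : MK K :=
  (l.map x).prod

/-- The list contains every letter exactly once. -/
def Enum {α : Type} (l : List α) : Prop := l.Nodup ∧ ∀ a, a ∈ l

/-- The multilinear polynomial functions. -/
def R (K α : Type) [Fintype K] [DecidableEq K] : Submodule ℝ ((α → MK K) → MK K) :=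
  Submodule.span ℝ {f | ∃ l : List α, Enum l ∧ f = Wd l}

variable {K : Type} [Fintype K] [DecidableEq K] {α β : Type}

theorem Wd_mem {l : List α} (h : Enum l) : (Wd l : (α → MK K) → MK K) ∈ R K α :=
  Submodule.subset_span ⟨l, h, rfl⟩

theorem R_induction {p : ((α → MK K) → MK K) → Prop} {f : (α → MK K) → MK K} (hf : f ∈ R K α)
    (hw : ∀ l : List α, Enum l → p (Wd l)) (h0 : p 0) (hadd : ∀ f g, p f → p g → p (f + g))
    (hsmul : ∀ (r : ℝ) f, p f → p (r • f)) : p f := by
  refine Submodule.span_induction (p := fun f _ => p f) ?_ h0 ?_ ?_ hf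
  · rintro _ ⟨l, hl, rfl⟩
    exact hw l hl
  · intro f g _ _ hf hg
    exact hadd f g hf hg
  · intro r f _ hf
    exact hsmul r f hf

theorem Enum_map (e : α ≃ β) {l : List α} (h : Enum l) : Enum (l.map e) := by
  refine ⟨h.1.map e.injective, fun b => ?_⟩
  rw [List.mem_map]
  exact ⟨e.symm b, h.2 _, by simp⟩

theorem Wd_map (g : α → β) (l : List α) (x : β → MK K) : Wd (l.map g) x = Wd l (x ∘ g) := by
  unfold Wd
  rw [List.map_map]

theorem Wd_append (l l' : List α) (x : α → MK K) : Wd (l ++ l') x = Wd l x * Wd l' x := by
  unfold Wd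
  rw [List.map_append, List.prod_append]

theorem Wd_cons (a : α) (l : List α) (x : α → MK K) : Wd (a :: l) x = x a * Wd l x := by
  unfold Wd
  rw [List.map_cons, List.prod_cons]

theorem Wd_congr {l : List α} {x y : α → MK K} (h : ∀ a ∈ l, x a = y a) : Wd l x = Wd l y := by
  unfold Wd
  rw [List.map_congr_left h]

theorem R_re (e : α ≃ β) {f : (α → MK K) → MK K} (hf : f ∈ R K α) :
    (fun x : β → MK K => f (x ∘ e)) ∈ R K β := by
  refine R_induction (p := fun f => (fun x : β → MK K => f (x ∘ e)) ∈ R K β) hf ?_ ?_ ?_ ?_
  · intro l hl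
    have : (fun x : β → MK K => Wd l (x ∘ e)) = Wd (l.map e) := by
      funext x
      rw [Wd_map]
    rw [this]
    exact Wd_mem (Enum_map e hl)
  · exact Submodule.zero_mem _
  · intro f g hf hg
    exact Submodule.add_mem _ hf hg
  · intro r f hf
    exact Submodule.smul_mem _ r hf

theorem split_at {l : List α} (h : Enum l) (a : α) :
    ∃ l1 l2, l = l1 ++ a :: l2 ∧ (∀ b ∈ l1, b ≠ a) ∧ (∀ b ∈ l2, b ≠ a) := by
  obtain ⟨l1, l2, rfl⟩ := List.append_of_mem (h.2 a)
  have h1 := h.1
  rw [List.nodup_append] at h1
  obtain ⟨h2, h3, h4⟩ := h1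
  rw [List.nodup_cons] at h3
  refine ⟨l1, l2, rfl, fun b hb => h4 b hb a (by simp), fun b hb => ?_⟩
  rintro rfl
  exact h3.1 hb

theorem Wd_update [DecidableEq α] {l1 l2 : List α} {a : α} (h1 : ∀ b ∈ l1, b ≠ a)
    (h2 : ∀ b ∈ l2, b ≠ a) (x : α → MK K) (v : MK K) :
    Wd (l1 ++ a :: l2) (Function.update x a v) = Wd l1 x * (v * Wd l2 x) := by
  rw [Wd_append, Wd_cons, Function.update_self,
    Wd_congr (fun b hb => Function.update_of_ne (h1 b hb) v x),
    Wd_congr (fun b hb => Function.update_of_ne (h2 b hb) v x)]

theorem Enum_option {l : List (Option α)} (h1 : l.Nodup) (h2 : none ∈ l) (h3 : ∀ a, some a ∈ l) :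
    Enum l := by
  refine ⟨h1, fun o => ?_⟩
  cases o with
  | none => exact h2
  | some a => exact h3 a

theorem R_sub [DecidableEq α] {f : (α → MK K) → MK K} (hf : f ∈ R K α) (a : α) :
    (fun x : Option α → MK K => f (Function.update (x ∘ some) a (x (some a) * x none))) ∈
      R K (Option α) := by
  refine R_induction (p := fun f => (fun x : Option α → MK K =>
    f (Function.update (x ∘ some) a (x (some a) * x none))) ∈ R K (Option α)) hf ?_ ?_ ?_ ?_
  · intro l hl
    obtain ⟨l1, l2, rfl, h1, h2⟩ := split_at hl a
    have h3 : (fun x : Option α → MK K => Wd (l1 ++ a :: l2)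
        (Function.update (x ∘ some) a (x (some a) * x none))) =
        Wd (l1.map some ++ some a :: none :: l2.map some) := by
      funext x
      rw [Wd_update h1 h2, Wd_append, Wd_cons, Wd_cons, Wd_map, Wd_map]
      noncomm_ring
    rw [h3]
    refine Wd_mem (Enum_option ?_ (by simp) ?_)
    · have h4 := hl.1.map (Option.some_injective α)
      rw [List.map_append, List.map_cons] at h4
      have h5 : (l1.map some ++ some a :: none :: l2.map some).Perm
          (none :: (l1.map some ++ some a :: l2.map some)) := by
        have h6 : (some a :: none :: l2.map some).Perm (none :: some a :: l2.map some) :=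
          List.Perm.swap _ _ _
        exact (h6.append_left _).trans List.perm_middle
      rw [h5.nodup_iff, List.nodup_cons]
      exact ⟨by simp, h4⟩
    · intro b
      have h4 := hl.2 b
      simp only [List.mem_append, List.mem_cons] at h4 ⊢
      rcases h4 with h4 | h4 | h4
      · left; exact List.mem_map_of_mem h4
      · right; left; rw [h4]
      · right; right; right; exact List.mem_map_of_mem h4
  · exact Submodule.zero_mem _
  · intro f g hf hg
    exact Submodule.add_mem _ hf hg
  · intro r f hf
    exact Submodule.smul_mem _ r hf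

theorem R_app {f : (α → MK K) → MK K} (hf : f ∈ R K α) :
    (fun x : Option α → MK K => f (x ∘ some) * x none) ∈ R K (Option α) := by
  refine R_induction (p := fun f => (fun x : Option α → MK K =>
    f (x ∘ some) * x none) ∈ R K (Option α)) hf ?_ ?_ ?_ ?_
  · intro l hl
    have h3 : (fun x : Option α → MK K => Wd l (x ∘ some) * x none) =
        Wd (l.map some ++ [none]) := by
      funext x
      rw [Wd_append, Wd_map, Wd_cons]
      simp [Wd]
    rw [h3]
    refine Wd_mem (Enum_option ?_ (by simp) ?_)
    · rw [List.nodup_append]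
      refine ⟨hl.1.map (Option.some_injective α), by simp, ?_⟩
      intro a ha b hb
      rw [List.mem_singleton] at hb
      subst hb
      rintro rfl
      simp at ha
    · intro b
      simp [hl.2 b]
  · have : (fun x : Option α → MK K => (0 : (α → MK K) → MK K) (x ∘ some) * x none) = 0 := by
      funext x
      simp
    rw [this]
    exact Submodule.zero_mem _
  · intro f g hf hg
    have : (fun x : Option α → MK K => (f + g) (x ∘ some) * x none) =
        (fun x => f (x ∘ some) * x none) + (fun x => g (x ∘ some) * x none) := by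
      funext x
      simp [add_mul]
    rw [this]
    exact Submodule.add_mem _ hf hg
  · intro r f hf
    have : (fun x : Option α → MK K => (r • f) (x ∘ some) * x none) =
        r • (fun x => f (x ∘ some) * x none) := by
      funext x
      simp
    rw [this]
    exact Submodule.smul_mem _ r hf

theorem R_rot [DecidableEq α] {f : (α → MK K) → MK K} (hf : f ∈ R K α) (j : α) :
    ∃ Y : (Option α → MK K) → MK K, (fun x => x (some j) * Y x) ∈ R K (Option α) ∧
      ∀ x v, Matrix.trace (v * Y x) =
        Matrix.trace (f (Function.update (x ∘ some) j v) * x none) := by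
  refine R_induction (p := fun f => ∃ Y : (Option α → MK K) → MK K,
    (fun x => x (some j) * Y x) ∈ R K (Option α) ∧
      ∀ x v, Matrix.trace (v * Y x) =
        Matrix.trace (f (Function.update (x ∘ some) j v) * x none)) hf ?_ ?_ ?_ ?_
  · intro l hl
    obtain ⟨l1, l2, rfl, h1, h2⟩ := split_at hl j
    refine ⟨fun x => Wd l2 (x ∘ some) * (x none * Wd l1 (x ∘ some)), ?_, ?_⟩
    · have h3 : (fun x : Option α → MK K => x (some j) *
          (Wd l2 (x ∘ some) * (x none * Wd l1 (x ∘ some)))) =
          Wd (some j :: (l2.map some ++ none :: l1.map some)) := by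
        funext x
        rw [Wd_cons, Wd_append, Wd_cons, Wd_map, Wd_map]
      rw [h3]
      refine Wd_mem (Enum_option ?_ (by simp) ?_)
      · have h4 := hl.1.map (Option.some_injective α)
        rw [List.map_append, List.map_cons] at h4
        have h5 : (some j :: (l2.map some ++ none :: l1.map some)).Perm
            (none :: (l1.map some ++ some j :: l2.map some)) := by
          have h6 : (l2.map some ++ none :: l1.map some).Perm
              (none :: (l2.map some ++ l1.map some)) := List.perm_middle
          have h7 : (some j :: (l2.map some ++ none :: l1.map some)).Perm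
              (none :: some j :: (l2.map some ++ l1.map some)) :=
            (h6.cons _).trans (List.Perm.swap _ _ _)
          refine h7.trans (List.Perm.cons _ ?_)
          have h8 : (l1.map some ++ some j :: l2.map some).Perm
              (some j :: (l1.map some ++ l2.map some)) := List.perm_middle
          exact ((List.perm_append_comm).cons _).trans h8.symm
        rw [h5.nodup_iff, List.nodup_cons]
        exact ⟨by simp, h4⟩
      · intro b
        have h4 := hl.2 b
        simp only [List.mem_append, List.mem_cons] at h4 ⊢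
        rcases h4 with h4 | h4 | h4
        · right; right; right; exact List.mem_map_of_mem h4
        · left; rw [h4]
        · right; left; exact List.mem_map_of_mem h4
    · intro x v
      rw [Wd_update h1 h2]
      have h3 : v * (Wd l2 (x ∘ some) * (x none * Wd l1 (x ∘ some))) =
          (v * Wd l2 (x ∘ some) * x none) * Wd l1 (x ∘ some) := by noncomm_ring
      have h4 : Wd l1 (x ∘ some) * (v * Wd l2 (x ∘ some)) * x none =
          Wd l1 (x ∘ some) * (v * Wd l2 (x ∘ some) * x none) := by noncomm_ring
      rw [h3, h4, Matrix.trace_mul_comm]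
  · exact ⟨0, by
      have : (fun x : Option α → MK K => x (some j) * (0 : (Option α → MK K) → MK K) x) = 0 := by
        funext x; simp
      rw [this]; exact Submodule.zero_mem _, by intro x v; simp⟩
  · rintro f g ⟨Y, hY, hY'⟩ ⟨Z, hZ, hZ'⟩
    refine ⟨Y + Z, ?_, fun x v => ?_⟩
    · have : (fun x : Option α → MK K => x (some j) * (Y + Z) x) =
          (fun x => x (some j) * Y x) + (fun x => x (some j) * Z x) := by
        funext x; simp [mul_add]
      rw [this]; exact Submodule.add_mem _ hY hZ
    · simp only [Pi.add_apply, mul_add, add_mul, Matrix.trace_add, hY', hZ']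
  · rintro r f ⟨Y, hY, hY'⟩
    refine ⟨r • Y, ?_, fun x v => ?_⟩
    · have : (fun x : Option α → MK K => x (some j) * (r • Y) x) =
          r • (fun x => x (some j) * Y x) := by
        funext x; simp
      rw [this]; exact Submodule.smul_mem _ r hY
    · simp only [Pi.smul_apply, Matrix.mul_smul, Matrix.smul_mul, Matrix.trace_smul, hY']

/-- Monomials are multilinear. -/
def Wml (l : List α) (h : Enum l) : MultilinearMap ℝ (fun _ : α => MK K) (MK K) where
  toFun := Wd l
  map_update_add' x a v w := by
    obtain ⟨l1, l2, rfl, h1, h2⟩ := split_at h a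
    rw [Wd_update h1 h2, Wd_update h1 h2, Wd_update h1 h2]
    noncomm_ring
  map_update_smul' x a r v := by
    obtain ⟨l1, l2, rfl, h1, h2⟩ := split_at h a
    rw [Wd_update h1 h2, Wd_update h1 h2]
    simp

theorem R_ml {f : (α → MK K) → MK K} (hf : f ∈ R K α) :
    ∃ m : MultilinearMap ℝ (fun _ : α => MK K) (MK K), ∀ x, m x = f x := by
  refine R_induction (p := fun f => ∃ m : MultilinearMap ℝ (fun _ : α => MK K) (MK K),
    ∀ x, m x = f x) hf ?_ ?_ ?_ ?_
  · intro l hl
    exact ⟨Wml l hl, fun x => rfl⟩
  · exact ⟨0, fun x => rfl⟩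
  · rintro f g ⟨m, hm⟩ ⟨m', hm'⟩
    exact ⟨m + m', fun x => by rw [add_apply, hm, hm']; rfl⟩
  · rintro r f ⟨m, hm⟩
    exact ⟨r • m, fun x => by rw [smul_apply, hm]; rfl⟩

end Pool.Agent.H43CC
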