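import Mathlib
import Pool.Agent.H43CC.Words

set_option autoImplicit false

namespace Pool.Agent.H43CC

open Module

variable {K : Type} [Fintype K] [DecidableEq K]

/-- The matrix of coordinates. -/
def Dm (x : K × K → MK K) : Matrix (K × K) (K × K) ℝ := fun p j => x j p.1 p.2

/-- The determinant of the coordinates. -/
def DD (x : K × K → MK K) : ℝ := (Dm x).det

/-- The matrix units. -/
def E0 (p : K × K) : MK K := Matrix.single p.1 p.2 1

theorem alt_eq (f : AlternatingMap ℝ (MK K) (MK K) (K × K)) (x : K × K → MK K) :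
    f x = DD x • f E0 := by
  ext a b
  let f' : AlternatingMap ℝ (MK K) ℝ (K × K) :=
    (Matrix.entryLinearMap ℝ ℝ a b).compAlternatingMap f
  have h1 := f'.eq_smul_basis_det (Matrix.stdBasis ℝ K K)
  have h2 : (Matrix.stdBasis ℝ K K : K × K → MK K) = E0 := by
    funext p
    exact Matrix.stdBasis_eq_single ℝ p.1 p.2
  have h3 : (Matrix.stdBasis ℝ K K).toMatrix x = Dm x := by
    ext p j
    rw [Basis.toMatrix_apply]
    simp [Matrix.stdBasis, Dm]
  have h4 : f' x = f' E0 * DD x := by
    conv_lhs => rw [h1]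
    rw [AlternatingMap.smul_apply, Basis.det_apply, h2, h3]
    rfl
  have h5 : f x a b = f E0 a b * DD x := h4
  rw [h5, Matrix.smul_apply, smul_eq_mul, mul_comm]

theorem DD_E0 : DD (E0 (K := K)) = 1 := by
  have : Dm (E0 (K := K)) = 1 := by
    ext p j
    simp only [Dm, E0, Matrix.single_apply, Matrix.one_apply]
    by_cases h : p = j
    · rw [h]; simp
    · rw [if_neg h, if_neg]
      rintro ⟨h1, h2⟩
      exact h (Prod.ext h1.symm h2.symm)
  rw [DD, this, Matrix.det_one]

/-- Trace of an endomorphism through the determinant. -/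
theorem sum_det_updateCol {J : Type} [Fintype J] [DecidableEq J] (A N : Matrix J J ℝ) :
    ∑ j, (A.updateCol j (fun p => (N * A) p j)).det = N.trace * A.det := by
  have h1 : ∀ j, (A.updateCol j (fun p => (N * A) p j)).det = (A.adjugate * (N * A)) j j := by
    intro j
    rw [← Matrix.cramer_apply, Matrix.cramer_eq_adjugate_mulVec]
    rfl
  simp only [h1]
  have h2 : ∑ j, (A.adjugate * (N * A)) j j = (A.adjugate * (N * A)).trace := rfl
  rw [h2, ← mul_assoc, Matrix.trace_mul_comm, ← mul_assoc, Matrix.mul_adjugate,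
    Matrix.smul_mul, Matrix.trace_smul, one_mul, smul_eq_mul, mul_comm]

theorem Dm_update (x : K × K → MK K) (j : K × K) (v : MK K) :
    Dm (Function.update x j v) = (Dm x).updateCol j (fun p => v p.1 p.2) := by
  ext p j'
  simp only [Dm, Matrix.updateCol_apply]
  by_cases h : j' = j
  · subst h; simp
  · rw [if_neg h, Function.update_of_ne h]

/-- The trace identity. -/
theorem DD_trace (x : K × K → MK K) (y : MK K) :
    ∑ j, DD (Function.update x j (x j * y)) = (Fintype.card K * y.trace) * DD x := by
  let N : Matrix (K × K) (K × K) ℝ := fun p q => if p.1 = q.1 then y q.2 p.2 else 0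
  have h1 : ∀ j, DD (Function.update x j (x j * y)) =
      ((Dm x).updateCol j (fun p => (N * Dm x) p j)).det := by
    intro j
    rw [DD, Dm_update]
    congr 2
    funext p
    have h2 : (N * Dm x) p j = ∑ c, N p (p.1, c) * Dm x (p.1, c) j := by
      rw [Matrix.mul_apply, Fintype.sum_prod_type]
      refine Finset.sum_eq_single p.1 ?_ ?_
      · intro a _ ha
        refine Finset.sum_eq_zero fun c _ => ?_
        have h3 : N p (a, c) = 0 := if_neg (fun h => ha h.symm)
        rw [h3, zero_mul]
      · simp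
    rw [h2, Matrix.mul_apply]
    refine Finset.sum_congr rfl fun c _ => ?_
    have h3 : N p (p.1, c) = y c p.2 := if_pos rfl
    rw [h3]
    simp only [Dm]
    ring
  simp only [h1]
  rw [sum_det_updateCol]
  congr 1
  show ∑ p : K × K, N p p = _
  rw [Fintype.sum_prod_type]
  simp [N, Matrix.trace]

/-- Razmyslov's identity. -/
theorem raz_identity (x : K × K → MK K) (s : ℝ) (Y : K × K → MK K)
    (hY : ∀ j v, Matrix.trace (v * Y j) = DD (Function.update x j v) * s) :
    ∑ j, x j * Y j = (Fintype.card K * (DD x * s)) • (1 : MK K) := by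
  have h1 : ∀ j a b, Y j b a = (Dm x).adjugate j (a, b) * s := by
    intro j a b
    have h2 := hY j (Matrix.single a b 1)
    have h3 : Matrix.trace (Matrix.single a b (1 : ℝ) * Y j) = Y j b a := by
      rw [Matrix.trace, Finset.sum_eq_single a]
      · simp [Matrix.diag_apply]
      · intro c _ hc
        rw [Matrix.diag_apply, Matrix.single_mul_apply_of_ne _ _ _ _ _ hc]
      · simp
    rw [h3] at h2
    rw [h2, DD, Dm_update]
    congr 1
    have h4 : (fun p : K × K => (Matrix.single a b (1 : ℝ)) p.1 p.2) =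
        Pi.single (a, b) 1 := by
      funext p
      rw [Matrix.single_apply, Pi.single_apply]
      by_cases h : p = (a, b)
      · rw [h]; simp
      · rw [if_neg h, if_neg]
        rintro ⟨h5, h6⟩
        exact h (Prod.ext h5.symm h6.symm)
    rw [h4, ← Matrix.cramer_apply, Matrix.cramer_eq_adjugate_mulVec]
    simp
  ext a c
  rw [Matrix.sum_apply]
  have h5 : ∀ j, (x j * Y j) a c = ∑ b, Dm x (a, b) j * (Dm x).adjugate j (c, b) * s := by
    intro j
    rw [Matrix.mul_apply]
    refine Finset.sum_congr rfl fun b _ => ?_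
    rw [h1]
    simp only [Dm]
    ring
  simp only [h5]
  rw [Finset.sum_comm]
  have h6 : ∀ b, ∑ j, Dm x (a, b) j * (Dm x).adjugate j (c, b) * s =
      (if a = c then DD x else 0) * s := by
    intro b
    rw [← Finset.sum_mul]
    have h7 : ∑ j, Dm x (a, b) j * (Dm x).adjugate j (c, b) =
        (Dm x * (Dm x).adjugate) (a, b) (c, b) := rfl
    rw [h7, Matrix.mul_adjugate, Matrix.smul_apply, Matrix.one_apply]
    by_cases h : a = c
    · subst h; simp [DD]
    · rw [if_neg h, if_neg]
      · simp
      · intro h8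
        exact h (congrArg Prod.fst h8)
  simp only [h6]
  rw [Finset.sum_const, Finset.card_univ, nsmul_eq_mul, Matrix.smul_apply, Matrix.one_apply]
  by_cases h : a = c
  · rw [if_pos h, if_pos h]; simp
  · rw [if_neg h, if_neg h]; simp

/-- The letters of the basic word: `x_p`, `z_p`, `z'_p`. -/
abbrev A0 (K : Type) : Type := (K × K) ⊕ ((K × K) ⊕ (K × K))

/-- The triple of letters at `p`. -/
def tri (p : K × K) : List (A0 K) := [Sum.inr (Sum.inl p), Sum.inl p, Sum.inr (Sum.inr p)]

/-- The basic word. -/
noncomputable def l0 (K : Type) [Fintype K] [DecidableEq K] : List (A0 K) :=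
  (Finset.univ : Finset (K × K)).toList.flatMap tri

omit [Fintype K] [DecidableEq K] in
theorem mem_tri {p : K × K} {c : A0 K} :
    c ∈ tri p ↔ c = Sum.inr (Sum.inl p) ∨ c = Sum.inl p ∨ c = Sum.inr (Sum.inr p) := by
  simp [tri]

theorem l0_enum : Enum (l0 K) := by
  constructor
  · rw [l0, List.nodup_flatMap]
    constructor
    · intro p _
      simp [tri]
    · refine List.Nodup.pairwise_of_forall_ne (Finset.nodup_toList _) ?_
      intro p _ q _ hpq
      rw [Function.onFun, List.disjoint_left]
      intro c hc hc'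
      rw [mem_tri] at hc hc'
      rcases hc with rfl | rfl | rfl <;> simp at hc' <;> exact hpq hc'
  · intro c
    rw [l0, List.mem_flatMap]
    rcases c with p | p | p
    · exact ⟨p, by simp, by simp [tri]⟩
    · exact ⟨p, by simp, by simp [tri]⟩
    · exact ⟨p, by simp, by simp [tri]⟩

/-- Evaluation of a multilinear map. -/
def evL (ζ : (K × K) ⊕ (K × K) → MK K) :
    MultilinearMap ℝ (fun _ : (K × K) ⊕ (K × K) => MK K) (MK K) →ₗ[ℝ] MK K where
  toFun g := g ζ
  map_add' _ _ := rfl
  map_smul' _ _ := rfl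

/-- The multilinear map in the variables `x_p`. -/
noncomputable def mz (ζ : (K × K) ⊕ (K × K) → MK K) :
    MultilinearMap ℝ (fun _ : K × K => MK K) (MK K) :=
  (evL ζ).compMultilinearMap (Wml (l0 K) l0_enum).currySum

theorem mz_apply (ζ : (K × K) ⊕ (K × K) → MK K) (x : K × K → MK K) :
    mz ζ x = Wd (l0 K) (Sum.elim x ζ) := rfl

/-- The alternating polynomial. -/
noncomputable def GG (x : A0 K → MK K) : MK K :=
  MultilinearMap.alternatization (mz (x ∘ Sum.inr)) (x ∘ Sum.inl)

/-- Its value at the matrix units. -/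
noncomputable def HH (ζ : (K × K) ⊕ (K × K) → MK K) : MK K :=
  MultilinearMap.alternatization (mz ζ) E0

theorem GG_eq (x : A0 K → MK K) : GG x = DD (x ∘ Sum.inl) • HH (x ∘ Sum.inr) :=
  alt_eq _ _

theorem GG_mem : (GG : (A0 K → MK K) → MK K) ∈ R K (A0 K) := by
  have h : (GG : (A0 K → MK K) → MK K) = ∑ π : Equiv.Perm (K × K), (Equiv.Perm.sign π : ℤ) •
      (Wd ((l0 K).map (Equiv.sumCongr π (Equiv.refl _))) : (A0 K → MK K) → MK K) := by
    funext x
    rw [GG, MultilinearMap.alternatization_apply, Finset.sum_apply]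
    refine Finset.sum_congr rfl fun π _ => ?_
    rw [Pi.smul_apply, Wd_map]
    have e : (x ∘ (Equiv.sumCongr π (Equiv.refl ((K × K) ⊕ (K × K)))) : A0 K → MK K) =
        Sum.elim (fun i => x (Sum.inl (π i))) (x ∘ Sum.inr) := by
      funext c
      rcases c with c | c <;> rfl
    rw [e]
    rfl
  rw [h]
  refine Submodule.sum_mem _ fun π _ => ?_
  rw [← Int.cast_smul_eq_zsmul ℝ]
  exact Submodule.smul_mem _ _ (Wd_mem (Enum_map _ l0_enum))

end Pool.Agent.H43CC
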