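import Mathlib
import Pool.Agent.H43CC.Raz

set_option autoImplicit false

namespace Pool.Agent.H43CC

open Module

variable {K : Type} [Fintype K] [DecidableEq K]

/-- The special values of the auxiliary variables. -/
def z0 (o : K) : (K × K) ⊕ (K × K) → MK K :=
  Sum.elim (fun p => Matrix.single o p.1 1) (fun p => Matrix.single p.2 o 1)

theorem Wd_flatMap (l : List (K × K)) (x : A0 K → MK K) :
    Wd (l.flatMap tri) x =
      (l.map (fun p => x (Sum.inr (Sum.inl p)) * (x (Sum.inl p) * x (Sum.inr (Sum.inr p))))).prod := by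
  induction l with
  | nil => rfl
  | cons p l ih =>
    rw [List.flatMap_cons, Wd_append, ih, List.map_cons, List.prod_cons]
    congr 1
    simp [Wd, tri]

theorem factor (o : K) (p q : K × K) :
    (Matrix.single o p.1 (1 : ℝ)) * (E0 q * Matrix.single p.2 o 1) =
      if q = p then Matrix.single o o 1 else 0 := by
  rw [E0]
  by_cases h2 : q.2 = p.2
  · rw [h2, Matrix.single_mul_single_same]
    by_cases h1 : q.1 = p.1
    · rw [h1, Matrix.single_mul_single_same, if_pos (Prod.ext h1 h2)]
      simp
    · rw [Matrix.single_mul_single_of_ne _ _ _ _ (fun h => h1 h.symm), if_neg]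
      intro h; exact h1 (congrArg Prod.fst h)
  · rw [Matrix.single_mul_single_of_ne _ _ _ _ h2, mul_zero, if_neg]
    intro h; exact h2 (congrArg Prod.snd h)

theorem HH_z0 (o : K) : HH (z0 o) = Matrix.single o o 1 := by
  rw [HH, MultilinearMap.alternatization_apply, Finset.sum_eq_single 1]
  · rw [Equiv.Perm.sign_one, one_smul]
    show Wd (l0 K) (Sum.elim (fun i => E0 i) (z0 o)) = _
    rw [l0, Wd_flatMap]
    have h1 : ∀ p : K × K, (Sum.elim (fun i => E0 i) (z0 o) (Sum.inr (Sum.inl p)) *
        (Sum.elim (fun i => E0 i) (z0 o) (Sum.inl p) *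
          Sum.elim (fun i => E0 i) (z0 o) (Sum.inr (Sum.inr p)))) = Matrix.single o o 1 := by
      intro p
      have := factor o p p
      rw [if_pos rfl] at this
      exact this
    simp only [h1]
    rw [List.map_const', List.prod_replicate, Finset.length_toList]
    have h2 : (Finset.univ : Finset (K × K)).card ≠ 0 := by
      rw [Finset.card_ne_zero]
      exact ⟨(o, o), Finset.mem_univ _⟩
    have h3 : ∀ n : ℕ, n ≠ 0 → (Matrix.single o o (1 : ℝ) : MK K) ^ n = Matrix.single o o 1 := by
      intro n hn
      induction n with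
      | zero => exact absurd rfl hn
      | succ n ih =>
        by_cases hn0 : n = 0
        · subst hn0; simp
        · rw [pow_succ, ih hn0, Matrix.single_mul_single_same, mul_one]
    exact h3 _ h2
  · intro π _ hπ
    obtain ⟨p, hp⟩ : ∃ p, π p ≠ p := by
      by_contra hcon
      push Not at hcon
      exact hπ (Equiv.ext hcon)
    have h0 : (MultilinearMap.domDomCongr π (mz (z0 o))) E0 = 0 := by
      show Wd (l0 K) (Sum.elim (fun i => E0 (π i)) (z0 o)) = 0
      rw [l0, Wd_flatMap]
      refine List.prod_eq_zero ?_
      rw [List.mem_map]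
      refine ⟨p, by simp, ?_⟩
      have := factor o p (π p)
      rw [if_neg hp] at this
      exact this
    rw [h0, smul_zero]
  · simp

/-- The conductor function. -/
noncomputable def QQ (x : Option (A0 K) → MK K) : ℝ :=
  DD (fun p => x (some (Sum.inl p))) *
    Matrix.trace (HH (fun c => x (some (Sum.inr c))) * x none)

theorem QQ_mem [Nonempty K] :
    (fun x => QQ x • (1 : MK K)) ∈ R K (Option (A0 K)) := by
  have h1 : ∀ j : K × K, ∃ Y : (Option (A0 K) → MK K) → MK K,
      (fun x => x (some (Sum.inl j)) * Y x) ∈ R K (Option (A0 K)) ∧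
      ∀ x v, Matrix.trace (v * Y x) =
        Matrix.trace (GG (Function.update (x ∘ some) (Sum.inl j) v) * x none) := fun j =>
    R_rot GG_mem (Sum.inl j)
  choose Y hY hY' using h1
  have h2 : (∑ j, (fun x : Option (A0 K) → MK K => x (some (Sum.inl j)) * Y j x)) ∈
      R K (Option (A0 K)) := Submodule.sum_mem _ fun j _ => hY j
  have h3 : (fun x => QQ x • (1 : MK K)) =
      (Fintype.card K : ℝ)⁻¹ • (∑ j, (fun x : Option (A0 K) → MK K =>
        x (some (Sum.inl j)) * Y j x)) := by
    funext x
    rw [Pi.smul_apply, Finset.sum_apply]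
    have h4 := raz_identity (fun p => x (some (Sum.inl p)))
      (Matrix.trace (HH (fun c => x (some (Sum.inr c))) * x none)) (fun j => Y j x) (by
        intro j v
        rw [hY' j x v, GG_eq]
        have e1 : (Function.update (x ∘ some) (Sum.inl j) v) ∘ Sum.inl =
            Function.update (fun p => x (some (Sum.inl p))) j v := by
          funext p
          by_cases hp : p = j
          · subst hp; simp
          · rw [Function.comp_apply, Function.update_of_ne (by simpa using hp),
              Function.update_of_ne hp]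
            rfl
        have e2 : (Function.update (x ∘ some) (Sum.inl j) v) ∘ Sum.inr =
            (fun c => x (some (Sum.inr c))) := by
          funext c
          rw [Function.comp_apply, Function.update_of_ne (by simp)]
          rfl
        rw [e1, e2, Matrix.smul_mul, Matrix.trace_smul, smul_eq_mul])
    rw [h4, smul_smul]
    congr 1
    have hc : (Fintype.card K : ℝ) ≠ 0 := by exact_mod_cast Fintype.card_ne_zero
    rw [← mul_assoc, inv_mul_cancel₀ hc, one_mul]
    rfl
  rw [h3]
  exact Submodule.smul_mem _ _ h2

/-- The special point. -/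
def x0 (o : K) : Option (A0 K) → MK K := fun c =>
  c.elim (Matrix.single o o 1) (Sum.elim E0 (z0 o))

theorem QQ_x0 (o : K) : QQ (x0 o) = 1 := by
  have h1 : (fun p => x0 o (some (Sum.inl p))) = E0 := rfl
  have h2 : (fun c => x0 o (some (Sum.inr c))) = z0 o := rfl
  have h3 : x0 o none = Matrix.single o o 1 := rfl
  rw [QQ, h1, h2, h3, DD_E0, HH_z0, Matrix.single_mul_single_same]
  simp

/-- The trace monomial of a permutation. -/
noncomputable def Tr {α : Type} (σ : Equiv.Perm α) (x : α → MK K) : ℝ :=
  ∑ᶠ i : α → K, ∏ᶠ a, x a (i a) (i (σ a))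

theorem Tr_eq {α : Type} [Fintype α] [DecidableEq α] (σ : Equiv.Perm α) (x : α → MK K) :
    Tr σ x = ∑ i : α → K, ∏ a, x a (i a) (i (σ a)) := by
  rw [Tr, finsum_eq_sum_of_fintype]
  simp only [finprod_eq_prod_of_fintype]

theorem Tr_re {α β : Type} [Finite α] [Finite β]
    (e : α ≃ β) (σ : Equiv.Perm β) (x : β → MK K) :
    Tr σ x = Tr ((e.trans σ).trans e.symm) (x ∘ e) := by
  classical
  have := Fintype.ofFinite α
  have := Fintype.ofFinite β
  rw [Tr_eq, Tr_eq]
  refine Fintype.sum_equiv (Equiv.arrowCongr e.symm (Equiv.refl K)) _ _ fun i => ?_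
  refine Fintype.prod_equiv e.symm _ _ fun a => ?_
  simp

/-- Sums over functions on an option type. -/
theorem sum_option_fun' {P M : Type} [Fintype P] [DecidableEq P] [AddCommMonoid M]
    (f : (Option P → K) → M) :
    ∑ s : Option P → K, f s = ∑ w : K, ∑ q : P → K, f (fun o => o.elim w q) := by
  rw [← Fintype.sum_prod_type']
  refine Fintype.sum_equiv (Equiv.piOptionEquivProd (β := fun _ => K)) _ _ fun s => ?_
  congr 1
  funext o
  cases o <;> rfl

theorem Tr_fix {α : Type} [Finite α] (σ : Equiv.Perm (Option α))
    (h : σ none = none) (x : Option α → MK K) :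
    Tr σ x = Matrix.trace (x none) * Tr (Equiv.removeNone σ) (x ∘ some) := by
  have h4 : ∀ a, σ (some a) = some (Equiv.removeNone σ a) := by
    intro a
    refine (Equiv.removeNone_some σ ?_).symm
    rcases h5 : σ (some a) with _ | b
    · exact absurd (σ.injective (h5.trans h.symm)) (by simp)
    · exact ⟨b, rfl⟩
  classical
  have := Fintype.ofFinite α
  rw [Tr_eq, Tr_eq, sum_option_fun', Matrix.trace, Finset.sum_mul_sum]
  refine Finset.sum_congr rfl fun w _ => Finset.sum_congr rfl fun i _ => ?_
  rw [Fintype.prod_option]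
  congr 1
  · rw [h]; rfl
  · refine Finset.prod_congr rfl fun a _ => ?_
    rw [h4]
    rfl

theorem Tr_sub {α : Type} [Finite α] [DecidableEq α] (σ : Equiv.Perm (Option α))
    (a : α) (h : σ (some a) = none) (x : Option α → MK K) :
    Tr σ x = Tr (Equiv.removeNone σ) (Function.update (x ∘ some) a (x (some a) * x none)) := by
  have h4 : ∀ b, b ≠ a → σ (some b) = some (Equiv.removeNone σ b) := by
    intro b hb
    refine (Equiv.removeNone_some σ ?_).symm
    rcases h5 : σ (some b) with _ | c
    · exact absurd (Option.some.inj (σ.injective (h5.trans h.symm))) hb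
    · exact ⟨c, rfl⟩
  have h5 : σ none = some (Equiv.removeNone σ a) := (Equiv.removeNone_none σ h).symm
  have := Fintype.ofFinite α
  rw [Tr_eq, Tr_eq, sum_option_fun', Finset.sum_comm]
  refine Finset.sum_congr rfl fun i _ => ?_
  have h6 : ∀ w : K, ∏ o : Option α, x o ((fun o => Option.elim o w i) o)
      ((fun o => Option.elim o w i) (σ o)) =
      (x (some a) (i a) w * x none w (i (Equiv.removeNone σ a))) *
        ∏ b ∈ Finset.univ.erase a, x (some b) (i b) (i (Equiv.removeNone σ b)) := by
    intro w
    rw [Fintype.prod_option, ← Finset.mul_prod_erase Finset.univ _ (Finset.mem_univ a)]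
    have e1 : ∏ b ∈ Finset.univ.erase a, x (some b) ((fun o => Option.elim o w i) (some b))
        ((fun o => Option.elim o w i) (σ (some b))) =
        ∏ b ∈ Finset.univ.erase a, x (some b) (i b) (i (Equiv.removeNone σ b)) := by
      refine Finset.prod_congr rfl fun b hb => ?_
      rw [h4 b (Finset.ne_of_mem_erase hb)]
      rfl
    rw [e1, h, h5]
    simp only [Option.elim]
    ring
  simp only [h6]
  rw [← Finset.sum_mul, ← Finset.mul_prod_erase Finset.univ _ (Finset.mem_univ a)]
  congr 1
  · rw [Function.update_self, Matrix.mul_apply]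
  · refine Finset.prod_congr rfl fun b hb => ?_
    rw [Function.update_of_ne (Finset.ne_of_mem_erase hb)]
    rfl

end Pool.Agent.H43CC
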