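import Mathlib
import Pool.Agent.H43CC.Cond

set_option autoImplicit false

namespace Pool.Agent.H43CC

open Module

/-- Move the new letter to the right. -/
def eQ (Q β : Type) : Option (Q ⊕ β) ≃ (Q ⊕ Option β) where
  toFun := fun o => o.elim (Sum.inr none) (Sum.elim Sum.inl (fun b => Sum.inr (some b)))
  invFun := Sum.elim (fun q => some (Sum.inl q)) (fun o => o.map Sum.inr)
  left_inv := by rintro (_ | _ | _) <;> rfl
  right_inv := by rintro (_ | _ | _) <;> rfl

variable {K : Type} [Fintype K] [DecidableEq K] [Nonempty K]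

/-- The index set of the conductor. -/
abbrev Q1 (K : Type) : Type := Option (A0 K)

theorem claimB (β : Type) [Finite β] : ∀ (_ : Finite β) (σ : Equiv.Perm β),
    (fun x : Q1 K ⊕ β → MK K => (QQ (x ∘ Sum.inl) * Tr σ (x ∘ Sum.inr)) • (1 : MK K)) ∈
      R K (Q1 K ⊕ β) := by
  refine Finite.induction_empty_option (P := fun β => ∀ (_ : Finite β) (σ : Equiv.Perm β),
    (fun x : Q1 K ⊕ β → MK K => (QQ (x ∘ Sum.inl) * Tr σ (x ∘ Sum.inr)) • (1 : MK K)) ∈
      R K (Q1 K ⊕ β)) ?_ ?_ ?_ β
  · intro β β' e ih _ σ
    have : Finite β := Finite.of_equiv β' e.symm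
    have h1 := R_re (Equiv.sumCongr (Equiv.refl (Q1 K)) e)
      (ih inferInstance ((e.trans σ).trans e.symm))
    convert h1 using 1
    funext x
    rw [Tr_re e σ]
    rfl
  · intro _ σ
    have h1 := R_re (Equiv.sumEmpty (Q1 K) PEmpty).symm (QQ_mem (K := K))
    convert h1 using 1
    funext x
    have h2 : Tr σ (x ∘ Sum.inr) = 1 := by
      rw [Tr_eq, Fintype.sum_unique]
      simp
    rw [h2, mul_one]
    rfl
  · intro β _ ih _ σ
    classical
    rcases hσ : σ none with _ | b
    · -- the new letter is a fixed point
      let F : (Q1 K ⊕ β → MK K) → MK K := fun x =>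
        (QQ (x ∘ Sum.inl) * Tr (Equiv.removeNone σ) (x ∘ Sum.inr)) • (1 : MK K)
      have hF : F ∈ R K (Q1 K ⊕ β) := ih inferInstance _
      let G : K × K → (Option (Q1 K ⊕ β) → MK K) → MK K := fun p x =>
        F (Function.update (x ∘ some) (Sum.inl (some (Sum.inl p)))
          (x (some (Sum.inl (some (Sum.inl p)))) * x none))
      have hG : ∀ p, G p ∈ R K (Option (Q1 K ⊕ β)) := fun p => R_sub hF _
      have hsum : (Fintype.card K : ℝ)⁻¹ • ∑ p, G p ∈ R K (Option (Q1 K ⊕ β)) :=
        Submodule.smul_mem _ _ (Submodule.sum_mem _ fun p _ => hG p)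
      have h1 := R_re (eQ (Q1 K) β) hsum
      convert h1 using 1
      funext x
      rw [Pi.smul_apply, Finset.sum_apply, Tr_fix σ hσ]
      have h2 : ∀ p : K × K, G p (x ∘ eQ (Q1 K) β) =
          (DD (Function.update (fun p => x (Sum.inl (some (Sum.inl p)))) p
            (x (Sum.inl (some (Sum.inl p))) * x (Sum.inr none))) *
          (Matrix.trace (HH (fun c => x (Sum.inl (some (Sum.inr c)))) * x (Sum.inl none)) *
          Tr (Equiv.removeNone σ) (fun b => x (Sum.inr (some b))))) • (1 : MK K) := by
        intro p
        show (QQ _ * Tr _ _) • (1 : MK K) = _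
        congr 1
        have e1 : (Function.update ((x ∘ eQ (Q1 K) β) ∘ some) (Sum.inl (some (Sum.inl p)))
            ((x ∘ eQ (Q1 K) β) (some (Sum.inl (some (Sum.inl p)))) * (x ∘ eQ (Q1 K) β) none)) ∘
            Sum.inr = (fun b => x (Sum.inr (some b))) := by
          funext b
          rw [Function.comp_apply, Function.update_of_ne (by simp)]
          rfl
        rw [e1, QQ]
        have e2 : (fun p' : K × K => ((Function.update ((x ∘ eQ (Q1 K) β) ∘ some)
            (Sum.inl (some (Sum.inl p)))
            ((x ∘ eQ (Q1 K) β) (some (Sum.inl (some (Sum.inl p)))) *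
              (x ∘ eQ (Q1 K) β) none)) ∘ Sum.inl) (some (Sum.inl p'))) =
            Function.update (fun p => x (Sum.inl (some (Sum.inl p)))) p
            (x (Sum.inl (some (Sum.inl p))) * x (Sum.inr none)) := by
          funext p'
          by_cases hp : p' = p
          · subst hp
            rw [Function.comp_apply, Function.update_self, Function.update_self]
            rfl
          · rw [Function.comp_apply, Function.update_of_ne (by simpa using hp),
              Function.update_of_ne hp]
            rfl
        have e3 : (fun c : (K × K) ⊕ (K × K) => ((Function.update ((x ∘ eQ (Q1 K) β) ∘ some)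
            (Sum.inl (some (Sum.inl p)))
            ((x ∘ eQ (Q1 K) β) (some (Sum.inl (some (Sum.inl p)))) *
              (x ∘ eQ (Q1 K) β) none)) ∘ Sum.inl) (some (Sum.inr c))) =
            fun c => x (Sum.inl (some (Sum.inr c))) := by
          funext c
          rw [Function.comp_apply, Function.update_of_ne (by simp)]
          rfl
        have e4 : ((Function.update ((x ∘ eQ (Q1 K) β) ∘ some)
            (Sum.inl (some (Sum.inl p)))
            ((x ∘ eQ (Q1 K) β) (some (Sum.inl (some (Sum.inl p)))) *
              (x ∘ eQ (Q1 K) β) none)) ∘ Sum.inl) none = x (Sum.inl none) := by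
          rw [Function.comp_apply, Function.update_of_ne (by simp)]
          rfl
        rw [e2, e3, e4, mul_assoc]
      simp only [h2]
      rw [← Finset.sum_smul, ← Finset.sum_mul, DD_trace, smul_smul]
      congr 1
      have hc : (Fintype.card K : ℝ) ≠ 0 := by exact_mod_cast Fintype.card_ne_zero
      have e5 : (x ∘ Sum.inr) none = x (Sum.inr none) := rfl
      have e6 : (x ∘ Sum.inr) ∘ some = fun b => x (Sum.inr (some b)) := rfl
      rw [QQ, e5, e6]
      have e7 : (DD fun p => (x ∘ Sum.inl) (some (Sum.inl p))) =
        DD fun p => x (Sum.inl (some (Sum.inl p))) := rfl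
      have e8 : (HH fun c => (x ∘ Sum.inl) (some (Sum.inr c))) * (x ∘ Sum.inl) none =
        (HH fun c => x (Sum.inl (some (Sum.inr c)))) * x (Sum.inl none) := rfl
      rw [e7, e8]
      field_simp
    · -- the new letter is not a fixed point
      obtain ⟨a, ha⟩ : ∃ a : β, σ (some a) = none := by
        rcases h1 : σ.symm none with _ | a
        · exfalso
          have h2 := (Equiv.symm_apply_eq σ).1 h1
          rw [hσ] at h2
          simp at h2
        · exact ⟨a, ((Equiv.symm_apply_eq σ).1 h1).symm⟩
      let F : (Q1 K ⊕ β → MK K) → MK K := fun x =>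
        (QQ (x ∘ Sum.inl) * Tr (Equiv.removeNone σ) (x ∘ Sum.inr)) • (1 : MK K)
      have hF : F ∈ R K (Q1 K ⊕ β) := ih inferInstance _
      have h1 := R_re (eQ (Q1 K) β) (R_sub hF (Sum.inr a))
      convert h1 using 1
      funext x
      show _ = (QQ _ * Tr _ _) • (1 : MK K)
      congr 1
      rw [Tr_sub σ a ha]
      have e1 : (Function.update ((x ∘ eQ (Q1 K) β) ∘ some) (Sum.inr a)
          ((x ∘ eQ (Q1 K) β) (some (Sum.inr a)) * (x ∘ eQ (Q1 K) β) none)) ∘ Sum.inl =
          x ∘ Sum.inl := by
        funext q
        rw [Function.comp_apply, Function.update_of_ne (by simp)]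
        rfl
      have e2 : (Function.update ((x ∘ eQ (Q1 K) β) ∘ some) (Sum.inr a)
          ((x ∘ eQ (Q1 K) β) (some (Sum.inr a)) * (x ∘ eQ (Q1 K) β) none)) ∘ Sum.inr =
          Function.update ((x ∘ Sum.inr) ∘ some) a ((x ∘ Sum.inr) (some a) *
            (x ∘ Sum.inr) none) := by
        funext b
        by_cases hb : b = a
        · subst hb
          rw [Function.comp_apply, Function.update_self, Function.update_self]
          rfl
        · rw [Function.comp_apply, Function.update_of_ne (by simpa using hb),
            Function.update_of_ne hb]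
          rfl
      rw [e1, e2]

theorem claimB' (β : Type) [Finite β] : ∀ (_ : Finite β) (σ : Equiv.Perm (Option β)), ∃ f ∈ R K (Q1 K ⊕ β), ∀ (x : Q1 K → MK K) (y : Option β → MK K),
      QQ x * Tr σ y = Matrix.trace (f (Sum.elim x (y ∘ some)) * y none) := by
  have hfix : ∀ (β : Type) (_ : Finite β)
    (σ : Equiv.Perm (Option β)), σ none = none → ∃ f ∈ R K (Q1 K ⊕ β),
      ∀ (x : Q1 K → MK K) (y : Option β → MK K),
        QQ x * Tr σ y = Matrix.trace (f (Sum.elim x (y ∘ some)) * y none) := by
    intro β _ σ hσ
    refine ⟨_, claimB β inferInstance (Equiv.removeNone σ), fun x y => ?_⟩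
    rw [Tr_fix σ hσ, Matrix.smul_mul, one_mul, Matrix.trace_smul, smul_eq_mul]
    have e1 : (Sum.elim x (y ∘ some)) ∘ Sum.inl = x := rfl
    have e2 : (Sum.elim x (y ∘ some)) ∘ Sum.inr = y ∘ some := rfl
    rw [e1, e2]
    ring
  refine Finite.induction_empty_option (P := fun β => ∀ (_ : Finite β) (σ : Equiv.Perm (Option β)), ∃ f ∈ R K (Q1 K ⊕ β), ∀ (x : Q1 K → MK K) (y : Option β → MK K),
      QQ x * Tr σ y = Matrix.trace (f (Sum.elim x (y ∘ some)) * y none)) ?_ ?_ ?_ β
  · intro β β' e ih _ σ
    have : Finite β := Finite.of_equiv β' e.symm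
    let e' : Option β ≃ Option β' := Equiv.optionCongr e
    obtain ⟨f, hf, hf'⟩ := ih inferInstance ((e'.trans σ).trans e'.symm)
    refine ⟨_, R_re (Equiv.sumCongr (Equiv.refl (Q1 K)) e) hf, fun x y => ?_⟩
    rw [Tr_re e' σ, hf']
    congr 2
    congr 1
    funext c
    rcases c with c | c <;> rfl
  · intro _ σ
    refine hfix PEmpty inferInstance σ ?_
    rcases h : σ none with _ | b
    · rfl
    · exact b.elim
  · intro β _ ih _ σ
    classical
    by_cases hσ : σ none = none
    · exact hfix _ inferInstance σ hσ
    · obtain ⟨a, ha⟩ : ∃ a : Option β, σ (some a) = none := by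
        rcases h1 : σ.symm none with _ | a
        · exact absurd ((Equiv.symm_apply_eq σ).1 h1).symm hσ
        · exact ⟨a, ((Equiv.symm_apply_eq σ).1 h1).symm⟩
      let e : Option β ≃ Option β := Equiv.swap a none
      have he : e none = a := Equiv.swap_apply_right a none
      obtain ⟨f, hf, hf'⟩ := ih inferInstance
        ((e.trans (Equiv.removeNone σ)).trans e.symm)
      refine ⟨_, R_re ((eQ (Q1 K) β).trans (Equiv.sumCongr (Equiv.refl (Q1 K)) e)) (R_app hf),
        fun x y => ?_⟩
      rw [Tr_sub σ a ha, Tr_re e, hf']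
      have hne : ∀ b, e (some b) ≠ a := by
        intro b h
        rw [← he] at h
        have := e.injective h
        simp at this
      have e1 : (Function.update (y ∘ some) a (y (some a) * y none) ∘ ⇑e) none =
          y (some a) * y none := by
        rw [Function.comp_apply, he, Function.update_self]
      have e2 : (Function.update (y ∘ some) a (y (some a) * y none) ∘ ⇑e) ∘ some =
          fun b => y (some (e (some b))) := by
        funext b
        rw [Function.comp_apply, Function.comp_apply, Function.update_of_ne (hne b)]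
        rfl
      rw [e1, e2, ← mul_assoc]
      congr 2
      have e3 : (Sum.elim x (y ∘ some) ∘ ⇑((eQ (Q1 K) β).trans
          (Equiv.sumCongr (Equiv.refl (Q1 K)) e))) none = y (some a) := by
        show y (some (e none)) = _
        rw [he]
      rw [e3]
      congr 2
      funext c
      rcases c with c | c <;> rfl

end Pool.Agent.H43CC
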