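import Mathlib
import Pool.Agent.H43CC.Claim
import Pool.Agent.H43CC.LogConv

set_option autoImplicit false

namespace Pool.Agent.H43CC

open Module

variable {K : Type} [Fintype K] [DecidableEq K]

/-- The coordinate array of a function. -/
def co {γ : Type} (u : (γ → MK K) → ℝ) (i j : γ → K) : ℝ := u (fun a => E0 (j a, i a))

omit [Fintype K] in
theorem E0_apply (p : K × K) (a b : K) : E0 p a b = if p.1 = a ∧ p.2 = b then 1 else 0 := by
  rw [E0, Matrix.single_apply]

theorem co_Tr {γ : Type} [Finite γ] (σ : Equiv.Perm γ) : co (Tr σ) = dl (K := K) σ := by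
  classical
  have := Fintype.ofFinite γ
  funext i j
  unfold co
  rw [Tr_eq]
  have h1 : ∀ m : γ → K, m ≠ j → ∏ a, E0 (j a, i a) (m a) (m (σ a)) = 0 := by
    intro m hm
    obtain ⟨a, ha⟩ := Function.ne_iff.1 hm
    refine Finset.prod_eq_zero (Finset.mem_univ a) ?_
    rw [E0_apply, if_neg]
    rintro ⟨h2, _⟩
    exact ha h2.symm
  rw [Finset.sum_eq_single j (fun m _ hm => h1 m hm) (by simp)]
  unfold dl
  by_cases h : i = j ∘ σ
  · rw [if_pos h]
    refine Finset.prod_eq_one fun a _ => ?_
    rw [E0_apply, if_pos]
    exact ⟨rfl, congrFun h a⟩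
  · rw [if_neg h]
    obtain ⟨a, ha⟩ := Function.ne_iff.1 h
    refine Finset.prod_eq_zero (Finset.mem_univ a) ?_
    rw [E0_apply, if_neg]
    rintro ⟨_, h2⟩
    exact ha h2

/-- Composable pairs. -/
def CR (p q : K × K) : Prop := p.2 = q.1

theorem CR_cons (p q : K × K) (L : List (K × K)) :
    (p :: q :: L).IsChain CR ↔ p.2 = q.1 ∧ (q :: L).IsChain CR :=
  List.isChain_cons_cons (R := CR)

open scoped Classical in
theorem prod_E0 (L : List (K × K)) : ∀ (h : L ≠ []), (L.map E0).prod =
    if L.IsChain CR then E0 ((L.head h).1, (L.getLast h).2) else 0 := by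
  induction L with
  | nil => intro h; exact absurd rfl h
  | cons p L ih =>
    intro h
    rcases L with _ | ⟨q, L⟩
    · simp
    · rw [List.map_cons, List.prod_cons, ih (by simp)]
      by_cases h1 : (q :: L).IsChain CR
      · by_cases h2 : p.2 = q.1
        · rw [if_pos h1, if_pos ((CR_cons p q L).2 ⟨h2, h1⟩)]
          simp only [E0, List.head_cons, h2]
          rw [Matrix.single_mul_single_same, mul_one]
          simp
        · rw [if_pos h1, if_neg (fun h3 => h2 ((CR_cons p q L).1 h3).1)]
          simp only [E0, List.head_cons]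
          exact Matrix.single_mul_single_of_ne _ _ _ _ h2 _
      · rw [if_neg h1, if_neg (fun h3 => h1 ((CR_cons p q L).1 h3).2), mul_zero]

theorem co_Wd {γ : Type} [DecidableEq γ] {L : List γ} (hL : Enum L) (hne : L ≠ []) :
    co (fun x => Matrix.trace (Wd L x)) = dl (K := K) L.formPerm := by
  classical
  funext i j
  unfold co dl Wd
  have hne' : L.map (fun a => (j a, i a)) ≠ [] := by simpa using hne
  have h0 : L.map (fun a => E0 (j a, i a)) = (L.map (fun a => (j a, i a))).map E0 := by
    rw [List.map_map]; rfl
  show Matrix.trace ((L.map (fun a => E0 (j a, i a))).prod) = _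
  rw [h0, prod_E0 _ hne']
  have hlen : 0 < L.length := List.length_pos_iff.2 hne
  have hlast : (L.map (fun a => (j a, i a))).getLast hne' =
      (j (L[L.length - 1]), i (L[L.length - 1])) := by
    rw [List.getLast_eq_getElem]
    simp
  have hhead : (L.map (fun a => (j a, i a))).head hne' = (j (L[0]), i (L[0])) := by
    rw [List.head_eq_getElem]
    simp
  have key : ((L.map (fun a => (j a, i a))).IsChain CR ∧
      i (L[L.length - 1]) = j (L[0])) ↔ i = j ∘ L.formPerm := by
    rw [List.isChain_iff_getElem]
    constructor
    · rintro ⟨h1, h2⟩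
      funext a
      obtain ⟨t, ht, rfl⟩ := List.getElem_of_mem (hL.2 a)
      rw [Function.comp_apply, List.formPerm_apply_getElem _ hL.1 t ht]
      by_cases h3 : t + 1 < L.length
      · have h4 := h1 t (by simpa using h3)
        simp only [List.getElem_map, CR] at h4
        rw [h4]
        congr 2
        exact (Nat.mod_eq_of_lt h3).symm
      · have h5 : t = L.length - 1 := by omega
        subst h5
        rw [h2]
        congr 2
        have : L.length - 1 + 1 = L.length := by omega
        rw [this, Nat.mod_self]
    · intro h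
      constructor
      · intro t ht
        have h3 : t + 1 < L.length := by simpa using ht
        simp only [List.getElem_map, CR]
        rw [congrFun h, Function.comp_apply, List.formPerm_apply_lt_getElem _ hL.1 t h3]
      · rw [congrFun h, Function.comp_apply, List.formPerm_apply_getElem _ hL.1 _ (by omega)]
        congr 2
        have : L.length - 1 + 1 = L.length := by omega
        rw [this, Nat.mod_self]
  by_cases hc : (L.map (fun a => (j a, i a))).IsChain CR
  · rw [if_pos hc, hhead, hlast]
    by_cases h2 : i (L[L.length - 1]) = j (L[0])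
    · rw [if_pos (key.1 ⟨hc, h2⟩)]
      simp [E0, h2]
    · rw [if_neg (fun h3 => h2 (key.2 h3).2)]
      simp only [E0]
      exact Matrix.trace_single_eq_of_ne _ _ _ (fun h3 => h2 h3.symm)
  · rw [if_neg hc, if_neg (fun h3 => hc (key.2 h3).1), Matrix.trace_zero]

/-- The closure of a function. -/
def hat {α : Type} (f : (α → MK K) → MK K) (x : Option α → MK K) : ℝ :=
  Matrix.trace (f (x ∘ some) * x none)

theorem co_hat {α : Type} {f : (α → MK K) → MK K} (hf : f ∈ R K α) :
    co (hat f) ∈ Cc K (Option α) (Option α) := by
  classical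
  refine R_induction (p := fun f => co (hat f) ∈ Cc K (Option α) (Option α)) hf ?_ ?_ ?_ ?_
  · intro l hl
    have h1 : hat (K := K) (Wd l) = fun x => Matrix.trace (Wd (l.map some ++ [none]) x) := by
      funext x
      rw [hat, Wd_append, Wd_map, Wd_cons]
      simp [Wd]
    rw [h1]
    have hL : Enum (l.map some ++ [none]) := by
      refine Enum_option ?_ (by simp) ?_
      · rw [List.nodup_append]
        refine ⟨hl.1.map (Option.some_injective α), by simp, ?_⟩
        intro a ha b hb
        rw [List.mem_singleton] at hb
        subst hb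
        rintro rfl
        simp at ha
      · intro b
        simp [hl.2 b]
    rw [co_Wd hL (by simp)]
    exact dl_mem _
  · have : co (hat (K := K) (α := α) 0) = 0 := by
      funext i j; simp [co, hat]
    rw [this]; exact Submodule.zero_mem _
  · intro f g hf hg
    have : co (hat (f + g)) = co (hat f) + co (hat g) := by
      funext i j; simp [co, hat, add_mul]
    rw [this]; exact Submodule.add_mem _ hf hg
  · intro r f hf
    have : co (hat (r • f)) = r • co (hat f) := by
      funext i j; simp [co, hat]
    rw [this]; exact Submodule.smul_mem _ r hf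

theorem hat_entry {α : Type} (f : (α → MK K) → MK K) (i j : α → K) (s t : K) :
    co (hat f) (oc s i) (oc t j) = f (fun a => E0 (j a, i a)) s t := by
  unfold co hat
  have h1 : (fun a : Option α => E0 (K := K) (oc t j a, oc s i a)) ∘ some =
      fun a => E0 (j a, i a) := rfl
  have h2 : (fun a : Option α => E0 (K := K) (oc t j a, oc s i a)) none = E0 (t, s) := rfl
  rw [h1, h2, E0]
  simp [Matrix.trace, Matrix.mul_apply, Matrix.single_apply, ite_and]

theorem co_trace {α : Type} {f : (α → MK K) → MK K} (hf : f ∈ R K α) :
    co (fun x => Matrix.trace (f x)) ∈ Cc K α α := by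
  have h1 := Cc_contr1 (co_hat hf)
  have h2 : (fun i j => ∑ s : K, co (hat f) (oc s i) (oc s j)) =
      co (fun x => Matrix.trace (f x)) := by
    funext i j
    simp only [hat_entry]
    rfl
  rw [h2] at h1
  exact h1

theorem co_QQ [Nonempty K] : co (QQ (K := K)) ∈ Cc K (Q1 K) (Q1 K) := by
  have h1 := co_trace (QQ_mem (K := K))
  have hc : (Fintype.card K : ℝ) ≠ 0 := by exact_mod_cast Fintype.card_ne_zero
  have h2 : co (QQ (K := K)) = (Fintype.card K : ℝ)⁻¹ •
      co (fun x : Q1 K → MK K => Matrix.trace (QQ x • (1 : MK K))) := by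
    funext i j
    simp only [co, Pi.smul_apply, Matrix.trace_smul, Matrix.trace_one, smul_eq_mul]
    field_simp
  rw [h2]
  exact Submodule.smul_mem _ _ h1

end Pool.Agent.H43CC
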