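import Mathlib
import Pool.Agent.H43CC.Coord

set_option autoImplicit false

namespace Pool.Agent.H43CC

open Module

section dim

variable {V : Type} [AddCommGroup V] [Module ℝ V]

/-- The part of `C` orthogonal to `Z`. -/
def orth (B : V →ₗ[ℝ] V →ₗ[ℝ] ℝ) (C Z : Submodule ℝ V) : Submodule ℝ V where
  carrier := {φ | φ ∈ C ∧ ∀ z ∈ Z, B φ z = 0}
  add_mem' {a b} ha hb := ⟨C.add_mem ha.1 hb.1, fun z hz => by
    rw [map_add, LinearMap.add_apply, ha.2 z hz, hb.2 z hz, add_zero]⟩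
  zero_mem' := ⟨C.zero_mem, fun z _ => by simp⟩
  smul_mem' r a ha := ⟨C.smul_mem r ha.1, fun z hz => by
    rw [map_smul, LinearMap.smul_apply, ha.2 z hz, smul_zero]⟩

theorem dim_le [FiniteDimensional ℝ V] (B : V →ₗ[ℝ] V →ₗ[ℝ] ℝ) (C Z : Submodule ℝ V) :
    finrank ℝ C ≤ finrank ℝ Z + finrank ℝ (orth B C Z) := by
  let Λ : C →ₗ[ℝ] (Z →ₗ[ℝ] ℝ) :=
    { toFun := fun φ => (B φ.1).comp Z.subtype
      map_add' := fun a b => by ext z; simp
      map_smul' := fun r a => by ext z; simp }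
  have h1 := LinearMap.finrank_range_add_finrank_ker Λ
  have h2 : finrank ℝ (LinearMap.range Λ) ≤ finrank ℝ (Z →ₗ[ℝ] ℝ) := Submodule.finrank_le _
  have h3 : finrank ℝ (Z →ₗ[ℝ] ℝ) = finrank ℝ Z := by
    rw [finrank_linearMap, finrank_self, mul_one]
  let κ : LinearMap.ker Λ →ₗ[ℝ] orth B C Z :=
    { toFun := fun φ => ⟨φ.1.1, φ.1.2, fun z hz => by
        have h4 : Λ φ.1 = 0 := φ.2
        exact LinearMap.congr_fun h4 ⟨z, hz⟩⟩
      map_add' := fun _ _ => rfl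
      map_smul' := fun _ _ => rfl }
  have hκ : Function.Injective κ := by
    intro a b hab
    have h5 : (κ a).1 = (κ b).1 := by rw [hab]
    exact Subtype.ext (Subtype.ext h5)
  have h4 := LinearMap.finrank_le_finrank_of_injective hκ
  omega

end dim

variable {K : Type} [Fintype K] [DecidableEq K]

theorem sum_split {Q β γ M : Type} [Fintype Q] [DecidableEq Q] [Fintype β] [DecidableEq β]
    [Fintype γ] [DecidableEq γ] [AddCommMonoid M] (ε : Q ⊕ β ≃ γ) (f : (γ → K) → M) :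
    ∑ I, f I = ∑ s : Q → K, ∑ i : β → K, f (Sum.elim s i ∘ ε.symm) := by
  rw [← Fintype.sum_prod_type']
  refine Fintype.sum_equiv ((Equiv.arrowCongr ε.symm (Equiv.refl K)).trans
    (Equiv.sumArrowEquivProdArrow Q β K)) _ _ fun I => ?_
  congr 1
  funext c
  obtain ⟨d, rfl⟩ := ε.surjective c
  rcases d with d | d <;> simp [Equiv.sumArrowEquivProdArrow]

/-- The contraction with the conductor. -/
noncomputable def ctr {Q β γ : Type} [Fintype Q] [DecidableEq Q] (q : (Q → K) → (Q → K) → ℝ)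
    (ε : Q ⊕ β ≃ γ) (φ : (γ → K) → (γ → K) → ℝ) (i j : β → K) : ℝ :=
  ∑ s : Q → K, ∑ t : Q → K, q s t *
    φ (Sum.elim s i ∘ ε.symm) (Sum.elim t j ∘ ε.symm)

theorem ctr_mem {Q β γ : Type} [Fintype Q] [DecidableEq Q] {q : (Q → K) → (Q → K) → ℝ}
    (hq : q ∈ Cc K Q Q) (ε : Q ⊕ β ≃ γ) {φ : (γ → K) → (γ → K) → ℝ}
    (hφ : φ ∈ Cc K γ γ) : ctr q ε φ ∈ Cc K β β := by
  have h1 := Cc_comp (Q ⊕ Q) (A := β) (B := β) (Equiv.sumAssoc (Q) (Q) β)
    ((Equiv.sumCongr (Equiv.sumComm (Q) (Q)) (Equiv.refl β)).trans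
      (Equiv.sumAssoc (Q) (Q) β)) (Cc_swap hq) (Cc_re ε ε hφ)
  convert h1 using 1
  funext i j
  unfold ctr
  rw [Finset.sum_comm, ← Fintype.sum_prod_type']
  refine (Fintype.sum_equiv (Equiv.sumArrowEquivProdArrow (Q) (Q) K) _ _ fun S => ?_).symm
  congr 1
  congr 1
  · funext c
    obtain ⟨d, rfl⟩ := ε.surjective c
    rcases d with d | d <;> simp [Equiv.sumArrowEquivProdArrow]
  · funext c
    obtain ⟨d, rfl⟩ := ε.surjective c
    rcases d with d | d <;> simp [Equiv.sumArrowEquivProdArrow]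

theorem ortho_contr {Q γ β : Type} [Fintype Q] [DecidableEq Q] [Fintype γ] [DecidableEq γ]
    [Fintype β] [DecidableEq β] {q : (Q → K) → (Q → K) → ℝ} (hq : q ∈ Cc K Q Q) (ε : Q ⊕ β ≃ γ) (W : Submodule ℝ ((γ → K) → (γ → K) → ℝ))
    (hW : ∀ σ : β ≃ β, (fun i j => q (i ∘ ε ∘ Sum.inl) (j ∘ ε ∘ Sum.inl) *
      dl σ (i ∘ ε ∘ Sum.inr) (j ∘ ε ∘ Sum.inr)) ∈ W)
    {φ : (γ → K) → (γ → K) → ℝ} (hφ : φ ∈ Cc K γ γ)
    (ho : ∀ w ∈ W, ∑ i, ∑ j, φ i j * w i j = 0) : ctr q ε φ = 0 := by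
  have h1 : ∀ χ ∈ Cc K β β, (fun i j => q (i ∘ ε ∘ Sum.inl) (j ∘ ε ∘ Sum.inl) *
      χ (i ∘ ε ∘ Sum.inr) (j ∘ ε ∘ Sum.inr)) ∈ W := by
    intro χ hχ
    refine Submodule.span_induction (p := fun χ _ =>
      (fun i j => q (i ∘ ε ∘ Sum.inl) (j ∘ ε ∘ Sum.inl) *
      χ (i ∘ ε ∘ Sum.inr) (j ∘ ε ∘ Sum.inr)) ∈ W) ?_ ?_ ?_ ?_ hχ
    · rintro _ ⟨σ, rfl⟩
      exact hW σ
    · have : (fun i j => q (i ∘ ε ∘ Sum.inl) (j ∘ ε ∘ Sum.inl) *
          (0 : (β → K) → (β → K) → ℝ) (i ∘ ε ∘ Sum.inr) (j ∘ ε ∘ Sum.inr)) =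
          (0 : (γ → K) → (γ → K) → ℝ) := by
        funext i j; simp
      rw [this]; exact W.zero_mem
    · intro x y _ _ hx hy
      have : (fun i j => q (i ∘ ε ∘ Sum.inl) (j ∘ ε ∘ Sum.inl) *
          (x + y) (i ∘ ε ∘ Sum.inr) (j ∘ ε ∘ Sum.inr)) =
          (fun i j => q (i ∘ ε ∘ Sum.inl) (j ∘ ε ∘ Sum.inl) *
            x (i ∘ ε ∘ Sum.inr) (j ∘ ε ∘ Sum.inr)) +
          (fun i j => q (i ∘ ε ∘ Sum.inl) (j ∘ ε ∘ Sum.inl) *
            y (i ∘ ε ∘ Sum.inr) (j ∘ ε ∘ Sum.inr)) := by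
        funext i j; simp [mul_add]
      rw [this]; exact W.add_mem hx hy
    · intro r x _ hx
      have : (fun i j => q (i ∘ ε ∘ Sum.inl) (j ∘ ε ∘ Sum.inl) *
          (r • x) (i ∘ ε ∘ Sum.inr) (j ∘ ε ∘ Sum.inr)) =
          r • (fun i j => q (i ∘ ε ∘ Sum.inl) (j ∘ ε ∘ Sum.inl) *
            x (i ∘ ε ∘ Sum.inr) (j ∘ ε ∘ Sum.inr)) := by
        funext i j; simp; ring
      rw [this]; exact W.smul_mem r hx
  have h2 := ho _ (h1 _ (ctr_mem hq ε hφ))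
  have h3 : ∑ I, ∑ J, φ I J * (q (I ∘ ε ∘ Sum.inl) (J ∘ ε ∘ Sum.inl) *
      ctr q ε φ (I ∘ ε ∘ Sum.inr) (J ∘ ε ∘ Sum.inr)) =
      ∑ i : β → K, ∑ j : β → K, ctr q ε φ i j * ctr q ε φ i j := by
    rw [sum_split ε]
    simp only [sum_split ε (M := ℝ)]
    have h4 : ∀ (s : Q → K) (i : β → K), (Sum.elim s i ∘ ε.symm) ∘ ε ∘ Sum.inl = s := by
      intro s i; funext c; simp
    have h5 : ∀ (s : Q → K) (i : β → K), (Sum.elim s i ∘ ε.symm) ∘ ε ∘ Sum.inr = i := by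
      intro s i; funext c; simp
    simp only [h4, h5]
    rw [Finset.sum_comm]
    refine Finset.sum_congr rfl fun i _ => ?_
    have h6 : ∀ s : Q → K, ∑ t : Q → K, ∑ j : β → K,
        φ (Sum.elim s i ∘ ε.symm) (Sum.elim t j ∘ ε.symm) * (q s t * ctr q ε φ i j) =
        ∑ j : β → K, (∑ t : Q → K, q s t *
          φ (Sum.elim s i ∘ ε.symm) (Sum.elim t j ∘ ε.symm)) * ctr q ε φ i j := by
      intro s
      rw [Finset.sum_comm]
      refine Finset.sum_congr rfl fun j _ => ?_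
      rw [Finset.sum_mul]
      refine Finset.sum_congr rfl fun t _ => ?_
      ring
    simp only [h6]
    rw [Finset.sum_comm]
    refine Finset.sum_congr rfl fun j _ => ?_
    rw [← Finset.sum_mul]
    rfl
  rw [h3] at h2
  funext i j
  have h4 := (Finset.sum_eq_zero_iff_of_nonneg (fun i _ =>
    Finset.sum_nonneg fun j _ => mul_self_nonneg (ctr q ε φ i j))).1 h2 i (Finset.mem_univ i)
  have h5 := (Finset.sum_eq_zero_iff_of_nonneg (fun j _ =>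
    mul_self_nonneg (ctr q ε φ i j))).1 h4 j (Finset.mem_univ j)
  exact mul_self_eq_zero.1 h5

end Pool.Agent.H43CC
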