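import Mathlib
import Pool.Agent.H43CC.Ortho
import Pool.Agent.H43CC.Codim
import Pool.Agent.H43CC.Grow

set_option autoImplicit false

namespace Pool.Agent.H43CC

open Module

variable {K : Type} [Fintype K] [DecidableEq K]

theorem R_ext {α : Type} [Finite α] {f : (α → MK K) → MK K} (hf : f ∈ R K α)
    (h : ∀ y : α → K × K, f (fun a => E0 (y a)) = 0) : f = 0 := by
  obtain ⟨m, hm⟩ := R_ml hf
  have h1 : m = 0 := by
    refine Basis.ext_multilinear (fun _ => Matrix.stdBasis ℝ K K) fun y => ?_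
    have h2 : (fun i => (Matrix.stdBasis ℝ K K) (y i)) = fun a => E0 (y a) := by
      funext a
      rw [E0]
      exact Matrix.stdBasis_eq_single ℝ (y a).1 (y a).2
    rw [h2, hm, h]
    rfl
  funext x
  rw [← hm, h1]
  rfl

/-- The coordinates of the trace of a function. -/
def trL (K α : Type) [Fintype K] [DecidableEq K] :
    ((α → MK K) → MK K) →ₗ[ℝ] ((α → K) → (α → K) → ℝ) where
  toFun f := co (fun x => Matrix.trace (f x))
  map_add' f g := by funext i j; simp [co]
  map_smul' r f := by funext i j; simp [co]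

/-- The coordinates of the closure of a function. -/
def haL (K α : Type) [Fintype K] [DecidableEq K] :
    ((α → MK K) → MK K) →ₗ[ℝ] ((Option α → K) → (Option α → K) → ℝ) where
  toFun f := co (hat f)
  map_add' f g := by funext i j; simp [co, hat, add_mul]
  map_smul' r f := by funext i j; simp [co, hat]

/-- The central functions. -/
def Ze (K α : Type) [Fintype K] [DecidableEq K] : Submodule ℝ ((α → MK K) → MK K) where
  carrier := {f | f ∈ R K α ∧ ∀ x, ∃ r : ℝ, f x = r • (1 : MK K)}
  add_mem' {f g} hf hg := ⟨Submodule.add_mem _ hf.1 hg.1, fun x => by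
    obtain ⟨r, hr⟩ := hf.2 x
    obtain ⟨s, hs⟩ := hg.2 x
    exact ⟨r + s, by rw [Pi.add_apply, hr, hs, add_smul]⟩⟩
  zero_mem' := ⟨Submodule.zero_mem _, fun x => ⟨0, by simp⟩⟩
  smul_mem' c f hf := ⟨Submodule.smul_mem _ c hf.1, fun x => by
    obtain ⟨r, hr⟩ := hf.2 x
    exact ⟨c * r, by rw [Pi.smul_apply, hr, smul_smul]⟩⟩

theorem trL_inj [Nonempty K] {α : Type} [Finite α] {f : (α → MK K) → MK K} (hf : f ∈ Ze K α)
    (h : trL K α f = 0) : f = 0 := by
  refine R_ext hf.1 fun y => ?_
  obtain ⟨r, hr⟩ := hf.2 (fun a => E0 (y a))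
  have h1 : Matrix.trace (f (fun a => E0 (y a))) = 0 :=
    congrFun (congrFun h (fun a => (y a).2)) (fun a => (y a).1)
  have hc : (Fintype.card K : ℝ) ≠ 0 := by exact_mod_cast Fintype.card_ne_zero
  rw [hr, Matrix.trace_smul, Matrix.trace_one, smul_eq_mul] at h1
  have h2 : r = 0 := (mul_eq_zero.1 h1).resolve_right hc
  rw [hr, h2, zero_smul]

theorem haL_inj {α : Type} [Finite α] {f : (α → MK K) → MK K} (hf : f ∈ R K α)
    (h : haL K α f = 0) : f = 0 := by
  refine R_ext hf fun y => ?_
  ext s t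
  have h1 : co (hat f) (oc s (fun a => (y a).2)) (oc t (fun a => (y a).1)) = 0 :=
    congrFun (congrFun h _) _
  rw [hat_entry] at h1
  exact h1

theorem finrank_map_inj {V W : Type} [AddCommGroup V] [Module ℝ V] [AddCommGroup W] [Module ℝ W]
    (L : V →ₗ[ℝ] W) (S : Submodule ℝ V) (h : ∀ v ∈ S, L v = 0 → v = 0) :
    finrank ℝ (S.map L) = finrank ℝ S := by
  have h1 : Function.Injective (L.domRestrict S) := by
    rw [injective_iff_map_eq_zero]
    intro v hv
    exact Subtype.ext (h v.1 v.2 hv)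
  have h2 := LinearMap.finrank_range_of_inj h1
  rw [← h2, LinearMap.range_domRestrict]

theorem Ze_le [Nonempty K] (n : ℕ) : finrank ℝ (Ze K (Fin n)) ≤ T K (Fin n) := by
  rw [← finrank_map_inj (trL K (Fin n)) (Ze K (Fin n)) (fun f hf h => trL_inj hf h)]
  refine Submodule.finrank_mono ?_
  rintro _ ⟨f, hf, rfl⟩
  exact co_trace hf.1

theorem R_le (n : ℕ) : finrank ℝ (R K (Fin n)) ≤ T K (Option (Fin n)) := by
  rw [← finrank_map_inj (haL K (Fin n)) (R K (Fin n)) (fun f hf h => haL_inj hf h)]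
  refine Submodule.finrank_mono ?_
  rintro _ ⟨f, hf, rfl⟩
  exact co_hat hf

/-- The pairing. -/
def pair (γ : Type) [Fintype γ] [DecidableEq γ] :
    ((γ → K) → (γ → K) → ℝ) →ₗ[ℝ] ((γ → K) → (γ → K) → ℝ) →ₗ[ℝ] ℝ :=
  LinearMap.mk₂ ℝ (fun φ w => ∑ i, ∑ j, φ i j * w i j)
    (by intro a b w; simp [add_mul, Finset.sum_add_distrib])
    (by intro r a w; simp [Finset.mul_sum, mul_assoc])
    (by intro a b w; simp [mul_add, Finset.sum_add_distrib])
    (by intro r a w; simp [Finset.mul_sum, mul_left_comm])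

/-- The coordinate word-array of the conductor. -/
noncomputable def qw (K : Type) [Fintype K] [DecidableEq K] (x : Fin (Fintype.card (Q1 K)) → K × K) : ℝ :=
  co QQ (fun c => (x (Fintype.equivFin (Q1 K) c)).2) (fun c => (x (Fintype.equivFin (Q1 K) c)).1)

theorem qw_ne [Nonempty K] : qw K ≠ 0 := by
  obtain ⟨o⟩ := ‹Nonempty K›
  intro h
  -- the special point consists of matrix units
  let y : Q1 K → K × K := fun c => c.elim (o, o) (Sum.elim id (Sum.elim (fun p => (o, p.1))
    (fun p => (p.2, o))))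
  have h1 : (fun c => E0 (y c)) = x0 o := by
    funext c
    rcases c with _ | (c | (c | c)) <;> rfl
  have h2 := congrFun h (fun t => y ((Fintype.equivFin (Q1 K)).symm t))
  have h3 : qw K (fun t => y ((Fintype.equivFin (Q1 K)).symm t)) = QQ (fun c => E0 (y c)) := by
    unfold qw co
    simp
  rw [h3, h1, QQ_x0] at h2
  exact one_ne_zero h2

/-- The decomposition of an index set. -/
noncomputable def dec {n m : ℕ} {Q : Type} (e : Q ≃ Fin m) (g : Fin m → Fin n)
    (hg : Function.Injective g) : Q ⊕ {a : Fin n // ¬ (a ∈ Set.range g)} ≃ Fin n := by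
  classical
  exact (Equiv.sumCongr (e.trans (Equiv.ofInjective g hg)) (Equiv.refl _)).trans
    (Equiv.sumCompl (fun a => a ∈ Set.range g))

theorem dec_inl {n m : ℕ} {Q : Type} (e : Q ≃ Fin m) (g : Fin m → Fin n)
    (hg : Function.Injective g) (c : Q) : dec e g hg (Sum.inl c) = g (e c) := by
  simp [dec]

theorem dec_inr {n m : ℕ} {Q : Type} (e : Q ≃ Fin m) (g : Fin m → Fin n)
    (hg : Function.Injective g) (b : {a : Fin n // ¬ (a ∈ Set.range g)}) :
    dec e g hg (Sum.inr b) = b.1 := by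
  simp [dec]

theorem extend_dec {n m : ℕ} {Q : Type} (e : Q ≃ Fin m) (g : Fin m → Fin n)
    (hg : Function.Injective g) (x : Fin m → K × K) (y : Fin n → K × K) :
    Function.extend g x y = Sum.elim (fun c => x (e c)) (fun b => y b.1) ∘ (dec e g hg).symm := by
  funext a
  obtain ⟨d, rfl⟩ := (dec e g hg).surjective a
  rw [Function.comp_apply, Equiv.symm_apply_apply]
  rcases d with c | b
  · rw [dec_inl, hg.extend_apply]
    rfl
  · rw [dec_inr, Function.extend_apply']
    · rfl
    · rintro ⟨t, ht⟩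
      exact b.2 ⟨t, ht⟩

theorem ctr_word {n m : ℕ} {Q : Type} [Fintype Q] [DecidableEq Q]
    (q : (Q → K) → (Q → K) → ℝ) (e : Q ≃ Fin m) (g : Fin m → Fin n)
    (hg : Function.Injective g) (Φ : (Fin n → K) → (Fin n → K) → ℝ) (y : Fin n → K × K) :
    ∑ x : Fin m → K × K, q (fun c => (x (e c)).2) (fun c => (x (e c)).1) *
      Φ (fun a => (Function.extend g x y a).2) (fun a => (Function.extend g x y a).1) =
    ctr q (dec e g hg) Φ (fun b => (y b.1).2) (fun b => (y b.1).1) := by
  unfold ctr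
  rw [← Fintype.sum_prod_type']
  let E : (Fin m → K × K) ≃ (Q → K) × (Q → K) :=
    { toFun := fun x => (fun c => (x (e c)).2, fun c => (x (e c)).1)
      invFun := fun p t => (p.2 (e.symm t), p.1 (e.symm t))
      left_inv := fun x => by funext t; simp
      right_inv := fun p => by simp }
  refine Fintype.sum_equiv E _ _ fun x => ?_
  congr 1
  rw [extend_dec e g hg]
  congr 1
  · funext a
    obtain ⟨d, rfl⟩ := (dec e g hg).surjective a
    simp only [Function.comp_apply, Equiv.symm_apply_apply]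
    rcases d with c | b <;> rfl
  · funext a
    obtain ⟨d, rfl⟩ := (dec e g hg).surjective a
    simp only [Function.comp_apply, Equiv.symm_apply_apply]
    rcases d with c | b <;> rfl

theorem lowerZ [Nonempty K] (n : ℕ) :
    T K (Fin n) ≤ finrank ℝ (Ze K (Fin n)) +
      finrank ℝ (Ann (Fintype.card (Q1 K)) n (qw K)) := by
  rw [← finrank_map_inj (trL K (Fin n)) (Ze K (Fin n)) (fun f hf h => trL_inj hf h)]
  have h1 := dim_le (pair (K := K) (Fin n)) (Cc K (Fin n) (Fin n))
    ((Ze K (Fin n)).map (trL K (Fin n)))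
  refine h1.trans (Nat.add_le_add_left ?_ _)
  have h2 : ∀ φ ∈ orth (pair (K := K) (Fin n)) (Cc K (Fin n) (Fin n))
      ((Ze K (Fin n)).map (trL K (Fin n))),
      (fun y : Fin n → K × K => φ (fun a => (y a).2) (fun a => (y a).1)) ∈
        Ann (Fintype.card (Q1 K)) n (qw K) := by
    intro φ hφ g hg y
    have h3 := ctr_word (co QQ) (Fintype.equivFin (Q1 K)) g hg φ y
    rw [show (∑ x, qw K x * (fun y : Fin n → K × K => φ (fun a => (y a).2) (fun a => (y a).1))
      (Function.extend g x y)) = _ from h3]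
    have h4 : ctr (co QQ) (dec (Fintype.equivFin (Q1 K)) g hg) φ = 0 := by
      classical
      refine ortho_contr co_QQ _ ((Ze K (Fin n)).map (trL K (Fin n))) ?_ hφ.1
        (fun w hw => hφ.2 w hw)
      intro σ
      set ε := dec (Fintype.equivFin (Q1 K)) g hg
      have h5 := R_re ε (claimB (K := K) _ inferInstance σ)
      have hc : (Fintype.card K : ℝ) ≠ 0 := by exact_mod_cast Fintype.card_ne_zero
      have h6 : (fun x : Fin n → MK K => (QQ ((x ∘ ε) ∘ Sum.inl) * Tr σ ((x ∘ ε) ∘ Sum.inr)) •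
          (1 : MK K)) ∈ Ze K (Fin n) := ⟨h5, fun x => ⟨_, rfl⟩⟩
      have h7 := Submodule.smul_mem _ ((Fintype.card K : ℝ)⁻¹)
        (Submodule.mem_map_of_mem (f := trL K (Fin n)) h6)
      convert h7 using 1
      funext i j
      rw [← co_Tr]
      show _ = (Fintype.card K : ℝ)⁻¹ * Matrix.trace (_ • (1 : MK K))
      rw [Matrix.trace_smul, Matrix.trace_one, smul_eq_mul, mul_comm _ (Fintype.card K : ℝ),
        ← mul_assoc, inv_mul_cancel₀ hc, one_mul]
      rfl
    rw [h4]
    rfl
  let κ : orth (pair (K := K) (Fin n)) (Cc K (Fin n) (Fin n))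
      ((Ze K (Fin n)).map (trL K (Fin n))) →ₗ[ℝ] Ann (Fintype.card (Q1 K)) n (qw K) :=
    { toFun := fun φ => ⟨_, h2 φ.1 φ.2⟩
      map_add' := fun _ _ => rfl
      map_smul' := fun _ _ => rfl }
  have hκ : Function.Injective κ := by
    intro a b hab
    have h5 : (κ a).1 = (κ b).1 := by rw [hab]
    apply Subtype.ext
    funext i j
    exact congrFun h5 (fun a => (j a, i a))
  exact LinearMap.finrank_le_finrank_of_injective hκ

end Pool.Agent.H43CC
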