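import Mathlib
import Pool.Agent.H43CC.Low

set_option autoImplicit false

namespace Pool.Agent.H43CC

open Module

variable {K : Type} [Fintype K] [DecidableEq K]

/-- The decomposition with one more letter. -/
def dec' {Q β γ : Type} (ε : Q ⊕ β ≃ γ) : Q ⊕ Option β ≃ Option γ :=
  (eQ Q β).symm.trans (Equiv.optionCongr ε)

theorem ctr_dec' {Q β γ : Type} [Fintype Q] [DecidableEq Q] (q : (Q → K) → (Q → K) → ℝ)
    (ε : Q ⊕ β ≃ γ) (φ : (Option γ → K) → (Option γ → K) → ℝ) (s0 t0 : K) (i j : β → K) :
    ctr q (dec' ε) φ (oc s0 i) (oc t0 j) =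
      ctr q ε (fun I J => φ (oc s0 I) (oc t0 J)) i j := by
  unfold ctr
  refine Finset.sum_congr rfl fun s _ => Finset.sum_congr rfl fun t _ => ?_
  congr 1
  congr 1
  · funext o
    rcases o with _ | a
    · rfl
    · obtain ⟨d, rfl⟩ := ε.surjective a
      rw [Function.comp_apply, dec', Equiv.symm_trans_apply, Equiv.symm_symm,
        oc_some, Function.comp_apply, Equiv.symm_apply_apply]
      have : (Equiv.optionCongr ε).symm (some (ε d)) = some d := by
        rw [Equiv.symm_apply_eq]; rfl
      rw [this]
      rcases d with c | b <;> rfl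
  · funext o
    rcases o with _ | a
    · rfl
    · obtain ⟨d, rfl⟩ := ε.surjective a
      rw [Function.comp_apply, dec', Equiv.symm_trans_apply, Equiv.symm_symm,
        oc_some, Function.comp_apply, Equiv.symm_apply_apply]
      have : (Equiv.optionCongr ε).symm (some (ε d)) = some d := by
        rw [Equiv.symm_apply_eq]; rfl
      rw [this]
      rcases d with c | b <;> rfl

theorem lowerR [Nonempty K] (n : ℕ) :
    T K (Option (Fin n)) ≤ finrank ℝ (R K (Fin n)) +
      Fintype.card (K × K) * finrank ℝ (Ann (Fintype.card (Q1 K)) n (qw K)) := by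
  rw [← finrank_map_inj (haL K (Fin n)) (R K (Fin n)) (fun f hf h => haL_inj hf h)]
  have h1 := dim_le (pair (K := K) (Option (Fin n))) (Cc K (Option (Fin n)) (Option (Fin n)))
    ((R K (Fin n)).map (haL K (Fin n)))
  refine h1.trans (Nat.add_le_add_left ?_ _)
  have h2 : ∀ φ ∈ orth (pair (K := K) (Option (Fin n))) (Cc K (Option (Fin n)) (Option (Fin n)))
      ((R K (Fin n)).map (haL K (Fin n))), ∀ p : K × K,
      (fun y : Fin n → K × K => φ (oc p.2 (fun a => (y a).2)) (oc p.1 (fun a => (y a).1))) ∈
        Ann (Fintype.card (Q1 K)) n (qw K) := by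
    intro φ hφ p g hg y
    have h3 := ctr_word (co QQ) (Fintype.equivFin (Q1 K)) g hg
      (fun I J => φ (oc p.2 I) (oc p.1 J)) y
    rw [show (∑ x, qw K x * (fun y : Fin n → K × K => φ (oc p.2 (fun a => (y a).2))
      (oc p.1 (fun a => (y a).1))) (Function.extend g x y)) = _ from h3]
    rw [← ctr_dec']
    have h4 : ctr (co QQ) (dec' (dec (Fintype.equivFin (Q1 K)) g hg)) φ = 0 := by
      classical
      refine ortho_contr co_QQ _ ((R K (Fin n)).map (haL K (Fin n))) ?_ hφ.1
        (fun w hw => hφ.2 w hw)
      intro σ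
      set ε := dec (Fintype.equivFin (Q1 K)) g hg
      obtain ⟨f, hf, hf'⟩ := claimB' (K := K) {a : Fin n // ¬ (a ∈ Set.range g)} inferInstance σ
      have h7 := Submodule.mem_map_of_mem (f := haL K (Fin n)) (R_re ε hf)
      convert h7 using 1
      funext i j
      rw [← co_Tr]
      have h8 := hf' (fun c => E0 (K := K) (j (some (ε (Sum.inl c))), i (some (ε (Sum.inl c)))))
        (fun o => E0 (K := K) (j ((dec' ε) (Sum.inr o)), i ((dec' ε) (Sum.inr o))))
      refine Eq.trans ?_ (h8.trans ?_)
      · rfl
      · show _ = Matrix.trace (f _ * E0 (j none, i none))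
        have h9 : ∀ A B : (Q1 K ⊕ {a : Fin n // ¬ (a ∈ Set.range g)}) → MK K, A = B →
            Matrix.trace (f A * E0 (j none, i none)) = Matrix.trace (f B * E0 (j none, i none)) := by
          rintro A _ rfl
          rfl
        refine h9 _ _ ?_
        funext d
        rcases d with c | b <;> rfl
    rw [h4]
    rfl
  let κ : orth (pair (K := K) (Option (Fin n))) (Cc K (Option (Fin n)) (Option (Fin n)))
      ((R K (Fin n)).map (haL K (Fin n))) →ₗ[ℝ]
      (K × K → Ann (Fintype.card (Q1 K)) n (qw K)) :=
    { toFun := fun φ p => ⟨_, h2 φ.1 φ.2 p⟩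
      map_add' := fun _ _ => rfl
      map_smul' := fun _ _ => rfl }
  have hκ : Function.Injective κ := by
    intro a b hab
    apply Subtype.ext
    funext i j
    have h5 : (κ a (j none, i none)).1 = (κ b (j none, i none)).1 := by rw [hab]
    have h6 := congrFun h5 (fun a => (j (some a), i (some a)))
    have h7 : ∀ φ : (Option (Fin n) → K) → (Option (Fin n) → K) → ℝ,
        φ (oc (i none) (fun a => i (some a))) (oc (j none) (fun a => j (some a))) = φ i j := by
      intro φ
      congr 1
      · congr 1
        funext o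
        rcases o with _ | a <;> rfl
      · funext o
        rcases o with _ | a <;> rfl
    rw [← h7 a.1, ← h7 b.1]
    exact h6
  have h8 := LinearMap.finrank_le_finrank_of_injective hκ
  rw [finrank_pi_fintype, Finset.sum_const, Finset.card_univ, smul_eq_mul] at h8
  exact h8

end Pool.Agent.H43CC
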