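import Mathlib
import Pool.Agent.H43CC.LowR

set_option autoImplicit false

namespace Pool.Agent.H43CC

open Module Filter Topology

theorem tendsto_aux (k : ℕ) (r : ℝ) (h0 : 0 < r) (h1 : r < 1) :
    Tendsto (fun n : ℕ => ((n : ℝ) + 1) ^ k * r ^ n) atTop (𝓝 0) := by
  have h2 := tendsto_pow_const_mul_const_pow_of_abs_lt_one k (r := r) (by
    rw [abs_of_pos h0]; exact h1)
  have h3 := (h2.comp (tendsto_add_atTop_nat 1)).const_mul r⁻¹
  rw [mul_zero] at h3
  refine h3.congr fun n => ?_
  simp only [Function.comp_apply, Nat.cast_add, Nat.cast_one, pow_succ]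
  field_simp

theorem lim_aux (t δ c A : ℕ → ℝ) (N : ℝ) (m P : ℕ) (hN : 2 ≤ N) (ht : ∀ n, 0 < t n)
    (hgrow : ∀ n, N ^ n ≤ t n * ((n : ℝ) + 1) ^ P) (hup : ∀ n, t n ≤ N ^ n)
    (hlc : ∀ n, t (n + 1) ^ 2 ≤ t (n + 2) * t n)
    (hδ1 : ∀ n, δ n ≤ t n) (hδ2 : ∀ n, t n ≤ δ n + A n)
    (hc1 : ∀ n, c n ≤ t (n + 1)) (hc2 : ∀ n, t (n + 1) ≤ c n + N * A n)
    (hA : ∀ n, A n ≤ ((n : ℝ) + 1) ^ m * (N - 1) ^ n) :
    ∃ ρ : ℝ, Tendsto (fun n => δ n / c n) atTop (𝓝 ρ) := by
  have hN0 : 0 < N := by linarith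
  let r : ℕ → ℝ := fun n => t (n + 1) / t n
  have hrpos : ∀ n, 0 < r n := fun n => div_pos (ht _) (ht _)
  have hmono : Monotone r := by
    refine monotone_nat_of_le_succ fun n => ?_
    show t (n + 1) / t n ≤ t (n + 2) / t (n + 1)
    rw [div_le_div_iff₀ (ht _) (ht _)]
    have := hlc n
    nlinarith
  have hstep : ∀ n s, t n * (r n) ^ s ≤ t (n + s) := by
    intro n s
    induction s with
    | zero => simp
    | succ s ih =>
      have h1 : t (n + (s + 1)) = t (n + s) * r (n + s) := by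
        show _ = t (n + s) * (t (n + s + 1) / t (n + s))
        rw [mul_div_cancel₀ _ (ht _).ne', ← add_assoc]
      rw [h1, pow_succ, ← mul_assoc]
      exact mul_le_mul ih (hmono (Nat.le_add_right n s)) (hrpos n).le (ht _).le
  have hbound : ∀ n, r n ≤ N := by
    intro n
    by_contra hcon
    push Not at hcon
    have h1 : 1 < r n / N := by rwa [one_lt_div hN0]
    have h2 := tendsto_pow_atTop_atTop_of_one_lt h1
    obtain ⟨s, hs⟩ := (h2.eventually_gt_atTop (N ^ n / t n)).exists
    have h3 := (hstep n s).trans (hup (n + s))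
    rw [div_pow, div_lt_div_iff₀ (ht n) (pow_pos hN0 s), ← pow_add] at hs
    linarith
  have hbdd : BddAbove (Set.range r) := ⟨N, by rintro _ ⟨n, rfl⟩; exact hbound n⟩
  have hL := tendsto_atTop_ciSup hmono hbdd
  set L := ⨆ n, r n with hLdef
  have hLpos : 0 < L := lt_of_lt_of_le (hrpos 0) (le_ciSup hbdd 0)
  have hAt : Tendsto (fun n => A n / t n) atTop (𝓝 0) := by
    have h1 : ∀ n, A n / t n ≤ ((n : ℝ) + 1) ^ (m + P) * ((N - 1) / N) ^ n := by
      intro n
      have hp : 0 < ((n : ℝ) + 1) := by positivity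
      rw [div_le_iff₀ (ht n), div_pow, pow_add]
      calc A n ≤ ((n : ℝ) + 1) ^ m * (N - 1) ^ n := hA n
        _ = ((n : ℝ) + 1) ^ m * ((N - 1) ^ n / N ^ n) * N ^ n := by
            field_simp
        _ ≤ ((n : ℝ) + 1) ^ m * ((N - 1) ^ n / N ^ n) * (t n * ((n : ℝ) + 1) ^ P) := by
            refine mul_le_mul_of_nonneg_left (hgrow n) ?_
            have : 0 ≤ (N - 1) ^ n := pow_nonneg (by linarith) n
            positivity
        _ = _ := by ring
    have h2 : ∀ n, 0 ≤ A n / t n := fun n =>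
      div_nonneg (by linarith [hδ1 n, hδ2 n]) (ht n).le
    refine squeeze_zero h2 h1 (tendsto_aux (m + P) _ ?_ ?_)
    · exact div_pos (by linarith) hN0
    · rw [div_lt_one hN0]; linarith
  have hAt' : Tendsto (fun n => N * (A n / t n) / r n) atTop (𝓝 0) := by
    have h1 := (hAt.const_mul N).div hL hLpos.ne'
    rw [mul_zero, zero_div] at h1
    exact h1
  have hd : Tendsto (fun n => δ n / t n) atTop (𝓝 1) := by
    have h1 : Tendsto (fun n => 1 - A n / t n) atTop (𝓝 1) := by
      have := hAt.const_sub 1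
      rwa [sub_zero] at this
    refine tendsto_of_tendsto_of_tendsto_of_le_of_le h1 tendsto_const_nhds ?_ ?_
    · intro n
      show 1 - A n / t n ≤ δ n / t n
      rw [one_sub_div (ht n).ne', div_le_div_iff_of_pos_right (ht n)]
      linarith [hδ2 n]
    · intro n
      show δ n / t n ≤ 1
      rw [div_le_one (ht n)]
      exact hδ1 n
  have hcc : Tendsto (fun n => c n / t (n + 1)) atTop (𝓝 1) := by
    have h1 : Tendsto (fun n => 1 - N * (A n / t n) / r n) atTop (𝓝 1) := by
      have := hAt'.const_sub 1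
      rwa [sub_zero] at this
    refine tendsto_of_tendsto_of_tendsto_of_le_of_le h1 tendsto_const_nhds ?_ ?_
    · intro n
      show 1 - N * (A n / t n) / r n ≤ c n / t (n + 1)
      have h2 : N * (A n / t n) / r n = N * A n / t (n + 1) := by
        show N * (A n / t n) / (t (n + 1) / t n) = _
        have := (ht n).ne'
        have := (ht (n + 1)).ne'
        field_simp
      rw [h2, one_sub_div (ht _).ne', div_le_div_iff_of_pos_right (ht _)]
      linarith [hc2 n]
    · intro n
      show c n / t (n + 1) ≤ 1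
      rw [div_le_one (ht _)]
      exact hc1 n
  refine ⟨1 / (1 * L), ?_⟩
  have h1 := hd.div (hcc.mul hL) (by rw [one_mul]; exact hLpos.ne')
  refine h1.congr fun n => ?_
  show (δ n / t n) / ((c n / t (n + 1)) * (t (n + 1) / t n)) = δ n / c n
  have e1 := (ht n).ne'
  have e2 := (ht (n + 1)).ne'
  have h2 : (c n / t (n + 1)) * (t (n + 1) / t n) = c n / t n := by field_simp
  rw [h2, div_div_div_cancel_right₀ e1]

variable (K : Type) [Fintype K] [DecidableEq K]

theorem T_up (n : ℕ) : T K (Fin n) ≤ (Fintype.card (K × K)) ^ n := by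
  have h1 : T K (Fin n) ≤ finrank ℝ ((Fin n → K) → (Fin n → K) → ℝ) := Submodule.finrank_le _
  rw [finrank_pi_fintype] at h1
  simp only [finrank_fintype_fun_eq_card, Fintype.card_fun, Fintype.card_fin, Finset.sum_const,
    Finset.card_univ, smul_eq_mul] at h1
  rw [Fintype.card_prod, mul_pow]
  exact h1

theorem main_real [Nonempty K] (hK : 2 ≤ Fintype.card K) :
    ∃ ρ : ℝ, Tendsto (fun n : ℕ => (finrank ℝ (Ze K (Fin n)) : ℝ) / (finrank ℝ (R K (Fin n)) : ℝ))
      atTop (𝓝 ρ) := by
  have hN : 2 ≤ Fintype.card (K × K) := by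
    rw [Fintype.card_prod]; nlinarith
  have hopt : ∀ n, T K (Option (Fin n)) = T K (Fin (n + 1)) := fun n =>
    (T_congr (finSuccEquiv n)).symm
  have hgrow : ∀ n : ℕ, (Fintype.card (K × K) : ℝ) ^ n ≤ (T K (Fin n) : ℝ) *
      ((n : ℝ) + 1) ^ (Fintype.card K * Fintype.card K) := by
    intro n
    have h1 := growth K (Fin n)
    rw [Fintype.card_fin] at h1
    have h2 : (Fintype.card (K × K)) ^ n = (Fintype.card K ^ n) ^ 2 := by
      rw [Fintype.card_prod, mul_pow]; ring
    rw [← h2] at h1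
    exact_mod_cast h1
  refine lim_aux (fun n => (T K (Fin n) : ℝ)) _ _
    (fun n => (finrank ℝ (Ann (Fintype.card (Q1 K)) n (qw K)) : ℝ)) (Fintype.card (K × K) : ℝ)
    (Fintype.card (Q1 K)) (Fintype.card K * Fintype.card K) (by exact_mod_cast hN) ?_ hgrow ?_ ?_
    ?_ ?_ ?_ ?_ ?_
  · intro n
    have h1 := hgrow n
    have h2 : (0 : ℝ) < (Fintype.card (K × K) : ℝ) ^ n := by
      have : (0 : ℝ) < (Fintype.card (K × K) : ℝ) := by
        have : 0 < Fintype.card (K × K) := by omega
        exact_mod_cast this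
      positivity
    have h3 : (0 : ℝ) < ((n : ℝ) + 1) ^ (Fintype.card K * Fintype.card K) := by positivity
    by_contra hcon
    push Not at hcon
    have h4 : (T K (Fin n) : ℝ) * ((n : ℝ) + 1) ^ (Fintype.card K * Fintype.card K) ≤ 0 :=
      mul_nonpos_of_nonpos_of_nonneg hcon h3.le
    linarith
  · intro n
    exact_mod_cast T_up K n
  · intro n
    have h1 := logconv K (Fin n)
    have h2 : T K (Option (Option (Fin n))) = T K (Fin (n + 2)) := by
      rw [← hopt (n + 1)]
      exact T_congr (Equiv.optionCongr (finSuccEquiv n).symm)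
    rw [hopt, h2] at h1
    exact_mod_cast h1
  · intro n
    exact_mod_cast Ze_le n
  · intro n
    exact_mod_cast lowerZ n
  · intro n
    have h1 := R_le (K := K) n
    rw [hopt] at h1
    exact_mod_cast h1
  · intro n
    have h1 := lowerR (K := K) n
    rw [hopt] at h1
    exact_mod_cast h1
  · intro n
    have h1 := Ann_bound hN (Fintype.card (Q1 K)) n (qw K) qw_ne
    have h2 : ((Fintype.card (K × K) - 1 : ℕ) : ℝ) = (Fintype.card (K × K) : ℝ) - 1 := by
      rw [Nat.cast_sub (by omega), Nat.cast_one]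
    rw [← h2]
    exact_mod_cast h1

end Pool.Agent.H43CC
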