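import Mathlib
import Pool.Agent.H43CC.Lim

set_option autoImplicit false

namespace Pool.Agent.H43CC

open Module

theorem rank_le_aux {ι J : Type} [Finite ι] [Finite J] (v : ι → J → ℤ) (F G : Type) [Field F]
    [CharZero F] [Field G] [CharZero G] :
    finrank F (Submodule.span F (Set.range (fun i => (algebraMap ℤ F ∘ v i : J → F)))) ≤
      finrank G (Submodule.span G (Set.range (fun i => (algebraMap ℤ G ∘ v i : J → G)))) := by
  obtain ⟨κ, a, ha, hspan, hli⟩ := exists_linearIndependent' F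
    (fun i => (algebraMap ℤ F ∘ v i : J → F))
  have hκ : Finite κ := Finite.of_injective a ha
  have : Fintype κ := Fintype.ofFinite κ
  have h1 : LinearIndependent ℤ (fun i => v (a i)) :=
    (linearIndependent_algebraMap_comp_iff (S := F) (v := fun i => v (a i))).1 hli
  have h2 : LinearIndependent G (fun i => (algebraMap ℤ G ∘ v (a i) : J → G)) :=
    (linearIndependent_algebraMap_comp_iff (S := G) (v := fun i => v (a i))).2 h1
  rw [← hspan, finrank_span_eq_card hli, ← finrank_span_eq_card h2]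
  refine Submodule.finrank_mono (Submodule.span_mono ?_)
  rintro _ ⟨i, rfl⟩
  exact ⟨a i, rfl⟩

theorem rank_eq {ι J : Type} [Finite ι] [Finite J] (v : ι → J → ℤ) (F G : Type) [Field F]
    [CharZero F] [Field G] [CharZero G] :
    finrank F (Submodule.span F (Set.range (fun i => (algebraMap ℤ F ∘ v i : J → F)))) =
      finrank G (Submodule.span G (Set.range (fun i => (algebraMap ℤ G ∘ v i : J → G)))) :=
  le_antisymm (rank_le_aux v F G) (rank_le_aux v G F)

theorem map_rank_eq {F V W1 W2 : Type} [Field F] [AddCommGroup V] [Module F V]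
    [AddCommGroup W1] [Module F W1] [AddCommGroup W2] [Module F W2] (L1 : V →ₗ[F] W1)
    (L2 : V →ₗ[F] W2) (S : Submodule F V) (h : ∀ v ∈ S, L1 v = 0 ↔ L2 v = 0) :
    finrank F (S.map L1) = finrank F (S.map L2) := by
  have h1 : LinearMap.ker (L1.domRestrict S) = LinearMap.ker (L2.domRestrict S) := by
    ext v
    rw [LinearMap.mem_ker, LinearMap.mem_ker]
    exact h v.1 v.2
  have e1 := (L1.domRestrict S).quotKerEquivRange.finrank_eq
  have e2 := (L2.domRestrict S).quotKerEquivRange.finrank_eq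
  rw [← LinearMap.range_domRestrict, ← LinearMap.range_domRestrict, ← e1, ← e2, h1]

/-- The monomial functions. -/
def wF (F : Type) [CommRing F] (k n : ℕ) (σ : Equiv.Perm (Fin n))
    (x : Fin n → Matrix (Fin k) (Fin k) F) : Matrix (Fin k) (Fin k) F :=
  (List.ofFn (fun i => x (σ i))).prod

/-- The span of the monomial functions. -/
def SF (F : Type) [CommRing F] (k n : ℕ) :
    Submodule F ((Fin n → Matrix (Fin k) (Fin k) F) → Matrix (Fin k) (Fin k) F) :=
  Submodule.span F (Set.range (wF F k n))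

theorem SF_ml {F : Type} [CommRing F] {k n : ℕ}
    {f : (Fin n → Matrix (Fin k) (Fin k) F) → Matrix (Fin k) (Fin k) F} (hf : f ∈ SF F k n) :
    ∃ m : MultilinearMap F (fun _ : Fin n => Matrix (Fin k) (Fin k) F)
      (Matrix (Fin k) (Fin k) F), ∀ x, m x = f x := by
  refine Submodule.span_induction (p := fun f _ => ∃ m : MultilinearMap F
    (fun _ : Fin n => Matrix (Fin k) (Fin k) F) (Matrix (Fin k) (Fin k) F), ∀ x, m x = f x)
    ?_ ?_ ?_ ?_ hf
  · rintro _ ⟨σ, rfl⟩
    exact ⟨(MultilinearMap.mkPiAlgebraFin F n (Matrix (Fin k) (Fin k) F)).domDomCongr σ,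
      fun x => rfl⟩
  · exact ⟨0, fun x => rfl⟩
  · rintro f g _ _ ⟨m, hm⟩ ⟨m', hm'⟩
    exact ⟨m + m', fun x => by rw [add_apply, hm, hm']; rfl⟩
  · rintro r f _ ⟨m, hm⟩
    exact ⟨r • m, fun x => by rw [smul_apply, hm]; rfl⟩

/-- Matrix units. -/
def EF (F : Type) [CommRing F] {k n : ℕ} (y : Fin n → Fin k × Fin k) (a : Fin n) :
    Matrix (Fin k) (Fin k) F := Matrix.single (y a).1 (y a).2 1

theorem SF_ext {F W : Type} [CommRing F] [AddCommGroup W] [Module F W] {k n : ℕ}
    {f : (Fin n → Matrix (Fin k) (Fin k) F) → Matrix (Fin k) (Fin k) F} (hf : f ∈ SF F k n)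
    (P : Matrix (Fin k) (Fin k) F →ₗ[F] W) (h : ∀ y, P (f (EF F y)) = 0) (x) : P (f x) = 0 := by
  obtain ⟨m, hm⟩ := SF_ml hf
  have h1 : P.compMultilinearMap m = 0 := by
    refine Basis.ext_multilinear (fun _ => Matrix.stdBasis F (Fin k) (Fin k)) fun y => ?_
    have h2 : (fun i => (Matrix.stdBasis F (Fin k) (Fin k)) (y i)) = EF F y := by
      funext a
      exact Matrix.stdBasis_eq_single F (y a).1 (y a).2
    rw [h2, LinearMap.compMultilinearMap_apply, hm, h]
    rfl
  rw [← hm, ← LinearMap.compMultilinearMap_apply, h1]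
  rfl

theorem wF_int (F : Type) [CommRing F] {k n : ℕ} (σ : Equiv.Perm (Fin n))
    (y : Fin n → Fin k × Fin k) (p q : Fin k) :
    wF F k n σ (EF F y) p q = algebraMap ℤ F (wF ℤ k n σ (EF ℤ y) p q) := by
  have h1 : (algebraMap ℤ F).mapMatrix (wF ℤ k n σ (EF ℤ y)) = wF F k n σ (EF F y) := by
    unfold wF
    rw [map_list_prod, List.map_ofFn]
    congr 2
    funext i
    rw [Function.comp_apply, RingHom.mapMatrix_apply, EF, EF, Matrix.map_single _ _ _]
    simp
  rw [← h1]
  rfl

/-- The coefficient functional. -/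
def Pc (F : Type) [CommRing F] {k : ℕ} (o : Fin k) (c : Fin k → Fin k → ℤ) :
    Matrix (Fin k) (Fin k) F →ₗ[F] (Fin k → Fin k → F) where
  toFun A p q := A p q - (algebraMap ℤ F (c p q)) * A o o
  map_add' A B := by funext p q; simp; ring
  map_smul' r A := by funext p q; simp; ring

/-- The integer coordinate vectors. -/
def vZ {k : ℕ} (n : ℕ) (o : Fin k) (c : Fin k → Fin k → ℤ) (σ : Equiv.Perm (Fin n))
    (z : (Fin n → Fin k × Fin k) × Fin k × Fin k) : ℤ :=
  Pc ℤ o c (wF ℤ k n σ (EF ℤ z.1)) z.2.1 z.2.2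

/-- Coordinates as a linear map. -/
def cL (F : Type) [CommRing F] {k : ℕ} (n : ℕ) (o : Fin k) (c : Fin k → Fin k → ℤ) :
    ((Fin n → Matrix (Fin k) (Fin k) F) → Matrix (Fin k) (Fin k) F) →ₗ[F]
      ((Fin n → Fin k × Fin k) × Fin k × Fin k → F) where
  toFun f z := Pc F o c (f (EF F z.1)) z.2.1 z.2.2
  map_add' f g := by funext z; rw [Pi.add_apply, map_add]; rfl
  map_smul' r f := by funext z; rw [Pi.smul_apply, map_smul]; rfl

theorem cL_wF (F : Type) [CommRing F] {k : ℕ} (n : ℕ) (o : Fin k) (c : Fin k → Fin k → ℤ)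
    (σ : Equiv.Perm (Fin n)) : cL F n o c (wF F k n σ) = algebraMap ℤ F ∘ vZ n o c σ := by
  funext z
  show wF F k n σ (EF F z.1) z.2.1 z.2.2 - (algebraMap ℤ F (c z.2.1 z.2.2)) *
    wF F k n σ (EF F z.1) o o = algebraMap ℤ F (wF ℤ k n σ (EF ℤ z.1) z.2.1 z.2.2 -
      (algebraMap ℤ ℤ (c z.2.1 z.2.2)) * wF ℤ k n σ (EF ℤ z.1) o o)
  rw [wF_int F σ z.1 z.2.1 z.2.2, wF_int F σ z.1 o o, map_sub, map_mul]
  rfl

/-- Post-composition. -/
def pcL {F W : Type} [CommRing F] [AddCommGroup W] [Module F W] {k : ℕ} (n : ℕ)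
    (Q : Matrix (Fin k) (Fin k) F →ₗ[F] W) :
    ((Fin n → Matrix (Fin k) (Fin k) F) → Matrix (Fin k) (Fin k) F) →ₗ[F]
      ((Fin n → Matrix (Fin k) (Fin k) F) → W) where
  toFun f x := Q (f x)
  map_add' f g := by funext x; simp
  map_smul' r f := by funext x; simp

theorem rank_formula {F W : Type} [Field F] [AddCommGroup W] [Module F W] {k : ℕ} (n : ℕ)
    (o : Fin k) (c : Fin k → Fin k → ℤ) (Q : Matrix (Fin k) (Fin k) F →ₗ[F] W)
    (hQ : ∀ A, Q A = 0 ↔ Pc F o c A = 0) :
    finrank F ((SF F k n).map (pcL n Q)) =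
      finrank F (Submodule.span F (Set.range (fun σ => (algebraMap ℤ F ∘ vZ n o c σ :
        (Fin n → Fin k × Fin k) × Fin k × Fin k → F)))) := by
  rw [map_rank_eq (pcL n Q) (cL F n o c) (SF F k n)]
  · rw [SF, Submodule.map_span, ← Set.range_comp]
    have h1 : (cL F n o c ∘ wF F k n) = (fun σ => (algebraMap ℤ F ∘ vZ n o c σ :
        (Fin n → Fin k × Fin k) × Fin k × Fin k → F)) := by
      funext σ
      exact cL_wF F n o c σ
    rw [h1]
  · intro f hf
    constructor
    · intro h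
      funext z
      have h1 : Q (f (EF F z.1)) = 0 := congrFun h _
      rw [hQ] at h1
      exact congrFun (congrFun h1 z.2.1) z.2.2
    · intro h
      funext x
      have h1 : ∀ x, Pc F o c (f x) = 0 := SF_ext hf (Pc F o c) (fun y => by
        funext p q
        exact congrFun h (y, p, q))
      exact (hQ _).2 (h1 x)

end Pool.Agent.H43CC
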