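import Mathlib
import Pool.Agent.H43CC.Base

set_option autoImplicit false

namespace Pool.Agent.H43CC

open Module Filter Topology

theorem SF_eq_R (k n : ℕ) : SF ℝ k n = R (Fin k) (Fin n) := by
  unfold SF R
  congr 1
  ext f
  constructor
  · rintro ⟨σ, rfl⟩
    refine ⟨List.ofFn σ, ⟨List.nodup_ofFn.2 σ.injective, fun a => ?_⟩, ?_⟩
    · rw [List.mem_ofFn]
      exact σ.surjective a
    · funext x
      unfold wF Wd
      rw [List.map_ofFn]
      rfl
  · rintro ⟨l, hl, rfl⟩
    have hlen : l.length = n := by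
      have h1 : l.toFinset = Finset.univ := by
        ext a
        simp [hl.2 a]
      rw [← List.toFinset_card_of_nodup hl.1, h1, Finset.card_univ, Fintype.card_fin]
    let s : Fin n → Fin n := fun i => l[i.1]'(by rw [hlen]; exact i.2)
    have hs : Function.Injective s := by
      intro i j hij
      have h2 := (List.Nodup.getElem_inj_iff hl.1).1 hij
      exact Fin.ext h2
    have hb : Function.Bijective s := Finite.injective_iff_bijective.1 hs
    refine ⟨Equiv.ofBijective s hb, ?_⟩
    funext x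
    unfold wF Wd
    congr 1
    refine List.ext_getElem (by simp [hlen]) fun i h1 h2 => ?_
    rw [List.getElem_ofFn, List.getElem_map]
    rfl

/-- The Kronecker delta. -/
def kd {k : ℕ} (p q : Fin k) : ℤ := if p = q then 1 else 0

theorem Pc_kd {F : Type} [CommRing F] {k : ℕ} (o : Fin k) (A : Matrix (Fin k) (Fin k) F) :
    Pc F o kd A = 0 ↔ ∃ r : F, A = r • (1 : Matrix (Fin k) (Fin k) F) := by
  constructor
  · intro h
    refine ⟨A o o, ?_⟩
    ext p q
    have h1 : A p q - (algebraMap ℤ F (kd p q)) * A o o = 0 := congrFun (congrFun h p) q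
    rw [sub_eq_zero] at h1
    rw [h1, Matrix.smul_apply, Matrix.one_apply, kd]
    split_ifs <;> simp
  · rintro ⟨r, rfl⟩
    funext p q
    show (r • (1 : Matrix (Fin k) (Fin k) F)) p q - (algebraMap ℤ F (kd p q)) *
      (r • (1 : Matrix (Fin k) (Fin k) F)) o o = 0
    rw [Matrix.smul_apply, Matrix.one_apply, Matrix.smul_apply, Matrix.one_apply, kd]
    split_ifs <;> simp_all

theorem mkQ_center {F : Type} [Field F] {k : ℕ} (A : Matrix (Fin k) (Fin k) F) :
    Submodule.mkQ (Subalgebra.toSubmodule (Subalgebra.center F (Matrix (Fin k) (Fin k) F))) A = 0 ↔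
      ∃ r : F, A = r • (1 : Matrix (Fin k) (Fin k) F) := by
  rw [Submodule.mkQ_apply, Submodule.Quotient.mk_eq_zero, Subalgebra.mem_toSubmodule,
    Subalgebra.mem_center_iff]
  constructor
  · intro h
    have h1 : A ∈ Set.center (Matrix (Fin k) (Fin k) F) := by
      rw [Semigroup.mem_center_iff]
      exact h
    rw [Matrix.center_eq_range] at h1
    obtain ⟨r, rfl⟩ := h1
    exact ⟨r, by rw [Matrix.scalar_apply, Matrix.smul_one_eq_diagonal]⟩
  · rintro ⟨r, rfl⟩ b
    simp

theorem cz_eq (F : Type) [Field F] [CharZero F] {k : ℕ} (o : Fin k) (n : ℕ) :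
    finrank F (Submodule.span F (Set.range (fun σ : Equiv.Perm (Fin n) =>
      fun x : Fin n → Matrix (Fin k) (Fin k) F =>
        Submodule.mkQ (Subalgebra.toSubmodule (Subalgebra.center F (Matrix (Fin k) (Fin k) F)))
          (List.ofFn (fun i => x (σ i))).prod))) =
    finrank ℝ ((R (Fin k) (Fin n)).map (pcL n (Pc ℝ o kd))) := by
  rw [← SF_eq_R, rank_formula n o kd (Pc ℝ o kd) (fun A => Iff.rfl), ← rank_eq (vZ n o kd) F ℝ,
    ← rank_formula n o kd (Submodule.mkQ (Subalgebra.toSubmodule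
      (Subalgebra.center F (Matrix (Fin k) (Fin k) F)))) (fun A => by rw [mkQ_center, Pc_kd]),
    SF, Submodule.map_span, ← Set.range_comp]
  rfl

theorem c_eq (F : Type) [Field F] [CharZero F] {k : ℕ} (o : Fin k) (n : ℕ) :
    finrank F (Submodule.span F (Set.range (fun σ : Equiv.Perm (Fin n) =>
      fun x : Fin n → Matrix (Fin k) (Fin k) F => (List.ofFn (fun i => x (σ i))).prod))) =
    finrank ℝ (R (Fin k) (Fin n)) := by
  have h0 : ∀ (G : Type) [Field G] [CharZero G] (A : Matrix (Fin k) (Fin k) G),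
      (LinearMap.id : Matrix (Fin k) (Fin k) G →ₗ[G] Matrix (Fin k) (Fin k) G) A = 0 ↔
        Pc G o (fun _ _ => 0) A = 0 := by
    intro G _ _ A
    rw [LinearMap.id_apply]
    constructor
    · rintro rfl
      exact map_zero _
    · intro h
      ext p q
      have h1 : A p q - (algebraMap ℤ G 0) * A o o = 0 := congrFun (congrFun h p) q
      simpa using h1
  have h1 : ∀ (G : Type) [Field G] [CharZero G], (SF G k n).map (pcL n LinearMap.id) =
      SF G k n := by
    intro G _ _
    have : (pcL n (LinearMap.id : Matrix (Fin k) (Fin k) G →ₗ[G] Matrix (Fin k) (Fin k) G)) =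
        LinearMap.id := by
      ext f x
      rfl
    rw [this, Submodule.map_id]
  have h2 : ∀ (G : Type) [Field G] [CharZero G], finrank G (SF G k n) =
      finrank G (Submodule.span G (Set.range (fun σ => (algebraMap ℤ G ∘
        vZ n o (fun _ _ => 0) σ : (Fin n → Fin k × Fin k) × Fin k × Fin k → G)))) := by
    intro G _ _
    rw [← rank_formula n o (fun _ _ => 0) LinearMap.id (h0 G), h1 G]
  rw [← SF_eq_R]
  exact (h2 F).trans ((rank_eq _ F ℝ).trans (h2 ℝ).symm)

theorem real_split {k : ℕ} (o : Fin k) (n : ℕ) :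
    finrank ℝ ((R (Fin k) (Fin n)).map (pcL n (Pc ℝ o kd))) + finrank ℝ (Ze (Fin k) (Fin n)) =
      finrank ℝ (R (Fin k) (Fin n)) := by
  have hfin : FiniteDimensional ℝ (R (Fin k) (Fin n)) := by
    rw [← SF_eq_R]
    exact FiniteDimensional.span_of_finite ℝ (Set.finite_range _)
  have h1 := LinearMap.finrank_range_add_finrank_ker
    ((pcL n (Pc ℝ o kd)).domRestrict (R (Fin k) (Fin n)))
  rw [LinearMap.range_domRestrict] at h1
  rw [← h1]
  congr 1
  let e : Ze (Fin k) (Fin n) ≃ₗ[ℝ]
      LinearMap.ker ((pcL n (Pc ℝ o kd)).domRestrict (R (Fin k) (Fin n))) :=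
    { toFun := fun f => ⟨⟨f.1, f.2.1⟩, by
        rw [LinearMap.mem_ker]
        funext x
        exact (Pc_kd o _).2 (f.2.2 x)⟩
      invFun := fun f => ⟨f.1.1, f.1.2, fun x => by
        have h2 := f.2
        rw [LinearMap.mem_ker] at h2
        exact (Pc_kd o _).1 (congrFun h2 x)⟩
      map_add' := fun _ _ => rfl
      map_smul' := fun _ _ => rfl
      left_inv := fun _ => rfl
      right_inv := fun _ => rfl }
  exact e.finrank_eq

theorem R_pos {k : ℕ} (o : Fin k) (n : ℕ) : 0 < finrank ℝ (R (Fin k) (Fin n)) := by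
  have hfin : FiniteDimensional ℝ (R (Fin k) (Fin n)) := by
    rw [← SF_eq_R]
    exact FiniteDimensional.span_of_finite ℝ (Set.finite_range _)
  rw [Module.finrank_pos_iff_exists_ne_zero]
  refine ⟨⟨wF ℝ k n 1, by rw [← SF_eq_R]; exact Submodule.subset_span ⟨1, rfl⟩⟩, ?_⟩
  intro h
  have h1 : wF ℝ k n 1 = 0 := congrArg Subtype.val h
  have h2 := congrFun (congrFun (congrFun h1 (fun _ => 1)) o) o
  have h3 : wF ℝ k n 1 (fun _ => 1) = 1 := by
    unfold wF
    simp
  rw [h3] at h2
  simp at h2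

theorem main_thm (F : Type) [Field F] [CharZero F] (k : ℕ) (hk : 1 ≤ k) :
      ∃ α : ℝ, 0 ≤ α ∧ α ≤ 1 ∧
        Filter.Tendsto (fun n : ℕ =>
          (Module.finrank F (Submodule.span F (Set.range (fun σ : Equiv.Perm (Fin n) =>
              fun x : Fin n → Matrix (Fin k) (Fin k) F =>
                Submodule.mkQ (Subalgebra.toSubmodule (Subalgebra.center F (Matrix (Fin k) (Fin k) F)))
                  (List.ofFn (fun i => x (σ i))).prod))) : ℝ) /
          (Module.finrank F (Submodule.span F (Set.range (fun σ : Equiv.Perm (Fin n) =>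
              fun x : Fin n → Matrix (Fin k) (Fin k) F =>
                (List.ofFn (fun i => x (σ i))).prod))) : ℝ))
          Filter.atTop (nhds α) := by
  let o : Fin k := ⟨0, hk⟩
  have hne : Nonempty (Fin k) := ⟨o⟩
  have key : ∀ n : ℕ, (Module.finrank F (Submodule.span F (Set.range (fun σ : Equiv.Perm (Fin n) =>
              fun x : Fin n → Matrix (Fin k) (Fin k) F =>
                Submodule.mkQ (Subalgebra.toSubmodule (Subalgebra.center F (Matrix (Fin k) (Fin k) F)))
                  (List.ofFn (fun i => x (σ i))).prod))) : ℝ) /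
          (Module.finrank F (Submodule.span F (Set.range (fun σ : Equiv.Perm (Fin n) =>
              fun x : Fin n → Matrix (Fin k) (Fin k) F =>
                (List.ofFn (fun i => x (σ i))).prod))) : ℝ) =
        1 - (finrank ℝ (Ze (Fin k) (Fin n)) : ℝ) / (finrank ℝ (R (Fin k) (Fin n)) : ℝ) := by
    intro n
    rw [cz_eq F o n, c_eq F o n]
    have h1 := real_split o n
    have h2 : (0 : ℝ) < (finrank ℝ (R (Fin k) (Fin n)) : ℝ) := by exact_mod_cast R_pos o n
    have h3 : (finrank ℝ ((R (Fin k) (Fin n)).map (pcL n (Pc ℝ o kd))) : ℝ) =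
        (finrank ℝ (R (Fin k) (Fin n)) : ℝ) - (finrank ℝ (Ze (Fin k) (Fin n)) : ℝ) := by
      rw [← h1]; push_cast; ring
    rw [h3, sub_div, div_self h2.ne']
  have hlim : ∃ α : ℝ, Filter.Tendsto (fun n : ℕ => 1 - (finrank ℝ (Ze (Fin k) (Fin n)) : ℝ) /
      (finrank ℝ (R (Fin k) (Fin n)) : ℝ)) Filter.atTop (nhds α) := by
    by_cases hk2 : 2 ≤ k
    · obtain ⟨ρ, hρ⟩ := main_real (Fin k) (by rw [Fintype.card_fin]; exact hk2)
      exact ⟨1 - ρ, hρ.const_sub 1⟩
    · have hk1 : k = 1 := by omega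
      refine ⟨0, ?_⟩
      have h1 : ∀ n : ℕ, (0 : ℝ) = 1 - (finrank ℝ (Ze (Fin k) (Fin n)) : ℝ) /
          (finrank ℝ (R (Fin k) (Fin n)) : ℝ) := by
        intro n
        have h2 : Ze (Fin k) (Fin n) = R (Fin k) (Fin n) := by
          refine le_antisymm (fun f hf => hf.1) (fun f hf => ⟨hf, fun x => ⟨f x o o, ?_⟩⟩)
          have hsub : Subsingleton (Fin k) := by rw [hk1]; infer_instance
          ext p q
          rw [Subsingleton.elim p o, Subsingleton.elim q o]
          simp
        have h3 : (0 : ℝ) < (finrank ℝ (R (Fin k) (Fin n)) : ℝ) := by exact_mod_cast R_pos o n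
        rw [h2, div_self h3.ne', sub_self]
      exact tendsto_const_nhds.congr h1
  obtain ⟨α, hα⟩ := hlim
  have hle : ∀ n, (finrank ℝ (Ze (Fin k) (Fin n)) : ℝ) / (finrank ℝ (R (Fin k) (Fin n)) : ℝ) ≤ 1 := by
    intro n
    have h3 : (0 : ℝ) < (finrank ℝ (R (Fin k) (Fin n)) : ℝ) := by exact_mod_cast R_pos o n
    rw [div_le_one h3]
    have h1 := real_split o n
    have : finrank ℝ (Ze (Fin k) (Fin n)) ≤ finrank ℝ (R (Fin k) (Fin n)) := by omega
    exact_mod_cast this
  refine ⟨α, ?_, ?_, ?_⟩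
  · refine ge_of_tendsto' hα fun n => ?_
    linarith [hle n]
  · refine le_of_tendsto' hα fun n => ?_
    have : (0 : ℝ) ≤ (finrank ℝ (Ze (Fin k) (Fin n)) : ℝ) / (finrank ℝ (R (Fin k) (Fin n)) : ℝ) := by
      positivity
    linarith
  · exact hα.congr fun n => (key n).symm

end Pool.Agent.H43CC
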